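import Pool.Agent.H743.SN.Fin

/-!
# SN: counting the quadratic characters by the conductor
-/

set_option autoImplicit false
set_option linter.all false

open scoped Classical

namespace Pool.Agent.H743.SN

open UpperHalfPlane MatrixGroups CongruenceSubgroup Filter Topology
open Pool.Agent.N809.M17 (f17 eigen17)
open Pool.Agent.H743.X17 (WM DD Kn dvd_Delta parts Rt Sys sqf_eq)
open Pool.Agent.N919.BS (core NS)
open Pool.Agent.H743.JL (tw Qc)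
open Pool.Agent.Y703.CQ (c2)

/-- a quadratic character: primitive, of order two -/
def IsQd {q : ℕ} (ψ : DirichletCharacter ℂ q) : Prop := ψ.IsPrimitive ∧ orderOf ψ = 2

theorem qd_sq {q : ℕ} {ψ : DirichletCharacter ℂ q} (h : IsQd ψ) : ψ ^ 2 = 1 := by
  rw [← h.2]
  exact pow_orderOf_eq_one ψ

theorem qd_of {q : ℕ} {ψ : DirichletCharacter ℂ q} (h1 : ψ.IsPrimitive) (h2 : ψ ^ 2 = 1)
    (h3 : ψ ≠ 1) : IsQd ψ := ⟨h1, orderOf_eq_prime h2 h3⟩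

theorem DD_one_iff {m : ℤ} (h : (DD m).natAbs = 1) : m = 1 := by
  unfold DD at h
  split_ifs at h with h4
  · omega
  · omega

/-- the trivial character -/
theorem of_one {q : ℕ} [NeZero q] {ψ : DirichletCharacter ℂ q} (hψ : ψ.IsPrimitive) {m : ℤ}
    (h : Of ψ m) : ψ = 1 ↔ m = 1 := by
  constructor
  · intro h1
    refine DD_one_iff ?_
    rw [h.2.1, ← hψ, h1]
    exact DirichletCharacter.conductor_one
  · intro h1
    have h2 := h.2.1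
    rw [h1] at h2
    have : q = 1 := by
      rw [← h2]
      decide
    subst this
    exact DirichletCharacter.level_one ψ

/-- the number of the quadratic characters of conductor `≤ X` with the property `P` -/
noncomputable def Cnt (P : ∀ q : ℕ, DirichletCharacter ℂ q → Prop) (X : ℕ) : ℕ :=
  Set.ncard {p : Σ q : ℕ, DirichletCharacter ℂ q | 1 ≤ p.1 ∧ p.1 ≤ X ∧ IsQd p.2 ∧ P p.1 p.2}

/-- the discriminant -/
noncomputable def dsc (p : Σ q : ℕ, DirichletCharacter ℂ q) : ℤ :=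
  if h : ∃ m : ℤ, Of p.2 m then DD h.choose else 0

theorem dsc_spec {q : ℕ} {ψ : DirichletCharacter ℂ q} {m : ℤ} (h : Of ψ m) : dsc ⟨q, ψ⟩ = DD m := by
  have h1 : ∃ m : ℤ, Of ψ m := ⟨m, h⟩
  unfold dsc
  rw [dif_pos h1, h.unique h1.choose_spec]

theorem DD_inj {m m' : ℤ} (hm : Squarefree m) (hm' : Squarefree m') (h : DD m = DD m') : m = m' :=
  of_inj hm' hm fun p _ => by rw [h]

theorem maps (X : ℕ) (P : ∀ q : ℕ, DirichletCharacter ℂ q → Prop) :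
    Set.MapsTo dsc {p : Σ q : ℕ, DirichletCharacter ℂ q | 1 ≤ p.1 ∧ p.1 ≤ X ∧ IsQd p.2 ∧ P p.1 p.2}
      (((Finset.Icc (-(X : ℤ)) X).erase 0 : Finset ℤ) : Set ℤ) := by
  rintro ⟨q, ψ⟩ ⟨h1, h2, h3, -⟩
  have h1' : 1 ≤ q := h1
  have h2' : q ≤ X := h2
  haveI : NeZero q := ⟨by omega⟩
  obtain ⟨m, hm⟩ := cls h3.1 (qd_sq h3)
  rw [dsc_spec hm]
  have h4 := hm.2.1
  rw [Finset.mem_coe, Finset.mem_erase, Finset.mem_Icc]
  omega

theorem injo (X : ℕ) (P : ∀ q : ℕ, DirichletCharacter ℂ q → Prop) :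
    Set.InjOn dsc {p : Σ q : ℕ, DirichletCharacter ℂ q |
      1 ≤ p.1 ∧ p.1 ≤ X ∧ IsQd p.2 ∧ P p.1 p.2} := by
  rintro ⟨q, ψ⟩ ⟨h1, h2, h3, -⟩ ⟨q', ψ'⟩ ⟨h1', h2', h3', -⟩ h
  have a1 : 1 ≤ q := h1
  have a2 : 1 ≤ q' := h1'
  haveI : NeZero q := ⟨by omega⟩
  haveI : NeZero q' := ⟨by omega⟩
  obtain ⟨m, hm⟩ := cls h3.1 (qd_sq h3)
  obtain ⟨m', hm'⟩ := cls h3'.1 (qd_sq h3')
  rw [dsc_spec hm, dsc_spec hm'] at h
  have e : m = m' := DD_inj hm.1 hm'.1 h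
  subst e
  have e2 : q = q' := hm.2.1.symm.trans hm'.2.1
  subst e2
  have e3 : ψ = ψ' := dc_ext fun p hp => by
    have b1 := hm.2.2 p hp
    have b2 := hm'.2.2 p hp
    exact b1.trans b2.symm
  rw [e3]

theorem fin_set (X : ℕ) (P : ∀ q : ℕ, DirichletCharacter ℂ q → Prop) :
    {p : Σ q : ℕ, DirichletCharacter ℂ q | 1 ≤ p.1 ∧ p.1 ≤ X ∧ IsQd p.2 ∧ P p.1 p.2}.Finite :=
  Set.Finite.of_injOn (maps X P) (injo X P) (Finset.finite_toSet _)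

/-- there are at most `2 X` quadratic characters of conductor `≤ X` -/
theorem Cnt_le (P : ∀ q : ℕ, DirichletCharacter ℂ q → Prop) (X : ℕ) : Cnt P X ≤ 2 * X := by
  have h1 := Set.ncard_le_ncard_of_injOn dsc (maps X P) (injo X P) (Finset.finite_toSet _)
  rw [Set.ncard_coe_finset] at h1
  have h2 : ((Finset.Icc (-(X : ℤ)) X).erase 0).card = 2 * X := by
    rw [Finset.card_erase_of_mem (by rw [Finset.mem_Icc]; omega), Int.card_Icc]
    omega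
  rw [h2] at h1
  exact h1

theorem DD_le {m : ℤ} : (DD m).natAbs ≤ 4 * m.natAbs := by
  unfold DD
  split_ifs <;> omega

/-- the lower bound -/
theorem le_Cnt {P : ∀ q : ℕ, DirichletCharacter ℂ q → Prop} {Q : ℤ → Prop}
    (hQ : ∀ m : ℤ, Squarefree m → m ≠ 1 → Q m → ∀ ψ : DirichletCharacter ℂ (DD m).natAbs,
      ψ.IsPrimitive → ψ ^ 2 = 1 → Of ψ m → P _ ψ) {X Y : ℕ} (hXY : 4 * Y ≤ X) :
    NS Q Y ≤ Cnt P X + 1 := by
  have hch : ∀ m : ℤ, ∃ ψ : DirichletCharacter ℂ (DD m).natAbs, Squarefree m →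
      (ψ.IsPrimitive ∧ ψ ^ 2 = 1 ∧ Of ψ m) := by
    intro m
    by_cases hm : Squarefree m
    · obtain ⟨ψ, h⟩ := ofx hm
      exact ⟨ψ, fun _ => h⟩
    · exact ⟨1, fun h => absurd h hm⟩
  choose ψ hψ using hch
  set B : Finset ℤ := ((Finset.Icc (-(Y : ℤ)) Y).filter fun d => Squarefree d ∧ Q d).erase 1 with hB
  have h1 : NS Q Y ≤ B.card + 1 := by
    have h2 := Finset.pred_card_le_card_erase
      (s := (Finset.Icc (-(Y : ℤ)) Y).filter fun d => Squarefree d ∧ Q d) (a := 1)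
    rw [← hB] at h2
    unfold NS
    omega
  refine h1.trans (Nat.add_le_add_right ?_ 1)
  rw [← Set.ncard_coe_finset]
  refine Set.ncard_le_ncard_of_injOn (fun m : ℤ => (⟨(DD m).natAbs, ψ m⟩ :
    Σ q : ℕ, DirichletCharacter ℂ q)) ?_ ?_ (fin_set X P)
  · intro m hm
    rw [Finset.mem_coe, hB, Finset.mem_erase, Finset.mem_filter, Finset.mem_Icc] at hm
    obtain ⟨h2, ⟨h3, h4⟩, h5, h6⟩ := hm
    obtain ⟨a1, a2, a3⟩ := hψ m h5
    have h7 := DD_ne h5.ne_zero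
    have h8 := DD_le (m := m)
    haveI : NeZero (DD m).natAbs := ⟨by omega⟩
    refine ⟨?_, ?_, qd_of a1 a2 fun h => h2 ((of_one a1 a3).1 h), hQ m h5 h2 h6 _ a1 a2 a3⟩
    · show 1 ≤ (DD m).natAbs
      omega
    · show (DD m).natAbs ≤ X
      omega
  · intro m hm m' hm' h
    rw [Finset.mem_coe, hB, Finset.mem_erase, Finset.mem_filter] at hm hm'
    have e1 := congrArg dsc h
    simp only at e1
    rw [dsc_spec (hψ m hm.2.2.1).2.2, dsc_spec (hψ m' hm'.2.2.1).2.2] at e1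
    exact DD_inj hm.2.2.1 hm'.2.2.1 e1

theorem NS_mono {P Q : ℤ → Prop} (h : ∀ m, Squarefree m → P m → Q m) (X : ℕ) : NS P X ≤ NS Q X := by
  unfold NS
  refine Finset.card_le_card fun m hm => ?_
  rw [Finset.mem_filter] at hm ⊢
  exact ⟨hm.1, hm.2.1, h m hm.2.1 hm.2.2⟩

/-- the positive proportion of the `m` -/
theorem pos_prop (T : Finset ℤ) (hT : ∀ t ∈ T, Squarefree t) {d₀ : ℤ} (hd : Squarefree d₀)
    (hR : ∀ t ∈ T, Rt (tw t d₀)) : ∃ (δ : ℝ) (X₀ : ℕ), 0 < δ ∧ ∀ X : ℕ, X₀ ≤ X →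
      δ * X ≤ (NS (fun m => ∀ t ∈ T, Sys (tw t m)) X : ℝ) := by
  obtain ⟨⟨c, X₁, hc, h1⟩, h2⟩ := Pool.Agent.H743.JL.fi T False ∅ d₀ hT (by simp) hd
  have h3 := h2 T (fun t ht => Finset.mem_filter.2 ⟨ht, hR t ht⟩)
  have hf : T.filter (fun t => Rt (tw t d₀)) = T := Finset.filter_true_of_mem hR
  rw [hf, Finset.sdiff_self, Finset.card_empty, pow_zero, mul_one] at h3
  have hc2 : (0 : ℝ) < c2 := by
    have := Pool.Agent.H743.X17.c2_bounds.1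
    linarith
  have hL : (0 : ℝ) < c2 ^ T.card := pow_pos hc2 _
  have h4 := h3.eventually (lt_mem_nhds (half_lt_self hL))
  obtain ⟨X₂, h5⟩ := eventually_atTop.1 h4
  refine ⟨c2 ^ T.card / 2 * c, max (max X₁ X₂) 1, by positivity, fun X hX => ?_⟩
  have a1 : X₁ ≤ X := (le_max_left _ _).trans ((le_max_left _ _).trans hX)
  have a2 : X₂ ≤ X := (le_max_right _ _).trans ((le_max_left _ _).trans hX)
  have a3 : 1 ≤ X := (le_max_right _ _).trans hX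
  have b1 := h1 X a1
  have b2 := h5 X a2
  have hX0 : (0 : ℝ) < X := by exact_mod_cast a3
  have b3 : (0 : ℝ) < (NS (Qc T False ∅ d₀) X : ℝ) := lt_of_lt_of_le (by positivity) b1
  rw [lt_div_iff₀ b3] at b2
  have b4 : (NS (fun d => Qc T False ∅ d₀ d ∧ ∀ t ∈ T, (Sys (tw t d) ↔ t ∈ T)) X : ℝ) ≤
      (NS (fun m => ∀ t ∈ T, Sys (tw t m)) X : ℝ) :=
    Nat.cast_le.2 (NS_mono (fun m _ hm t ht => (hm.2 t ht).2 ht) X)
  have b5 : c2 ^ T.card / 2 * (c * X) ≤ c2 ^ T.card / 2 * (NS (Qc T False ∅ d₀) X : ℝ) :=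
    mul_le_mul_of_nonneg_left b1 (by positivity)
  calc c2 ^ T.card / 2 * c * X = c2 ^ T.card / 2 * (c * X) := by ring
    _ ≤ _ := b5
    _ ≤ _ := b2.le
    _ ≤ _ := b4

/-- removing finitely many -/
theorem rem {Q R : ℤ → Prop} (F : Finset ℤ) (h : ∀ m, Squarefree m → Q m → m ∉ F → R m) (X : ℕ) :
    NS Q X ≤ NS R X + F.card := by
  unfold NS
  rw [← Nat.sub_le_iff_le_add]
  refine (Finset.le_card_sdiff F _).trans (Finset.card_le_card fun m hm => ?_)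
  rw [Finset.mem_sdiff, Finset.mem_filter] at hm
  rw [Finset.mem_filter]
  exact ⟨hm.1.1, hm.1.2.1, h m hm.1.2.1 hm.1.2.2 hm.2⟩

/-- **the positive proportion of the quadratic characters** -/
theorem prop_T (T : Finset ℤ) (hTs : ∀ t ∈ T, Squarefree t) {d₀ : ℤ} (hd : Squarefree d₀)
    (hTR : ∀ t ∈ T, Rt (tw t d₀)) (P : ∀ q : ℕ, DirichletCharacter ℂ q → Prop)
    (hP : ∀ m : ℤ, Squarefree m → m ≠ 1 → m ∉ T → (∀ t ∈ T, Sys (tw t m)) →
      ∀ ψ : DirichletCharacter ℂ (DD m).natAbs, ψ.IsPrimitive → ψ ^ 2 = 1 → Of ψ m → P _ ψ) :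
    ∃ (δ : ℝ) (X₀ : ℕ), 0 < δ ∧ ∀ X : ℕ, X₀ ≤ X → δ * X ≤ (Cnt P X : ℝ) := by
  obtain ⟨δ, X₀, hδ, h3⟩ := pos_prop T hTs hd hTR
  set Q : ℤ → Prop := fun m => (∀ t ∈ T, Sys (tw t m)) ∧ m ∉ T with hQd
  have hQ : ∀ m : ℤ, Squarefree m → m ≠ 1 → Q m → ∀ ψ : DirichletCharacter ℂ (DD m).natAbs,
      ψ.IsPrimitive → ψ ^ 2 = 1 → Of ψ m → P _ ψ :=
    fun m hm hm1 hQm ψ a1 a2 a3 => hP m hm hm1 hQm.2 hQm.1 ψ a1 a2 a3
  refine ⟨δ / 8, max (4 * X₀ + 4) (⌈(8 * ((T.card : ℝ) + 1 + δ)) / δ⌉₊), by positivity,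
    fun X hX => ?_⟩
  have g1 : 4 * X₀ + 4 ≤ X := (le_max_left _ _).trans hX
  have g2 : ⌈(8 * ((T.card : ℝ) + 1 + δ)) / δ⌉₊ ≤ X := (le_max_right _ _).trans hX
  have g3 : (8 * ((T.card : ℝ) + 1 + δ)) / δ ≤ X := (Nat.le_ceil _).trans (by exact_mod_cast g2)
  have g4 : X₀ ≤ X / 4 := by omega
  have g5 := h3 (X / 4) g4
  have g6 := le_Cnt (P := P) hQ (X := X) (Y := X / 4) (by omega)
  have g7 : NS (fun m => ∀ t ∈ T, Sys (tw t m)) (X / 4) ≤ NS Q (X / 4) + T.card :=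
    rem T (fun m _ h h' => ⟨h, h'⟩) (X / 4)
  have g8 : (X : ℝ) / 4 - 1 ≤ ((X / 4 : ℕ) : ℝ) := by
    have : X ≤ 4 * (X / 4) + 3 := by omega
    have h' : (X : ℝ) ≤ 4 * ((X / 4 : ℕ) : ℝ) + 3 := by exact_mod_cast this
    linarith
  have g9 : (NS (fun m => ∀ t ∈ T, Sys (tw t m)) (X / 4) : ℝ) ≤ (Cnt P X : ℝ) + 1 + T.card := by
    have : NS (fun m => ∀ t ∈ T, Sys (tw t m)) (X / 4) ≤ Cnt P X + 1 + T.card := by omega
    exact_mod_cast this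
  rw [div_le_iff₀ hδ] at g3
  have g10 : δ * ((X : ℝ) / 4 - 1) ≤ δ * ((X / 4 : ℕ) : ℝ) := mul_le_mul_of_nonneg_left g8 hδ.le
  nlinarith

theorem tw_one_iff {t m : ℤ} (ht : Squarefree t) (hm : Squarefree m) (h : tw t m = 1) : m = t := by
  have h4 := tw_sq (t := t) (m := m) ht.ne_zero
  rw [h, mul_one] at h4
  exact sqf_eq ht hm h4

theorem nv_congr {q q' : ℕ} [NeZero q] [NeZero q'] {ξ : DirichletCharacter ℂ q}
    {ξ' : DirichletCharacter ℂ q'} {m : ℤ} (h : Of ξ m) (h' : Of ξ' m) (hN : NV ξ) : NV ξ' := by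
  have e2 : q = q' := h.2.1.symm.trans h'.2.1
  subst e2
  have e3 : ξ = ξ' := dc_ext fun p hp => by
    have b1 := h.2.2 p hp
    have b2 := h'.2.2 p hp
    exact b1.trans b2.symm
  rw [← e3]
  exact hN

/-- any number of factors -/
theorem prop_chars {n : ℕ} {k : Fin n → ℕ} [∀ i, NeZero (k i)]
    (χ : ∀ i, DirichletCharacter ℂ (k i)) (hχ : ∀ i, (χ i).IsPrimitive ∧ (χ i) ^ 2 = 1)
    {e : ℕ} [NeZero e] (ψ₀ : DirichletCharacter ℂ e) (h1 : ψ₀.IsPrimitive) (h2 : ψ₀ ^ 2 = 1)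
    (hR : ∀ i, ∀ m : ℤ, Of ((χ i).primitive_mul ψ₀) m → Rt m) :
    ∃ (δ : ℝ) (X₀ : ℕ), 0 < δ ∧ ∀ X : ℕ, X₀ ≤ X →
      δ * X ≤ (Cnt (fun _ ψ => ∀ i, NV ((χ i).primitive_mul ψ)) X : ℝ) := by
  have hch : ∀ i, ∃ t : ℤ, Of (χ i) t := fun i => cls (hχ i).1 (hχ i).2
  choose t ht using hch
  obtain ⟨d₀, hd₀⟩ := cls h1 h2
  set T : Finset ℤ := Finset.univ.image t with hT
  have hTs : ∀ a ∈ T, Squarefree a := by
    intro a ha
    obtain ⟨i, -, rfl⟩ := Finset.mem_image.1 ha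
    exact (ht i).1
  have hTR : ∀ a ∈ T, Rt (tw a d₀) := by
    intro a ha
    obtain ⟨i, -, rfl⟩ := Finset.mem_image.1 ha
    exact hR i _ (pm_of (hχ i).2 h2 (ht i) hd₀)
  refine prop_T T hTs hd₀.1 hTR _ fun m hm hm1 hmT hS ψ a1 a2 a3 i => ?_
  haveI : NeZero (DD m).natAbs := ⟨fun h => DD_ne hm.ne_zero (Int.natAbs_eq_zero.1 h)⟩
  haveI : NeZero ((χ i).mul ψ).conductor := neCond
  have hi : t i ∈ T := Finset.mem_image_of_mem _ (Finset.mem_univ i)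
  refine nv_sys (pm_of (hχ i).2 a2 (ht i) a3) (fun h => hmT ?_) (hS _ hi)
  rw [tw_one_iff (ht i).1 hm h]
  exact hi

/-- two factors: the obstruction -/
theorem two_no {e k q : ℕ} [NeZero e] [NeZero k] [NeZero q] {η : DirichletCharacter ℂ e}
    {χ : DirichletCharacter ℂ k} {ψ : DirichletCharacter ℂ q} (hη : η ^ 2 = 1) (hχ : χ ^ 2 = 1)
    (hψ : ψ ^ 2 = 1) {s t m : ℤ} (h1 : Of η s) (h2 : Of χ t) (h3 : Of ψ m) (ht : t < 0)
    (h17 : jacobiSym t 17 = 1) : ¬ (NV (η.primitive_mul ψ) ∧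
      NV (η.primitive_mul (χ.primitive_mul ψ))) := by
  rintro ⟨h4, h5⟩
  haveI : NeZero (χ.mul ψ).conductor := neCond
  haveI : NeZero (η.mul ψ).conductor := neCond
  haveI : NeZero (η.mul (χ.primitive_mul ψ)).conductor := neCond
  have r1 := nv_rt (pm_of hη hψ h1 h3) h4
  have r2 := nv_rt (pm_of hη (pm_sq hχ hψ) h1 (pm_of hχ hψ h2 h3)) h5
  refine obst (tw_sqf h1.1 h3.1) (tw_sqf h1.1 (tw_sqf h2.1 h3.1)) ht h17 ?_ ⟨r1, r2⟩
  obtain ⟨g1, -, e1⟩ := tw_mul (t := s) (m := m) h1.1.ne_zero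
  obtain ⟨g2, hg2, e2⟩ := tw_mul (t := t) (m := m) h2.1.ne_zero
  obtain ⟨g3, hg3, e3⟩ := tw_mul (t := s) (m := tw t m) h1.1.ne_zero
  obtain ⟨g1, hg1, e1⟩ := tw_mul (t := s) (m := m) h1.1.ne_zero
  refine sq_cancel (k := g1 * g2 * g3) (mul_ne_zero (mul_ne_zero hg1 hg2) hg3)
    ⟨s * t * m, ?_⟩
  linear_combination (-(g2 ^ 2 * g3 ^ 2 * t * tw s (tw t m))) * e1 +
    (-(s * m * t * g2 ^ 2)) * e3 + (-(s ^ 2 * m * t)) * e2

/-- two factors: the positive proportion -/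
theorem two_yes {e k : ℕ} [NeZero e] [NeZero k] {η : DirichletCharacter ℂ e}
    {χ : DirichletCharacter ℂ k} (hη : η ^ 2 = 1) (hχ : χ ^ 2 = 1) {s t : ℤ} (h1 : Of η s)
    (h2 : Of χ t) (h : ¬ (t < 0 ∧ jacobiSym t 17 = 1)) :
    ∃ (δ : ℝ) (X₀ : ℕ), 0 < δ ∧ ∀ X : ℕ, X₀ ≤ X → δ * X ≤ (Cnt (fun _ ψ =>
      NV (η.primitive_mul ψ) ∧ NV (η.primitive_mul (χ.primitive_mul ψ))) X : ℝ) := by
  obtain ⟨d₁, hd, r1, r2⟩ := exists_rt h2.1 h
  have hst := tw_sqf h1.1 h2.1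
  have c1 : tw s (tw s d₁) = d₁ := by
    rw [tw_tw h1.1 h1.1 hd]
    have : tw s s = 1 := by
      refine (tw_of h1.1 h1.1 squarefree_one ⟨s, by ring⟩).symm
    rw [this]
    simp [tw]
  have c2' : tw (tw s t) (tw s d₁) = tw t d₁ := by
    have e1 : tw s t = tw t s := by
      unfold tw
      rw [mul_comm, Int.gcd_comm]
    rw [e1, ← tw_tw h2.1 h1.1 (tw_sqf h1.1 hd), c1]
  refine prop_T {s, tw s t} ?_ (tw_sqf h1.1 hd) ?_ _ ?_
  · intro a ha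
    rw [Finset.mem_insert, Finset.mem_singleton] at ha
    rcases ha with rfl | rfl
    · exact h1.1
    · exact hst
  · intro a ha
    rw [Finset.mem_insert, Finset.mem_singleton] at ha
    rcases ha with rfl | rfl
    · rw [c1]; exact r1
    · rw [c2']; exact r2
  · intro m hm hm1 hmT hS ψ a1 a2 a3
    haveI : NeZero (DD m).natAbs := ⟨fun h => DD_ne hm.ne_zero (Int.natAbs_eq_zero.1 h)⟩
    haveI : NeZero (χ.mul ψ).conductor := neCond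
    haveI : NeZero (η.mul ψ).conductor := neCond
    haveI : NeZero (η.mul (χ.primitive_mul ψ)).conductor := neCond
    rw [Finset.mem_insert, Finset.mem_singleton, not_or] at hmT
    refine ⟨nv_sys (pm_of hη a2 h1 a3) (fun h => hmT.1 (tw_one_iff h1.1 hm h)) (hS s (by simp)), ?_⟩
    have o2 := pm_of hη (pm_sq hχ a2) h1 (pm_of hχ a2 h2 a3)
    rw [tw_tw h1.1 h2.1 hm] at o2
    exact nv_sys o2 (fun h => hmT.2 (tw_one_iff hst hm h)) (hS (tw s t) (by simp))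

end Pool.Agent.H743.SN
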