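import Pool.Agent.H743.SN.Half

/-!
# SN: from the counts `NF` to the counts for real bounds
-/

set_option autoImplicit false
set_option linter.all false

open scoped Classical

namespace Pool.Agent.H743.SN

open Finset Filter Topology
open Pool.Agent.Y703.CQ (c2)
open Pool.Agent.H743.X17 (DD Sys Rt)
open Pool.Agent.N919.BS (NF core Fund)
open Pool.Agent.H743.JL

/-- the absolute value of the discriminant of `ℚ(√m)` -/
def dsn (m : ℤ) : ℕ := if m % 4 = 1 then m.natAbs else 4 * m.natAbs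

theorem dsn_eq (m : ℤ) : dsn m = (DD m).natAbs := by
  unfold dsn DD
  split_ifs
  · rfl
  · rw [Int.natAbs_mul]
    rfl

/-- the number of the quadratic fields -/
noncomputable def Nq (P : ℤ → Prop) (x : ℝ) : ℕ :=
  {m : ℤ | Squarefree m ∧ m ≠ 1 ∧ (dsn m : ℝ) < x ∧ P m}.ncard

theorem NF_card (P : ℤ → Prop) (X : ℕ) : NF P X =
    {D : ℤ | (-(X : ℤ) ≤ D ∧ D ≤ X) ∧ Pool.Agent.N919.BS.Fund D ∧ P (core D)}.ncard := by
  unfold NF
  rw [← Set.ncard_coe_finset]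
  congr 1
  ext D
  rw [mem_coe, mem_filter, mem_Icc]
  rfl

theorem fin_NF (P : ℤ → Prop) (X : ℕ) :
    {D : ℤ | (-(X : ℤ) ≤ D ∧ D ≤ X) ∧ Pool.Agent.N919.BS.Fund D ∧ P (core D)}.Finite :=
  (Set.finite_Icc (-(X : ℤ)) X).subset fun D hD => hD.1

theorem Nq_eq (P : ℤ → Prop) {x : ℝ} (hx : 0 < x) :
    Nq P x = NF (fun m => m ≠ 1 ∧ P m) (⌈x⌉₊ - 1) := by
  have hY : 0 < ⌈x⌉₊ := Nat.ceil_pos.2 hx
  rw [NF_card]
  unfold Nq
  refine Set.ncard_congr (fun m _ => DD m) ?_ ?_ ?_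
  · rintro m ⟨h1, h2, h3, h4⟩
    have h5 : dsn m < ⌈x⌉₊ := Nat.lt_ceil.2 h3
    rw [dsn_eq] at h5
    refine ⟨⟨by omega, by omega⟩, fund_DD h1, ?_⟩
    rw [core_DD h1]
    exact ⟨h2, h4⟩
  · rintro m m' ⟨h1, -⟩ ⟨h1', -⟩ h
    exact DD_inj h1 h1' h
  · rintro D ⟨⟨h1, h2⟩, h3, h4, h5⟩
    obtain ⟨h6, h7⟩ := core_spec h3
    refine ⟨core D, ⟨h6, h4, ?_, h5⟩, h7⟩
    rw [← Nat.lt_ceil, dsn_eq, h7]
    omega

theorem NF_close {P Q : ℤ → Prop} (F : Finset ℤ) (h : ∀ m, Squarefree m → m ∉ F → P m → Q m)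
    (X : ℕ) : NF P X ≤ NF Q X + F.card := by
  rw [NF_card, NF_card]
  have h1 : {D : ℤ | (-(X : ℤ) ≤ D ∧ D ≤ X) ∧ Pool.Agent.N919.BS.Fund D ∧ P (core D)} ⊆
      {D : ℤ | (-(X : ℤ) ≤ D ∧ D ≤ X) ∧ Pool.Agent.N919.BS.Fund D ∧ Q (core D)} ∪
        ((F.image DD : Finset ℤ) : Set ℤ) := by
    rintro D ⟨h2, h3, h4⟩
    obtain ⟨h6, h7⟩ := core_spec h3
    by_cases hF : core D ∈ F
    · refine Or.inr ?_
      rw [mem_coe, ← h7]
      exact mem_image_of_mem _ hF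
    · exact Or.inl ⟨h2, h3, h _ h6 hF h4⟩
  refine (Set.ncard_le_ncard h1 ((fin_NF Q X).union (finite_toSet _))).trans
    ((Set.ncard_union_le _ _).trans ?_)
  rw [Set.ncard_coe_finset]
  exact Nat.add_le_add_left card_image_le _

/-- bounded changes of the numerator and of the denominator -/
theorem tend_close {a b a' b' : ℕ → ℝ} {c δ K : ℝ} {X₀ : ℕ} (hδ : 0 < δ)
    (hb : ∀ X : ℕ, X₀ ≤ X → δ * X ≤ b X) (ha : ∀ X, |a X - a' X| ≤ K)
    (hb' : ∀ X, |b X - b' X| ≤ K) (h : Tendsto (fun X => a X / b X) atTop (𝓝 c)) :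
    Tendsto (fun X => a' X / b' X) atTop (𝓝 c) := by
  have hbt : Tendsto b atTop atTop := by
    refine tendsto_atTop_mono' atTop ?_ ((tendsto_natCast_atTop_atTop (R := ℝ)).const_mul_atTop hδ)
    filter_upwards [eventually_ge_atTop X₀] with X hX
    exact hb X hX
  have hK : Tendsto (fun X => K / b X) atTop (𝓝 0) := tendsto_const_nhds.div_atTop hbt
  have hpos : ∀ᶠ X in atTop, 0 < b X := hbt.eventually_gt_atTop 0
  have e1 : Tendsto (fun X => (a' X - a X) / b X) atTop (𝓝 0) := by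
    refine squeeze_zero_norm' ?_ hK
    filter_upwards [hpos] with X hX
    rw [Real.norm_eq_abs, abs_div, abs_of_pos hX, abs_sub_comm]
    exact div_le_div_of_nonneg_right (ha X) hX.le
  have e2 : Tendsto (fun X => (b' X - b X) / b X) atTop (𝓝 0) := by
    refine squeeze_zero_norm' ?_ hK
    filter_upwards [hpos] with X hX
    rw [Real.norm_eq_abs, abs_div, abs_of_pos hX, abs_sub_comm]
    exact div_le_div_of_nonneg_right (hb' X) hX.le
  have e3 : Tendsto (fun X => (a X / b X + (a' X - a X) / b X) / (1 + (b' X - b X) / b X)) atTop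
      (𝓝 ((c + 0) / (1 + 0))) :=
    (h.add e1).div (tendsto_const_nhds.add e2) (by norm_num)
  rw [add_zero, add_zero, div_one] at e3
  refine e3.congr' ?_
  filter_upwards [hpos] with X hX
  have e4 : a X / b X + (a' X - a X) / b X = a' X / b X := by
    rw [← add_div]
    congr 1
    ring
  have e5 : 1 + (b' X - b X) / b X = b' X / b X := by
    field_simp
    ring
  rw [e4, e5, div_div_div_cancel_right₀ hX.ne']

theorem abs_NF {P Q : ℤ → Prop} (F : Finset ℤ) (h : ∀ m, Squarefree m → m ∉ F → (P m ↔ Q m))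
    (X : ℕ) : |(NF P X : ℝ) - NF Q X| ≤ F.card := by
  have h1 : (NF P X : ℝ) ≤ NF Q X + F.card := by
    exact_mod_cast NF_close F (fun m hm hF => (h m hm hF).1) X
  have h2 : (NF Q X : ℝ) ≤ NF P X + F.card := by
    exact_mod_cast NF_close F (fun m hm hF => (h m hm hF).2) X
  exact abs_le.2 ⟨by linarith, by linarith⟩

/-- the limit for the real bounds, up to finitely many exceptions -/
theorem lim_Nq {P Q P' Q' : ℤ → Prop} {c δ : ℝ} {X₀ : ℕ} (hδ : 0 < δ)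
    (hb : ∀ X : ℕ, X₀ ≤ X → δ * X ≤ (NF Q X : ℝ)) (F : Finset ℤ)
    (hP : ∀ m, Squarefree m → m ∉ F → (P m ↔ P' m))
    (hQ : ∀ m, Squarefree m → m ∉ F → (Q m ↔ Q' m))
    (h : Tendsto (fun X : ℕ => (NF P X : ℝ) / (NF Q X : ℝ)) atTop (𝓝 c)) :
    Tendsto (fun x : ℝ => (Nq P' x : ℝ) / (Nq Q' x : ℝ)) atTop (𝓝 c) := by
  have h1 : Tendsto (fun X : ℕ => (NF (fun m => m ≠ 1 ∧ P' m) X : ℝ) /
      (NF (fun m => m ≠ 1 ∧ Q' m) X : ℝ)) atTop (𝓝 c) := by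
    refine tend_close (K := ((insert 1 F).card : ℝ)) hδ hb (fun X => abs_NF (insert 1 F) ?_ X)
      (fun X => abs_NF (insert 1 F) ?_ X) h
    · intro m hm hF
      rw [mem_insert, not_or] at hF
      rw [hP m hm hF.2]
      exact ⟨fun h => ⟨hF.1, h⟩, fun h => h.2⟩
    · intro m hm hF
      rw [mem_insert, not_or] at hF
      rw [hQ m hm hF.2]
      exact ⟨fun h => ⟨hF.1, h⟩, fun h => h.2⟩
  refine (h1.comp Pool.Agent.N855.GF.Ord.ceil_lim).congr' ?_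
  filter_upwards [eventually_gt_atTop 0] with x hx
  simp only [Function.comp_apply]
  rw [Nq_eq P' hx, Nq_eq Q' hx]

/-- the lower bound for the real bounds -/
theorem low_Nq {Q Q' : ℤ → Prop} {δ : ℝ} {X₀ : ℕ} (hδ : 0 < δ)
    (hb : ∀ X : ℕ, X₀ ≤ X → δ * X ≤ (NF Q X : ℝ)) (F : Finset ℤ)
    (hQ : ∀ m, Squarefree m → m ∉ F → (Q m ↔ Q' m)) :
    ∃ κ : ℝ, 0 < κ ∧ ∀ᶠ x : ℝ in atTop, κ * x ≤ (Nq Q' x : ℝ) := by
  refine ⟨δ / 4, by positivity, ?_⟩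
  have hF := tendsto_natCast_atTop_atTop (R := ℝ)
  filter_upwards [eventually_ge_atTop ((X₀ : ℝ) + 2), eventually_ge_atTop
    ((4 : ℝ) * (((insert 1 F).card : ℝ) + 1) / δ), eventually_ge_atTop (4 : ℝ)] with x h1 h2 h4
  have hx : 0 < x := by linarith
  rw [Nq_eq Q' hx]
  set X : ℕ := ⌈x⌉₊ - 1 with hX
  have h5 : x ≤ (X : ℝ) + 1 := by
    have h6 : x ≤ (⌈x⌉₊ : ℝ) := Nat.le_ceil x
    have h7 : 0 < ⌈x⌉₊ := Nat.ceil_pos.2 hx
    have h8 : ((X + 1 : ℕ) : ℝ) = (⌈x⌉₊ : ℝ) := by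
      congr 1
      omega
    push_cast at h8
    linarith
  have h6 : X₀ ≤ X := by
    have : (X₀ : ℝ) ≤ X := by linarith
    exact_mod_cast this
  have h7 := hb X h6
  have h8 := (abs_le.1 (abs_NF (P := Q) (Q := fun m => m ≠ 1 ∧ Q' m) (insert 1 F) (by
    intro m hm hF
    rw [mem_insert, not_or] at hF
    rw [hQ m hm hF.2]
    exact ⟨fun h => ⟨hF.1, h⟩, fun h => h.2⟩) X)).2
  rw [div_le_iff₀ hδ] at h2
  have h9 : δ * x ≤ δ * ((X : ℝ) + 1) := mul_le_mul_of_nonneg_left h5 hδ.le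
  have h10 : δ * 4 ≤ δ * x := mul_le_mul_of_nonneg_left h4 hδ.le
  nlinarith

theorem fin_Nq (x : ℝ) : {m : ℤ | Squarefree m ∧ m ≠ 1 ∧ (dsn m : ℝ) < x}.Finite := by
  refine Set.Finite.subset (Set.finite_Icc (-(⌈x⌉₊ : ℤ)) ⌈x⌉₊) ?_
  rintro m ⟨-, -, h⟩
  have h1 : dsn m < ⌈x⌉₊ := Nat.lt_ceil.2 h
  have h2 : m.natAbs ≤ dsn m := by
    unfold dsn
    split_ifs <;> omega
  rw [Set.mem_Icc]
  constructor <;> omega

theorem Nq_mono {P Q : ℤ → Prop} (h : ∀ m, Squarefree m → P m → Q m) (x : ℝ) : Nq P x ≤ Nq Q x := by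
  refine Set.ncard_le_ncard ?_ ((fin_Nq x).subset fun m hm => ⟨hm.1, hm.2.1, hm.2.2.1⟩)
  rintro m ⟨h1, h2, h3, h4⟩
  exact ⟨h1, h2, h3, h m h1 h4⟩

theorem liminf_Nq {P Q R : ℤ → Prop} {c : ℝ} (hPQ : ∀ m, Squarefree m → P m → Q m)
    (hQR : ∀ m, Squarefree m → Q m → R m)
    (h : Tendsto (fun x : ℝ => (Nq P x : ℝ) / (Nq R x : ℝ)) atTop (𝓝 c)) :
    c ≤ liminf (fun x : ℝ => (Nq Q x : ℝ) / (Nq R x : ℝ)) atTop := by
  rw [← h.liminf_eq]
  refine liminf_le_liminf (Eventually.of_forall fun x => ?_) ?_ ?_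
  · exact div_le_div_of_nonneg_right (Nat.cast_le.2 (Nq_mono hPQ x)) (Nat.cast_nonneg _)
  · exact h.isBoundedUnder_ge
  · refine IsBoundedUnder.isCoboundedUnder_ge ⟨1, ?_⟩
    rw [eventually_map]
    refine Eventually.of_forall fun x => ?_
    apply div_le_one_of_le₀
    · exact_mod_cast Nq_mono hQR x
    · positivity

theorem limsup_Nq {P Q R : ℤ → Prop} {c : ℝ} (hQP : ∀ m, Squarefree m → Q m → P m)
    (h : Tendsto (fun x : ℝ => (Nq P x : ℝ) / (Nq R x : ℝ)) atTop (𝓝 c)) :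
    limsup (fun x : ℝ => (Nq Q x : ℝ) / (Nq R x : ℝ)) atTop ≤ c := by
  rw [← h.limsup_eq]
  refine limsup_le_limsup (Eventually.of_forall fun x => ?_) ?_ ?_
  · exact div_le_div_of_nonneg_right (Nat.cast_le.2 (Nq_mono hQP x)) (Nat.cast_nonneg _)
  · refine IsBoundedUnder.isCoboundedUnder_le ⟨0, ?_⟩
    rw [eventually_map]
    exact Eventually.of_forall fun x => by positivity
  · exact h.isBoundedUnder_le

end Pool.Agent.H743.SN
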