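import Pool.Agent.H743.SN.Quant3

/-!
# SN: the joint law for all patterns, ordered by the discriminant
-/

set_option autoImplicit false
set_option linter.all false

open scoped Classical

namespace Pool.Agent.H743.SN

open Finset Filter Topology
open Pool.Agent.Y703.CQ (c2)
open Pool.Agent.N916.GB (eta)
open Pool.Agent.H743.X17 (Sys Rt)
open Pool.Agent.N855.GF.Lc17 (Lc Loc lc_Loc lc_and low_P close_NF)
open Pool.Agent.N919.BS (NN NF HG ratio core)
open Pool.Agent.H743.JL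
open Pool.Agent.H307.JLPT (HG_congr HG_sub)
open Pool.Agent.H181.JL (Loc_self)
open Pool.Agent.H225.JX

theorem NF_congr' {P Q : ℤ → Prop} (h : ∀ d, Squarefree d → (P d ↔ Q d)) (X : ℕ) :
    NF P X = NF Q X := by
  unfold NF
  congr 1
  apply filter_congr
  intro D _
  refine and_congr_right fun hD => ?_
  exact h _ (core_spec hD).1

/-- the joint law, ordered by the discriminant -/
def S_FI3 : Prop :=
  ∀ (T T' : Finset ℤ) (inf : Prop) (S : Finset ℕ) (d₀ : ℤ), (∀ t ∈ T, Squarefree t) →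
    (∀ t ∈ T', Squarefree t ∧ tw t d₀ < 0) → (∀ p ∈ S, p.Prime) → Squarefree d₀ →
    (∃ (c : ℝ) (X₀ : ℕ), 0 < c ∧ ∀ X : ℕ, X₀ ≤ X → c * X ≤ (NF (Qc2 T T' inf S d₀) X : ℝ)) ∧
    ∀ A ⊆ T.filter (fun t => Rt (tw t d₀)), ∀ A' ⊆ T',
      Tendsto (fun X : ℕ => (NF (fun d => Qc2 T T' inf S d₀ d ∧ (∀ t ∈ T, (Sys (tw t d) ↔ t ∈ A)) ∧
          ∀ t ∈ T', (H4 (tw t d) ↔ t ∈ A')) X : ℝ) /
        (NF (Qc2 T T' inf S d₀) X : ℝ)) atTop
        (𝓝 (c2 ^ A.card * (1 - c2) ^ (T.filter (fun t => Rt (tw t d₀)) \ A).card *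
          (eta ^ A'.card * (1 - eta) ^ (T' \ A').card)))

theorem t_FI3 (h : S_HJ2) (h1 : S_LR) (hp : Pool.Agent.H743.X17.S_PARITY) (h2 : S_TT) :
    S_FI3 := by
  intro T T' inf S d₀ hT hT' hS hd
  obtain ⟨m₀, h136, hm₀, hL⟩ := lc_Loc inf S hS d₀
  obtain ⟨m, hm⟩ : ∃ m : ℕ, m = m₀ * ((∏ t ∈ T, t.natAbs) * ∏ t ∈ T', t.natAbs) := ⟨_, rfl⟩
  have hmpos : 0 < m := by
    rw [hm]
    refine Nat.mul_pos hm₀ (Nat.mul_pos (prod_pos fun t ht => ?_) (prod_pos fun t ht => ?_))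
    · exact Int.natAbs_pos.2 (hT t ht).ne_zero
    · exact Int.natAbs_pos.2 (hT' t ht).1.ne_zero
  have hm1 : m₀ ∣ m := by
    rw [hm]
    exact Dvd.intro _ rfl
  have h136m : 136 ∣ m := h136.trans hm1
  have hnat : ∀ (F : Finset ℤ), ∀ t ∈ F, t ∣ ((∏ t ∈ F, t.natAbs : ℕ) : ℤ) := by
    intro F t ht
    have h3 : t ∣ ((t.natAbs : ℕ) : ℤ) := Int.dvd_natAbs.2 dvd_rfl
    have h4 : t.natAbs ∣ ∏ t ∈ F, t.natAbs := dvd_prod_of_mem _ ht
    exact h3.trans (by exact_mod_cast h4)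
  have hdvd : ∀ t ∈ T, 136 * t ∣ (m : ℤ) := by
    intro t ht
    have e : (m : ℤ) = (m₀ : ℤ) * (((∏ t ∈ T, t.natAbs : ℕ) : ℤ) *
        ((∏ t ∈ T', t.natAbs : ℕ) : ℤ)) := by
      rw [hm]
      norm_cast
    rw [e]
    refine mul_dvd_mul (by exact_mod_cast h136) ((hnat T t ht).trans (Dvd.intro _ rfl))
  have hdvd' : ∀ t ∈ T', t ∣ (m : ℤ) := by
    intro t ht
    have e : (m : ℤ) = (m₀ : ℤ) * (((∏ t ∈ T, t.natAbs : ℕ) : ℤ) *
        ((∏ t ∈ T', t.natAbs : ℕ) : ℤ)) := by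
      rw [hm]
      norm_cast
    rw [e]
    exact ((hnat T' t ht).trans (Dvd.intro_left _ rfl)).trans (Dvd.intro_left _ rfl)
  have hQ : Lc m (Qc2 T T' inf S d₀) := by
    intro s k M N hs hk hM hN e1 e2 e3
    unfold Qc2
    refine and_congr (and_congr ?_ ?_)
      (Pool.Agent.H181.JL.Lc.of_dvd hm1 hL s k M N hs hk hM hN e1 e2 e3)
    · refine forall_congr' fun t => forall_congr' fun ht => ?_
      exact iff_congr (h1 t m (hT t ht) (hdvd t ht) s k M N hs hk hM hN e1 e2 e3) Iff.rfl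
    · refine forall_congr' fun t => forall_congr' fun ht => ?_
      exact iff_congr (lc_sign (hT' t ht).1.ne_zero m s k M N hs hk hM hN e1 e2 e3) Iff.rfl
  have hQ0 : Qc2 T T' inf S d₀ d₀ :=
    ⟨⟨fun _ _ => Iff.rfl, fun _ _ => Iff.rfl⟩, Loc_self inf S hd⟩
  obtain ⟨c, X₀, hc, hlow⟩ := low_P (Dvd.dvd.trans (by norm_num) h136m) hmpos hQ hd hQ0
  refine ⟨⟨c, X₀, hc, fun X hX => (hlow X hX).1⟩, fun A hA A' hA' => ?_⟩
  obtain ⟨Tp, hTp⟩ : ∃ Tp : Finset ℤ, Tp = T.filter (fun t => Rt (tw t d₀)) := ⟨_, rfl⟩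
  rw [← hTp] at hA ⊢
  have hG := key2 h (Tp.disjSum T') m (Qc2 T T' inf S d₀) h136m hmpos (fun x hx => by
      rcases x with t | t
      · rw [Finset.inl_mem_disjSum, hTp, mem_filter] at hx
        exact ⟨hT t hx.1, (Dvd.intro_left _ rfl).trans (hdvd t hx.1)⟩
      · rw [Finset.inr_mem_disjSum] at hx
        exact ⟨(hT' t hx).1, hdvd' t hx⟩) hQ
    (fun d hd' hq x hx => by
      rcases x with t | t
      · rw [Finset.inl_mem_disjSum, hTp, mem_filter] at hx
        rw [Ro_inl]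
        exact (hq.1.1 t hx.1).2 hx.2
      · rw [Finset.inr_mem_disjSum] at hx
        rw [Ro_inr]
        exact (hq.1.2 t hx).2 (hT' t hx).2)
    ((Tp \ A).disjSum (T' \ A')) (Finset.disjSum_mono Finset.sdiff_subset Finset.sdiff_subset)
    (A.disjSum A') (Finset.disjSum_mono hA hA') (by
      rw [Finset.disjoint_left]
      intro x hx hx'
      rcases x with t | t
      · rw [Finset.inl_mem_disjSum] at hx hx'
        exact (Finset.mem_sdiff.1 hx').2 hx
      · rw [Finset.inr_mem_disjSum] at hx hx'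
        exact (Finset.mem_sdiff.1 hx').2 hx)
  have hval : (∏ x ∈ A.disjSum A', ck (kd x)) *
      ∏ x ∈ (Tp \ A).disjSum (T' \ A'), (1 - ck (kd x)) =
      c2 ^ A.card * (1 - c2) ^ (Tp \ A).card * (eta ^ A'.card * (1 - eta) ^ (T' \ A').card) := by
    rw [Finset.prod_disjSum, Finset.prod_disjSum]
    simp only [ck_inl, ck_inr, Finset.prod_const]
    ring
  rw [hval] at hG
  have hlim := ratio hc (fun X hX => (hlow X hX).1) (close_NF hG)
  have heq : ∀ X : ℕ, NF (fun d => Qc2 T T' inf S d₀ d ∧ (∀ t ∈ T, (Sys (tw t d) ↔ t ∈ A)) ∧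
        ∀ t ∈ T', (H4 (tw t d) ↔ t ∈ A')) X =
      NF (fun d => Qc2 T T' inf S d₀ d ∧
        Pt2 (A.disjSum A') ((Tp \ A).disjSum (T' \ A')) d) X := by
    intro X
    refine NF_congr' (fun d hsq => ?_) X
    refine and_congr_right fun hq => ?_
    constructor
    · rintro ⟨h3, h4⟩
      refine ⟨fun x hx => ?_, fun x hx => ?_⟩
      · rcases x with t | t
        · rw [Finset.inl_mem_disjSum] at hx
          rw [Kd_inl]
          have h5 := hA hx
          rw [hTp, mem_filter] at h5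
          exact (h3 t h5.1).2 hx
        · rw [Finset.inr_mem_disjSum] at hx
          rw [Kd_inr]
          exact (h4 t (hA' hx)).2 hx
      · rcases x with t | t
        · rw [Finset.inl_mem_disjSum, Finset.mem_sdiff, hTp, mem_filter] at hx
          rw [Kd_inl]
          exact fun h5 => hx.2 ((h3 t hx.1.1).1 h5)
        · rw [Finset.inr_mem_disjSum, Finset.mem_sdiff] at hx
          rw [Kd_inr]
          exact fun h5 => hx.2 ((h4 t hx.1).1 h5)
    · rintro ⟨h3, h4⟩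
      refine ⟨fun t ht => ?_, fun t ht => ?_⟩
      · by_cases hR : Rt (tw t d₀)
        · have htp : t ∈ Tp := by
            rw [hTp, mem_filter]
            exact ⟨ht, hR⟩
          constructor
          · intro h5
            by_contra h6
            have h7 := h4 (Sum.inl t) (Finset.inl_mem_disjSum.2 (Finset.mem_sdiff.2 ⟨htp, h6⟩))
            rw [Kd_inl] at h7
            exact h7 h5
          · intro h5
            have h7 := h3 (Sum.inl t) (Finset.inl_mem_disjSum.2 h5)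
            rw [Kd_inl] at h7
            exact h7
        · have h5 : ¬ Rt (tw t d) := fun h5 => hR ((hq.1.1 t ht).1 h5)
          have h6 : ¬ Sys (tw t d) := hp _ (Pool.Agent.N855.GF.Tw.tw_sqf (hT t ht) hsq) h5
          have h7 : t ∉ A := fun h7 => by
            have h8 := hA h7
            rw [hTp, mem_filter] at h8
            exact hR h8.2
          exact ⟨fun h8 => absurd h8 h6, fun h8 => absurd h8 h7⟩
      · constructor
        · intro h5
          by_contra h6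
          have h7 := h4 (Sum.inr t) (Finset.inr_mem_disjSum.2 (Finset.mem_sdiff.2 ⟨ht, h6⟩))
          rw [Kd_inr] at h7
          exact h7 h5
        · intro h5
          have h7 := h3 (Sum.inr t) (Finset.inr_mem_disjSum.2 h5)
          rw [Kd_inr] at h7
          exact h7
  simp only [heq]
  exact hlim


theorem fi3 : S_FI3 := t_FI3
  (Pool.Agent.H628.JX.HJ2.t_HJ2 (Pool.Agent.H743.JL.lv2 Pool.Agent.H348.JL.t_SE)
    Pool.Agent.H955.JL.TT.t_TT) Pool.Agent.H721.JLLR.t_LR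
  Pool.Agent.H743.X17.QPARITY.t_PARITY Pool.Agent.H955.JL.TT.t_TT

end Pool.Agent.H743.SN
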