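import Mathlib

/-!
# SN (helper743): primitive quadratic Dirichlet characters and fundamental discriminants
-/

set_option autoImplicit false
set_option linter.all false

open scoped Classical

namespace Pool.Agent.H743.SN

/-- the fundamental discriminants (with `1`) -/
def Fund (D : ℤ) : Prop := (Squarefree D ∧ D % 4 = 1) ∨
  ∃ m : ℤ, D = 4 * m ∧ Squarefree m ∧ (m % 4 = 2 ∨ m % 4 = 3)

/-- the Kronecker symbol `(D / p)` at a prime `p` -/
def kr (D : ℤ) (p : ℕ) : ℤ :=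
  if p = 2 then (if D % 2 = 0 then 0 else if D % 8 = 1 then 1 else -1) else jacobiSym D p

/-- (QC) **classification**: every primitive character `ψ` with `ψ² = 1` is a Kronecker symbol -/
def S_QC : Prop := ∀ (q : ℕ) [NeZero q] (ψ : DirichletCharacter ℂ q), ψ.IsPrimitive → ψ ^ 2 = 1 →
  ∃ D : ℤ, Fund D ∧ D.natAbs = q ∧ ∀ p : ℕ, p.Prime → ψ (p : ZMod q) = (kr D p : ℂ)

/-- (QE) existence -/
def S_QE : Prop := ∀ D : ℤ, Fund D → ∃ ψ : DirichletCharacter ℂ D.natAbs, ψ.IsPrimitive ∧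
  ψ ^ 2 = 1 ∧ ∀ p : ℕ, p.Prime → ψ (p : ZMod D.natAbs) = (kr D p : ℂ)

/-- (QM) multiplicativity of the discriminants modulo squares -/
def S_QM : Prop := ∀ D D₁ D' : ℤ, Fund D → Fund D₁ → Fund D' →
  (∃ M : ℕ, 0 < M ∧ ∀ p : ℕ, p.Prime → ¬ p ∣ M → kr D' p = kr D p * kr D₁ p) →
  IsSquare (D * D₁ * D')

end Pool.Agent.H743.SN
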