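import Mathlib
import Pool.Agent.H743.SN.Stm

/-!
Subtask SN-QC (helper743), proved by helper864: every primitive Dirichlet character with `ψ² = 1`
is a Kronecker symbol.
-/

set_option autoImplicit false
set_option maxHeartbeats 1000000
set_option linter.all false

open scoped NumberTheorySymbols

namespace Pool.Agent.H864.SNQC

open Pool.Agent.H743.SN

/-! ### the Kronecker symbol -/

theorem fund_odd {D : ℤ} (h : Fund D) (ho : D % 2 ≠ 0) : Squarefree D ∧ D % 4 = 1 := by
  rcases h with h | ⟨m, rfl, -, -⟩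
  · exact h
  · omega

theorem kr_mul {D₁ D₂ : ℤ} (h₁ : Fund D₁) (h₂ : Fund D₂) {p : ℕ} (hp : p.Prime) :
    kr (D₁ * D₂) p = kr D₁ p * kr D₂ p := by
  unfold kr
  by_cases h2 : p = 2
  · simp only [h2, if_true]
    by_cases e1 : D₁ % 2 = 0
    · rw [if_pos e1, if_pos (by rw [Int.mul_emod, e1]; simp), zero_mul]
    · by_cases e2 : D₂ % 2 = 0
      · rw [if_pos e2, if_pos (by rw [Int.mul_emod, e2]; simp), mul_zero]
      · have a1 := (fund_odd h₁ e1).2
        have a2 := (fund_odd h₂ e2).2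
        have b1 : D₁ % 8 = 1 ∨ D₁ % 8 = 5 := by omega
        have b2 : D₂ % 8 = 1 ∨ D₂ % 8 = 5 := by omega
        have c : (D₁ * D₂) % 8 = ((D₁ % 8) * (D₂ % 8)) % 8 := Int.mul_emod _ _ _
        rw [if_neg e1, if_neg e2]
        rcases b1 with b1 | b1 <;> rcases b2 with b2 | b2 <;> rw [b1, b2] at c <;>
          norm_num at c <;> rw [if_neg (by omega), b1, b2, c] <;> norm_num
  · rw [if_neg h2, if_neg h2, if_neg h2]
    exact jacobiSym.mul_left _ _ _

theorem fund_mul {D₁ D₂ : ℤ} (h₁ : Fund D₁) (h₂ : Fund D₂)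
    (hc : D₁.natAbs.Coprime D₂.natAbs) : Fund (D₁ * D₂) := by
  have hrel : IsCoprime D₁ D₂ := Int.isCoprime_iff_gcd_eq_one.2 hc
  rcases h₁ with ⟨s1, c1⟩ | ⟨m1, rfl, s1, c1⟩ <;> rcases h₂ with ⟨s2, c2⟩ | ⟨m2, rfl, s2, c2⟩
  · left
    refine ⟨squarefree_mul_iff.2 ⟨hrel.isRelPrime, s1, s2⟩, ?_⟩
    rw [Int.mul_emod, c1, c2]; norm_num
  · right
    refine ⟨D₁ * m2, by ring, squarefree_mul_iff.2 ⟨?_, s1, s2⟩, ?_⟩
    · exact (IsCoprime.of_mul_right_right hrel).isRelPrime
    · rw [Int.mul_emod, c1]; rcases c2 with c2 | c2 <;> rw [c2] <;> norm_num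
  · right
    refine ⟨m1 * D₂, by ring, squarefree_mul_iff.2 ⟨?_, s1, s2⟩, ?_⟩
    · exact (IsCoprime.of_mul_left_right hrel).isRelPrime
    · rw [Int.mul_emod, c2]; rcases c1 with c1 | c1 <;> rw [c1] <;> norm_num
  · exfalso
    have h2 : (2 : ℤ) ∣ 1 := by
      obtain ⟨a, b, hab⟩ := hrel
      exact ⟨a * (2 * m1) + b * (2 * m2), by rw [← hab]; ring⟩
    norm_num at h2

/-! ### the property -/

/-- the classification at level `q` -/
def P (q : ℕ) : Prop := q ≠ 0 → ∀ (ψ : DirichletCharacter ℂ q), ψ.IsPrimitive → ψ ^ 2 = 1 →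
  ∃ D : ℤ, Fund D ∧ D.natAbs = q ∧ ∀ p : ℕ, p.Prime → ψ (p : ZMod q) = (kr D p : ℂ)

theorem sq_eq {q : ℕ} {ψ : DirichletCharacter ℂ q} (h : ψ ^ 2 = 1) (u : (ZMod q)ˣ) :
    ψ (u : ZMod q) = 1 ∨ ψ (u : ZMod q) = -1 := by
  have h1 : (ψ ^ 2) (u : ZMod q) = 1 := by rw [h]; exact MulChar.one_apply_coe u
  rw [MulChar.pow_apply_coe] at h1
  rw [pow_two] at h1
  exact mul_self_eq_one_iff.1 h1

theorem level_le {q d : ℕ} [NeZero q] (hd : d ∣ q) {ψ : DirichletCharacter ℂ q} (hψ : ψ.IsPrimitive)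
    (h : ∀ u : (ZMod q)ˣ, ZMod.unitsMap hd u = 1 → ψ (u : ZMod q) = 1) : q ≤ d := by
  have hf : ψ.FactorsThrough d := by
    rw [DirichletCharacter.factorsThrough_iff_ker_unitsMap hd]
    intro u hu
    rw [MonoidHom.mem_ker] at hu ⊢
    apply Units.ext
    rw [MulChar.coe_toUnitHom]
    exact h u hu
  have h1 : ψ.conductor ≤ d := Nat.sInf_le hf
  rwa [(DirichletCharacter.isPrimitive_def ψ).1 hψ] at h1

theorem ne_one' {q : ℕ} [NeZero q] {ψ : DirichletCharacter ℂ q} (hψ : ψ.IsPrimitive) (hq : 1 < q) :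
    ψ ≠ 1 := by
  intro h
  rw [DirichletCharacter.eq_one_iff_conductor_eq_one] at h
  rw [(DirichletCharacter.isPrimitive_def ψ).1 hψ] at h
  omega

theorem val_unitsMap {q d : ℕ} [NeZero q] (hd : d ∣ q) {u : (ZMod q)ˣ}
    (h : ZMod.unitsMap hd u = 1) : (d : ℤ) ∣ ((u : ZMod q).val : ℤ) - 1 := by
  have h1 : ((ZMod.unitsMap hd u : (ZMod d)ˣ) : ZMod d) = 1 := by rw [h]; rfl
  rw [ZMod.unitsMap_val] at h1
  have h2 : ((((u : ZMod q).val : ℤ) - 1 : ℤ) : ZMod d) = 0 := by
    push_cast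
    rw [sub_eq_zero, ← h1, ZMod.natCast_val]
  exact (ZMod.intCast_zmod_eq_zero_iff_dvd _ _).1 h2

/-! ### odd prime powers -/

theorem quad_val (p : ℕ) [hp : Fact p.Prime] (h2 : p ≠ 2) (ψ : DirichletCharacter ℂ p)
    (hne : ψ ≠ 1) (hsq : ψ ^ 2 = 1) (a : ZMod p) : ψ a = ((quadraticChar (ZMod p) a : ℤ) : ℂ) := by
  have hch : ringChar (ZMod p) ≠ 2 := by rw [ZMod.ringChar_zmod_n]; exact h2
  by_cases ha : a = 0
  · rw [ha, MulChar.map_zero, MulChar.map_zero]; simp
  have hsqv : ∀ x : ZMod p, x ≠ 0 → IsSquare x → ψ x = 1 := by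
    rintro x hx ⟨y, rfl⟩
    have hy : y ≠ 0 := by rintro rfl; simp at hx
    have h3 := sq_eq hsq (Units.mk0 y hy)
    rw [Units.val_mk0] at h3
    rw [map_mul]
    rcases h3 with h3 | h3 <;> rw [h3] <;> norm_num
  by_cases hs : IsSquare a
  · rw [hsqv a ha hs, (quadraticChar_one_iff_isSquare ha).2 hs]; simp
  · rw [quadraticChar_neg_one_iff_not_isSquare.2 hs]
    obtain ⟨z, hz⟩ := MulChar.ne_one_iff.1 hne
    have hz1 : ψ (z : ZMod p) = -1 := (sq_eq hsq z).resolve_left hz
    have hzs : ¬ IsSquare (z : ZMod p) := fun h => hz (hsqv _ z.ne_zero h)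
    have haz : IsSquare (a * z) := by
      rw [← quadraticChar_one_iff_isSquare (mul_ne_zero ha z.ne_zero), map_mul,
        quadraticChar_neg_one_iff_not_isSquare.2 hs, quadraticChar_neg_one_iff_not_isSquare.2 hzs]
      norm_num
    have h4 := hsqv _ (mul_ne_zero ha z.ne_zero) haz
    rw [map_mul, hz1] at h4
    push_cast
    linear_combination -h4

theorem prime_case (p : ℕ) [hp : Fact p.Prime] (h2 : p ≠ 2) : P p := by
  intro _ ψ hψ hsq
  have hne := ne_one' hψ hp.out.one_lt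
  have hodd : Odd p := hp.out.odd_of_ne_two h2
  have hval : ∀ l : ℕ, ψ (l : ZMod p) = (J((l : ℤ) | p) : ℂ) := by
    intro l
    rw [quad_val p h2 ψ hne hsq, ← jacobiSym.legendreSym.to_jacobiSym, legendreSym]
    push_cast
    rfl
  have hm : p % 4 = 1 ∨ p % 4 = 3 := by
    obtain ⟨k, hk⟩ := hodd
    omega
  have hsqf : Squarefree (p : ℤ) := (Nat.prime_iff_prime_int.1 hp.out).squarefree
  rcases hm with hm | hm
  · refine ⟨p, Or.inl ⟨hsqf, by omega⟩, by simp, fun l hl => ?_⟩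
    rw [hval]
    congr 1
    unfold kr
    by_cases hl2 : l = 2
    · subst hl2
      rw [if_pos rfl, if_neg (by omega)]
      have h3 : J(((2 : ℕ) : ℤ) | p) = ZMod.χ₈ p := jacobiSym.at_two hodd
      rw [h3, ZMod.χ₈_nat_eq_if_mod_eight]
      have h5 : p % 8 = 1 ∨ p % 8 = 5 := by omega
      rcases h5 with h5 | h5
      · rw [if_neg (by omega), if_pos (by omega), if_pos (by omega)]
      · rw [if_neg (by omega), if_neg (by omega), if_neg (by omega)]
    · rw [if_neg hl2]
      exact (jacobiSym.quadratic_reciprocity_one_mod_four hm (hl.odd_of_ne_two hl2)).symm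
  · have hsqf' : Squarefree (-(p : ℤ)) :=
      Int.squarefree_natAbs.1 (by rw [Int.natAbs_neg]; exact Int.squarefree_natAbs.2 hsqf)
    refine ⟨-p, Or.inl ⟨hsqf', by omega⟩, by simp, fun l hl => ?_⟩
    rw [hval]
    congr 1
    unfold kr
    by_cases hl2 : l = 2
    · subst hl2
      rw [if_pos rfl, if_neg (by omega)]
      have h3 : J(((2 : ℕ) : ℤ) | p) = ZMod.χ₈ p := jacobiSym.at_two hodd
      rw [h3, ZMod.χ₈_nat_eq_if_mod_eight]
      have h5 : p % 8 = 3 ∨ p % 8 = 7 := by omega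
      rcases h5 with h5 | h5
      · rw [if_neg (by omega), if_neg (by omega), if_neg (by omega)]
      · rw [if_neg (by omega), if_pos (by omega), if_pos (by omega)]
    · rw [if_neg hl2]
      have hlo := hl.odd_of_ne_two hl2
      rw [jacobiSym.neg _ hlo]
      have hlm : l % 4 = 1 ∨ l % 4 = 3 := by
        obtain ⟨k, hk⟩ := hlo
        omega
      rcases hlm with hlm | hlm
      · rw [ZMod.χ₄_nat_one_mod_four hlm, one_mul]
        exact (jacobiSym.quadratic_reciprocity_one_mod_four' hodd hlm).symm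
      · rw [ZMod.χ₄_nat_three_mod_four hlm]
        rw [jacobiSym.quadratic_reciprocity_three_mod_four hm hlm]
        ring

theorem odd_pp (p : ℕ) (hp : p.Prime) (h2 : p ≠ 2) (n : ℕ) (hn : 0 < n) : P (p ^ n) := by
  haveI : Fact p.Prime := ⟨hp⟩
  by_cases h1 : n = 1
  · subst h1; rw [pow_one]; exact prime_case p h2
  intro h0 ψ hψ hsq
  exfalso
  haveI : NeZero (p ^ n) := ⟨h0⟩
  have hd : p ∣ p ^ n := dvd_pow_self p hn.ne'
  have hle := level_le hd hψ (fun u hu => by
    have h3 := val_unitsMap hd hu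
    have h4 : (p : ℤ) ∣ ((u : ZMod (p ^ n)).val : ℤ) - 1 := h3
    have h5 := dvd_sub_pow_of_dvd_sub h4 (n - 1)
    rw [one_pow, Nat.sub_add_cancel hn] at h5
    have h6 : (u : ZMod (p ^ n)) ^ p ^ (n - 1) = 1 := by
      have h7 : (((((u : ZMod (p ^ n)).val : ℤ)) ^ p ^ (n - 1) - 1 : ℤ) : ZMod (p ^ n)) = 0 :=
        (ZMod.intCast_zmod_eq_zero_iff_dvd _ _).2 (by exact_mod_cast h5)
      push_cast at h7
      rw [ZMod.natCast_zmod_val, sub_eq_zero] at h7
      exact h7
    have h8 : ψ (u : ZMod (p ^ n)) ^ p ^ (n - 1) = 1 := by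
      rw [← map_pow, h6, map_one]
    rcases sq_eq hsq u with h9 | h9
    · exact h9
    · exfalso
      rw [h9, ((hp.odd_of_ne_two h2).pow).neg_one_pow] at h8
      norm_num at h8)
  have h3 : p ^ 1 < p ^ n := Nat.pow_lt_pow_right hp.one_lt (by omega)
  rw [pow_one] at h3
  omega

/-! ### powers of two -/

theorem two_one : P 2 := by
  intro _ ψ hψ hsq
  exfalso
  have hle := level_le (one_dvd 2) hψ (fun u _ => by
    have h : u = 1 := Subsingleton.elim _ _
    rw [h, Units.val_one, map_one])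
  omega

theorem two_two : P 4 := by
  intro _ ψ hψ hsq
  have hu3 : IsUnit (3 : ZMod 4) := by decide
  obtain ⟨u3, hu3⟩ := hu3
  have h3 : ψ 3 = -1 := by
    have h := sq_eq hsq u3
    rw [hu3] at h
    refine h.resolve_left fun h1 => ?_
    have hle := level_le (one_dvd 4) hψ (fun u _ => by
      have hc : ∀ v : (ZMod 4)ˣ, (v : ZMod 4) = 1 ∨ (v : ZMod 4) = 3 := by decide
      rcases hc u with hc | hc
      · rw [hc, map_one]
      · rw [hc, h1])
    omega
  have h0 : ψ 0 = 0 := ψ.map_nonunit (by decide)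
  have h2 : ψ 2 = 0 := ψ.map_nonunit (by decide)
  refine ⟨-4, Or.inr ⟨-1, by norm_num, ?_, by norm_num⟩, by norm_num, fun l hl => ?_⟩
  · exact (IsUnit.neg isUnit_one).squarefree
  · by_cases hl2 : l = 2
    · subst hl2
      have : ((2 : ℕ) : ZMod 4) = 2 := rfl
      rw [this, h2]
      simp [kr]
    · have hlo := hl.odd_of_ne_two hl2
      unfold kr
      rw [if_neg hl2]
      have e : (-4 : ℤ) = (-1) * 4 := by norm_num
      rw [e, jacobiSym.mul_left, jacobiSym.at_neg_one hlo, jacobiSym.at_four hlo, mul_one]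
      have hlm : l % 4 = 1 ∨ l % 4 = 3 := by
        obtain ⟨k, hk⟩ := hlo
        omega
      have hc : (l : ZMod 4) = ((l % 4 : ℕ) : ZMod 4) := by rw [ZMod.natCast_mod]
      rcases hlm with hlm | hlm
      · rw [ZMod.χ₄_nat_one_mod_four hlm, hc, hlm]; simp
      · rw [ZMod.χ₄_nat_three_mod_four hlm, hc, hlm]
        push_cast
        exact h3

theorem two_three : P 8 := by
  intro _ ψ hψ hsq
  have hu3 : IsUnit (3 : ZMod 8) := by decide
  have hu5 : IsUnit (5 : ZMod 8) := by decide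
  obtain ⟨u3, hu3⟩ := hu3
  obtain ⟨u5, hu5⟩ := hu5
  have h5 : ψ 5 = -1 := by
    have h := sq_eq hsq u5
    rw [hu5] at h
    refine h.resolve_left fun h1 => ?_
    have h48 : 4 ∣ 8 := by norm_num
    have hle := level_le h48 hψ (fun u hu => by
      have hc : ∀ x : ZMod 8, (4 : ℤ) ∣ (x.val : ℤ) - 1 → x = 1 ∨ x = 5 := by
        decide
      rcases hc u (val_unitsMap h48 hu) with hc | hc
      · rw [hc, map_one]
      · rw [hc, h1])
    omega
  have h3 := sq_eq hsq u3
  rw [hu3] at h3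
  have h7 : ψ 7 = ψ 3 * ψ 5 := by rw [← map_mul]; rfl
  have h2 : ψ 2 = 0 := ψ.map_nonunit (by decide)
  have hodd : ∀ l : ℕ, Odd l → l % 8 = 1 ∨ l % 8 = 3 ∨ l % 8 = 5 ∨ l % 8 = 7 := by
    rintro l ⟨k, hk⟩
    omega
  have hc : ∀ l : ℕ, (l : ZMod 8) = ((l % 8 : ℕ) : ZMod 8) := fun l => by rw [ZMod.natCast_mod]
  rcases h3 with h3 | h3
  · refine ⟨-8, Or.inr ⟨-2, by norm_num, ?_, by norm_num⟩, by norm_num, fun l hl => ?_⟩
    · exact Int.squarefree_natAbs.1 (Nat.prime_two.prime.squarefree)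
    · by_cases hl2 : l = 2
      · subst hl2
        have : ((2 : ℕ) : ZMod 8) = 2 := rfl
        rw [this, h2]
        simp [kr]
      · have hlo := hl.odd_of_ne_two hl2
        unfold kr
        rw [if_neg hl2]
        have e : (-8 : ℤ) = (-2) * 4 := by norm_num
        rw [e, jacobiSym.mul_left, jacobiSym.at_neg_two hlo, jacobiSym.at_four hlo, mul_one,
          ZMod.χ₈'_nat_eq_if_mod_eight, hc l]
        rcases hodd l hlo with h | h | h | h
        · rw [if_neg (by omega), if_pos (by omega), h]; simp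
        · rw [if_neg (by omega), if_pos (by omega), h]; push_cast; exact h3
        · rw [if_neg (by omega), if_neg (by omega), h]; push_cast; exact h5
        · rw [if_neg (by omega), if_neg (by omega), h]; push_cast; rw [h7, h3, h5]; norm_num
  · refine ⟨8, Or.inr ⟨2, by norm_num, ?_, by norm_num⟩, by norm_num, fun l hl => ?_⟩
    · exact Int.squarefree_natAbs.1 (Nat.prime_two.prime.squarefree)
    · by_cases hl2 : l = 2
      · subst hl2
        have : ((2 : ℕ) : ZMod 8) = 2 := rfl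
        rw [this, h2]
        simp [kr]
      · have hlo := hl.odd_of_ne_two hl2
        unfold kr
        rw [if_neg hl2]
        have e : (8 : ℤ) = 2 * 4 := by norm_num
        rw [e, jacobiSym.mul_left, jacobiSym.at_two hlo, jacobiSym.at_four hlo, mul_one,
          ZMod.χ₈_nat_eq_if_mod_eight, hc l]
        rcases hodd l hlo with h | h | h | h
        · rw [if_neg (by omega), if_pos (by omega), h]; simp
        · rw [if_neg (by omega), if_neg (by omega), h]; push_cast; exact h3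
        · rw [if_neg (by omega), if_neg (by omega), h]; push_cast; exact h5
        · rw [if_neg (by omega), if_pos (by omega), h]; push_cast; rw [h7, h3, h5]; norm_num

theorem two_pp (n : ℕ) (hn : 0 < n) : P (2 ^ n) := by
  have hcases : n = 1 ∨ n = 2 ∨ n = 3 ∨ 4 ≤ n := by omega
  rcases hcases with rfl | rfl | rfl | h4
  · exact two_one
  · exact two_two
  · exact two_three
  intro h0 ψ hψ hsq
  exfalso
  haveI : NeZero (2 ^ n) := ⟨h0⟩
  have hd : 2 ^ (n - 1) ∣ 2 ^ n := pow_dvd_pow 2 (by omega)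
  have hle := level_le hd hψ (fun u hu => by
    obtain ⟨t, ht⟩ := val_unitsMap hd hu
    have hu1 : (u : ZMod (2 ^ n)) = (((1 + 2 ^ (n - 2) * t : ℤ) : ZMod (2 ^ n))) ^ 2 := by
      have h5 : (u : ZMod (2 ^ n)) = ((((u : ZMod (2 ^ n)).val : ℤ) : ZMod (2 ^ n))) := by
        rw [Int.cast_natCast, ZMod.natCast_zmod_val]
      rw [h5, ← Int.cast_pow, ← sub_eq_zero, ← Int.cast_sub, ZMod.intCast_zmod_eq_zero_iff_dvd]
      have h6 : ((u : ZMod (2 ^ n)).val : ℤ) = 1 + 2 ^ (n - 1) * t := by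
        push_cast at ht
        linarith
      rw [h6]
      have h7 : (2 : ℤ) ^ (n - 1) = 2 * 2 ^ (n - 2) := by
        rw [← pow_succ']; congr 1; omega
      refine ⟨-(2 ^ (n - 4) * t ^ 2), ?_⟩
      push_cast
      have h8 : (2 : ℤ) ^ (n - 2) * 2 ^ (n - 2) = 2 ^ n * 2 ^ (n - 4) := by
        rw [← pow_add, ← pow_add]; congr 1; omega
      rw [h7]
      linear_combination (-(t ^ 2)) * h8
    have hv : IsUnit (((1 + 2 ^ (n - 2) * t : ℤ) : ZMod (2 ^ n))) := by
      have h5 := u.isUnit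
      rw [hu1, pow_two] at h5
      exact isUnit_of_mul_isUnit_left h5
    obtain ⟨v, hv⟩ := hv
    rw [hu1, ← hv, map_pow]
    rcases sq_eq hsq v with h5 | h5 <;> rw [h5] <;> norm_num)
  have h3 : 2 ^ (n - 1) < 2 ^ n := Nat.pow_lt_pow_right (by norm_num) (by omega)
  omega

/-! ### coprime levels -/

/-- the first component of a character at a product of coprime levels -/
noncomputable def left {a b : ℕ} (h : a.Coprime b) (ψ : DirichletCharacter ℂ (a * b)) :
    DirichletCharacter ℂ a :=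
  MulChar.ofUnitHom (ψ.toUnitHom.comp ((Units.mapEquiv (ZMod.chineseRemainder h).symm.toMulEquiv
    |>.toMonoidHom).comp (MulEquiv.prodUnits.symm.toMonoidHom.comp (MonoidHom.inl _ _))))

/-- the second component -/
noncomputable def right {a b : ℕ} (h : a.Coprime b) (ψ : DirichletCharacter ℂ (a * b)) :
    DirichletCharacter ℂ b :=
  MulChar.ofUnitHom (ψ.toUnitHom.comp ((Units.mapEquiv (ZMod.chineseRemainder h).symm.toMulEquiv
    |>.toMonoidHom).comp (MulEquiv.prodUnits.symm.toMonoidHom.comp (MonoidHom.inr _ _))))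

theorem left_apply {a b : ℕ} (h : a.Coprime b) (ψ : DirichletCharacter ℂ (a * b)) (u : (ZMod a)ˣ) :
    left h ψ (u : ZMod a) = ψ ((ZMod.chineseRemainder h).symm ((u : ZMod a), 1)) := by
  simp only [left, MulChar.ofUnitHom_coe, MonoidHom.comp_apply, MulChar.coe_toUnitHom]
  rfl

theorem right_apply {a b : ℕ} (h : a.Coprime b) (ψ : DirichletCharacter ℂ (a * b)) (u : (ZMod b)ˣ) :
    right h ψ (u : ZMod b) = ψ ((ZMod.chineseRemainder h).symm (1, (u : ZMod b))) := by
  simp only [right, MulChar.ofUnitHom_coe, MonoidHom.comp_apply, MulChar.coe_toUnitHom]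
  rfl

theorem decomp {a b : ℕ} (h : a.Coprime b) (ψ : DirichletCharacter ℂ (a * b)) :
    ψ = DirichletCharacter.changeLevel (Nat.dvd_mul_right a b) (left h ψ) *
      DirichletCharacter.changeLevel (Nat.dvd_mul_left b a) (right h ψ) := by
  apply MulChar.ext
  intro u
  rw [MulChar.coeToFun_mul, Pi.mul_apply, DirichletCharacter.changeLevel_def,
    DirichletCharacter.changeLevel_def, MulChar.ofUnitHom_coe, MulChar.ofUnitHom_coe,
    MonoidHom.comp_apply, MonoidHom.comp_apply, MulChar.coe_toUnitHom, MulChar.coe_toUnitHom,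
    left_apply, right_apply, ← map_mul, ← map_mul, Prod.mk_mul_mk, one_mul, mul_one]
  congr 1
  rw [RingEquiv.eq_symm_apply]
  rw [ZMod.unitsMap_val, ZMod.unitsMap_val]
  exact Prod.ext (Prod.fst_zmod_cast _) (Prod.snd_zmod_cast _)

theorem sq_left {a b : ℕ} (h : a.Coprime b) {ψ : DirichletCharacter ℂ (a * b)} (h2 : ψ ^ 2 = 1) :
    (left h ψ) ^ 2 = 1 := by
  apply MulChar.ext
  intro u
  rw [MulChar.pow_apply_coe, left_apply, MulChar.one_apply_coe]
  have hu : IsUnit ((ZMod.chineseRemainder h).symm ((u : ZMod a), 1)) := by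
    apply IsUnit.map
    exact Prod.isUnit_iff.2 ⟨u.isUnit, isUnit_one⟩
  obtain ⟨v, hv⟩ := hu
  rw [← hv]
  rcases sq_eq h2 v with h3 | h3 <;> rw [h3] <;> norm_num

theorem sq_right {a b : ℕ} (h : a.Coprime b) {ψ : DirichletCharacter ℂ (a * b)} (h2 : ψ ^ 2 = 1) :
    (right h ψ) ^ 2 = 1 := by
  apply MulChar.ext
  intro u
  rw [MulChar.pow_apply_coe, right_apply, MulChar.one_apply_coe]
  have hu : IsUnit ((ZMod.chineseRemainder h).symm (1, (u : ZMod b))) := by
    apply IsUnit.map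
    exact Prod.isUnit_iff.2 ⟨isUnit_one, u.isUnit⟩
  obtain ⟨v, hv⟩ := hu
  rw [← hv]
  rcases sq_eq h2 v with h3 | h3 <;> rw [h3] <;> norm_num

theorem mul_case (a b : ℕ) (h : a.Coprime b) (ha : P a) (hb : P b) : P (a * b) := by
  intro h0 ψ hψ hsq
  have ha0 : a ≠ 0 := fun e => h0 (by rw [e, zero_mul])
  have hb0 : b ≠ 0 := fun e => h0 (by rw [e, mul_zero])
  haveI : NeZero a := ⟨ha0⟩
  haveI : NeZero b := ⟨hb0⟩
  haveI : NeZero (a * b) := ⟨h0⟩
  have hd := decomp h ψ
  have hcond : a * b ∣ (left h ψ).conductor * (right h ψ).conductor := by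
    have h1 := DirichletCharacter.conductor_mul_dvd_lcm_conductor
      (DirichletCharacter.changeLevel (Nat.dvd_mul_right a b) (left h ψ))
      (DirichletCharacter.changeLevel (Nat.dvd_mul_left b a) (right h ψ))
    rw [← hd, (DirichletCharacter.isPrimitive_def ψ).1 hψ,
      DirichletCharacter.conductor_changeLevel, DirichletCharacter.conductor_changeLevel] at h1
    exact h1.trans (Nat.lcm_dvd_mul _ _)
  have hca := DirichletCharacter.conductor_dvd_level (left h ψ)
  have hcb := DirichletCharacter.conductor_dvd_level (right h ψ)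
  have hA : (left h ψ).IsPrimitive := by
    rw [DirichletCharacter.isPrimitive_def]
    refine Nat.dvd_antisymm hca ?_
    have h3 : a * b ∣ (left h ψ).conductor * b := hcond.trans (Nat.mul_dvd_mul_left _ hcb)
    exact Nat.dvd_of_mul_dvd_mul_right (Nat.pos_of_ne_zero hb0) h3
  have hB : (right h ψ).IsPrimitive := by
    rw [DirichletCharacter.isPrimitive_def]
    refine Nat.dvd_antisymm hcb ?_
    have h3 : a * b ∣ a * (right h ψ).conductor := hcond.trans (Nat.mul_dvd_mul_right hca _)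
    exact Nat.dvd_of_mul_dvd_mul_left (Nat.pos_of_ne_zero ha0) h3
  obtain ⟨D₁, f1, n1, v1⟩ := ha ha0 _ hA (sq_left h hsq)
  obtain ⟨D₂, f2, n2, v2⟩ := hb hb0 _ hB (sq_right h hsq)
  refine ⟨D₁ * D₂, fund_mul f1 f2 (by rw [n1, n2]; exact h), by rw [Int.natAbs_mul, n1, n2],
    fun p hp => ?_⟩
  rw [kr_mul f1 f2 hp]
  push_cast
  rw [← v1 p hp, ← v2 p hp]
  by_cases hu : p.Coprime (a * b)
  · have e1 : ψ (p : ZMod (a * b)) = (DirichletCharacter.changeLevel (Nat.dvd_mul_right a b)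
        (left h ψ) * DirichletCharacter.changeLevel (Nat.dvd_mul_left b a) (right h ψ))
        (p : ZMod (a * b)) := congrArg (fun χ : DirichletCharacter ℂ (a * b) =>
          χ (p : ZMod (a * b))) hd
    have hi : IsCoprime (p : ℤ) ((a * b : ℕ) : ℤ) := Nat.isCoprime_iff_coprime.2 hu
    have g1 := DirichletCharacter.changeLevel_eq_cast_of_dvd' (left h ψ) (Nat.dvd_mul_right a b) hi
    have g2 := DirichletCharacter.changeLevel_eq_cast_of_dvd' (right h ψ) (Nat.dvd_mul_left b a) hi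
    rw [Int.cast_natCast, Int.cast_natCast] at g1 g2
    rw [e1, MulChar.coeToFun_mul, Pi.mul_apply, g1, g2]
  · have e1 : ψ (p : ZMod (a * b)) = 0 :=
      ψ.map_nonunit (fun hh => hu ((ZMod.isUnit_iff_coprime _ _).1 hh))
    rw [e1]
    rw [Nat.coprime_mul_iff_right, not_and_or] at hu
    rcases hu with hu | hu
    · rw [(left h ψ).map_nonunit (fun hh => hu ((ZMod.isUnit_iff_coprime _ _).1 hh)), zero_mul]
    · rw [(right h ψ).map_nonunit (fun hh => hu ((ZMod.isUnit_iff_coprime _ _).1 hh)), mul_zero]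

theorem one_case : P 1 := by
  intro _ ψ _ _
  refine ⟨1, Or.inl ⟨squarefree_one, by norm_num⟩, by norm_num, fun p hp => ?_⟩
  have h1 : (p : ZMod 1) = 1 := Subsingleton.elim _ _
  rw [h1, map_one]
  unfold kr
  by_cases h2 : p = 2
  · simp [h2]
  · rw [if_neg h2, jacobiSym.one_left]; simp

theorem all_cases (q : ℕ) : P q := by
  induction q using Nat.recOnPosPrimePosCoprime with
  | prime_pow p n hp hn =>
    by_cases h2 : p = 2
    · subst h2; exact two_pp n hn
    · exact odd_pp p hp h2 n hn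
  | zero => exact fun h => absurd rfl h
  | one => exact one_case
  | coprime a b _ _ hc ha hb => exact mul_case a b hc ha hb

theorem t_QC : S_QC := by
  intro q _ ψ hψ hsq
  exact all_cases q (NeZero.ne q) ψ hψ hsq

end Pool.Agent.H864.SNQC

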