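import Pool.Agent.H743.SN.Stm

/-!
# SN (helper743): existence of the primitive quadratic character of a fundamental discriminant
-/

set_option autoImplicit false

namespace Pool.Agent.H828.SN.QE

open Pool.Agent.H743.SN

/-- primitivity criterion -/
theorem prim_of {N : ℕ} [NeZero N] (χ : DirichletCharacter ℂ N)
    (h : ∀ p : ℕ, p.Prime → p ∣ N → ∃ m : ℕ, m % (N / p) = 1 % (N / p) ∧
      χ (m : ZMod N) ≠ 0 ∧ χ (m : ZMod N) ≠ 1) : χ.IsPrimitive := by
  unfold DirichletCharacter.IsPrimitive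
  by_contra hne
  obtain ⟨k, hk⟩ : χ.conductor ∣ N := DirichletCharacter.conductor_dvd_level _
  have hk1 : k ≠ 1 := by
    rintro rfl
    apply hne
    rw [mul_one] at hk
    exact hk.symm
  obtain ⟨p, hp, hpk⟩ := Nat.exists_prime_and_dvd hk1
  have hpN : p ∣ N := by rw [hk]; exact hpk.mul_left _
  obtain ⟨n, hn1, hn2, hn3⟩ := h p hp hpN
  have hcd2 : χ.conductor ∣ N / p := by
    obtain ⟨j, hj⟩ := hpk
    refine ⟨j, ?_⟩
    have e : N = χ.conductor * j * p := by
      conv_lhs => rw [hk]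
      rw [hj]; ring
    exact Nat.div_eq_of_eq_mul_left hp.pos e
  obtain ⟨hdvd, χ₀, hχ₀⟩ := χ.factorsThrough_conductor
  have hunit : IsUnit (n : ZMod N) := by
    by_contra hu
    exact hn2 (χ.map_nonunit hu)
  have h1 : χ (n : ZMod N) = χ₀ ((n : ZMod N).cast : ZMod χ.conductor) := by
    obtain ⟨u, hu⟩ := hunit
    rw [← hu]
    conv_lhs => rw [hχ₀]
    exact DirichletCharacter.changeLevel_eq_cast_of_dvd χ₀ hdvd u
  have h2 : ((n : ZMod N).cast : ZMod χ.conductor) = 1 := by
    rw [ZMod.cast_natCast hdvd]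
    have h3 : n ≡ 1 [MOD χ.conductor] := Nat.ModEq.of_dvd hcd2 hn1
    have := (ZMod.natCast_eq_natCast_iff n 1 χ.conductor).2 h3
    rw [this]; simp
  rw [h2, map_one] at h1
  exact hn3 h1

section char

variable (e k : ℕ) (c : MulChar (ZMod e) ℤ)

/-- The values. -/
noncomputable def f (u : ℤ) : ℤ := c (u : ZMod e) * jacobiSym u k

theorem f_mul (u v : ℤ) : f e k c (u * v) = f e k c u * f e k c v := by
  unfold f
  rw [Int.cast_mul, map_mul, jacobiSym.mul_left]
  ring

theorem f_one : f e k c 1 = 1 := by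
  unfold f
  rw [Int.cast_one, map_one, jacobiSym.one_left, one_mul]

theorem f_mod {u v : ℤ} (h : ((e * k : ℕ) : ℤ) ∣ u - v) : f e k c u = f e k c v := by
  unfold f
  have he : (e : ℤ) ∣ u - v := (Dvd.intro _ (by push_cast; rfl)).trans h
  have hk : (k : ℤ) ∣ u - v := (Dvd.intro_left _ (by push_cast; rfl)).trans h
  have h1 : (u : ZMod e) = (v : ZMod e) := ((ZMod.intCast_eq_intCast_iff_dvd_sub v u e).2 he).symm
  have h2 : jacobiSym u k = jacobiSym v k := by
    rw [jacobiSym.mod_left, jacobiSym.mod_left v]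
    congr 1
    exact Int.emod_eq_emod_iff_emod_sub_eq_zero.2 (Int.emod_eq_zero_of_dvd hk)
  rw [h1, h2]

theorem f_zero [NeZero k] {u : ℕ} (h : ¬ Nat.Coprime u (e * k)) : f e k c u = 0 := by
  unfold f
  rw [Nat.coprime_mul_iff_right, not_and_or] at h
  rcases h with h | h
  · have h1 : c (((u : ℤ) : ZMod e)) = 0 := by
      apply c.map_nonunit
      rw [Int.cast_natCast, ZMod.isUnit_iff_coprime]
      exact h
    rw [h1, zero_mul]
  · have h1 : jacobiSym (u : ℤ) k = 0 := by
      rw [jacobiSym.eq_zero_iff_not_coprime, Int.gcd_natCast_natCast]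
      exact h
    rw [h1, mul_zero]

theorem f_pm (hc : c.IsQuadratic) {u : ℕ} (h : Nat.Coprime u (e * k)) :
    f e k c u = 1 ∨ f e k c u = -1 := by
  rw [Nat.coprime_mul_iff_right] at h
  have h1 := jacobiSym.eq_one_or_neg_one (a := (u : ℤ)) (b := k) (by
    rw [Int.gcd_natCast_natCast]; exact h.2)
  have hu : IsUnit (((u : ℤ) : ZMod e)) := by
    rw [Int.cast_natCast, ZMod.isUnit_iff_coprime]
    exact h.1
  have h0 : c (((u : ℤ) : ZMod e)) ≠ 0 := by
    have := hu.map c
    exact this.ne_zero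
  have h2 : c (((u : ℤ) : ZMod e)) = 1 ∨ c (((u : ℤ) : ZMod e)) = -1 := by
    rcases hc (((u : ℤ) : ZMod e)) with h3 | h3 | h3
    · exact absurd h3 h0
    · exact Or.inl h3
    · exact Or.inr h3
  unfold f
  rcases h1 with h1 | h1 <;> rcases h2 with h2 | h2 <;> rw [h1, h2] <;> simp

/-- the character -/
noncomputable def chi [NeZero e] [NeZero k] : DirichletCharacter ℂ (e * k) where
  toFun a := ((f e k c (a.val : ℤ) : ℤ) : ℂ)
  map_one' := by
    have h1 : (1 : ZMod (e * k)).val = 1 % (e * k) := ZMod.val_one_eq_one_mod (e * k)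
    have h2 : f e k c ((1 % (e * k) : ℕ) : ℤ) = f e k c 1 := by
      refine f_mod e k c ?_
      push_cast
      exact Int.ModEq.dvd (Int.mod_modEq _ _).symm
    rw [h1, h2, f_one]
    norm_num
  map_mul' a b := by
    rw [← Int.cast_mul, ← f_mul]
    congr 1
    refine f_mod e k c ?_
    rw [ZMod.val_mul]
    push_cast
    exact Int.ModEq.dvd (Int.mod_modEq _ _).symm
  map_nonunit' a ha := by
    have h1 : ¬ Nat.Coprime a.val (e * k) := by
      intro h2
      apply ha
      have := (ZMod.isUnit_iff_coprime a.val (e * k)).2 h2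
      rwa [ZMod.natCast_zmod_val] at this
    rw [f_zero e k c h1]
    norm_num

theorem chi_nat [NeZero e] [NeZero k] (m : ℕ) :
    chi e k c (m : ZMod (e * k)) = ((f e k c m : ℤ) : ℂ) := by
  change ((f e k c (((m : ZMod (e * k)).val : ℕ) : ℤ) : ℤ) : ℂ) = _
  rw [ZMod.val_natCast]
  congr 1
  refine f_mod e k c ?_
  push_cast
  exact Int.ModEq.dvd (Int.mod_modEq _ _).symm

theorem chi_sq [NeZero e] [NeZero k] (hc : c.IsQuadratic) : (chi e k c) ^ 2 = 1 := by
  ext a
  rw [MulChar.one_apply_coe, MulChar.pow_apply_coe]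
  have h : ((a : ZMod (e * k)).val : ZMod (e * k)) = a := ZMod.natCast_zmod_val _
  rw [← h, chi_nat]
  have hco : Nat.Coprime (a : ZMod (e * k)).val (e * k) := ZMod.val_coe_unit_coprime a
  rcases f_pm e k c hc hco with h1 | h1
  · rw [h1]; norm_num
  · rw [h1]; norm_num

theorem chi_prim [NeZero e] [NeZero k] (hk : Squarefree k) (hko : k % 2 = 1)
    (hcop : Nat.Coprime e k)
    (hcp : ∀ r : ℕ, r.Prime → r ∣ e → ∃ a : ℕ, a ≡ 1 [MOD e / r] ∧ c ((a : ℕ) : ZMod e) = -1) :
    (chi e k c).IsPrimitive := by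
  refine prim_of _ fun r hr hrN => ?_
  suffices hs : ∃ a : ℕ, a ≡ 1 [MOD e * k / r] ∧ f e k c a = -1 by
    obtain ⟨a, ha1, ha2⟩ := hs
    refine ⟨a, ha1, ?_, ?_⟩ <;> rw [chi_nat, ha2] <;> norm_num
  by_cases hre : r ∣ e
  · obtain ⟨a, ha1, ha2⟩ := hcp r hr hre
    obtain ⟨a', h1, h2⟩ := Nat.chineseRemainder hcop a 1
    refine ⟨a', ?_, ?_⟩
    · have e1 : e * k / r = (e / r) * k := by
        rw [mul_comm, Nat.mul_div_assoc _ hre, mul_comm]
      rw [e1]
      have hco : Nat.Coprime (e / r) k := hcop.coprime_dvd_left (Nat.div_dvd_of_dvd hre)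
      rw [← Nat.modEq_and_modEq_iff_modEq_mul hco]
      exact ⟨(Nat.ModEq.of_dvd (Nat.div_dvd_of_dvd hre) h1).trans ha1, h2⟩
    · unfold f
      have h3 : (((a' : ℕ) : ℤ) : ZMod e) = ((a : ℕ) : ZMod e) := by
        rw [Int.cast_natCast]
        exact (ZMod.natCast_eq_natCast_iff _ _ _).2 h1
      have h4 : jacobiSym ((a' : ℕ) : ℤ) k = 1 := by
        rw [jacobiSym.mod_left]
        have h5 : ((a' : ℤ) % k) = ((1 : ℤ) % k) := by exact_mod_cast h2
        rw [h5, ← jacobiSym.mod_left, jacobiSym.one_left]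
      rw [h3, ha2, h4]
      norm_num
  · have hrk : r ∣ k := ((Nat.Prime.dvd_mul hr).1 hrN).resolve_left hre
    obtain ⟨k', hk'⟩ := hrk
    have hk0 : k ≠ 0 := NeZero.ne k
    have hk'0 : k' ≠ 0 := by rintro rfl; exact hk0 (by rw [hk', mul_zero])
    have hr2 : r ≠ 2 := by rintro rfl; omega
    have hcop1 : Nat.Coprime r k' := by
      rw [hk'] at hk
      exact Nat.coprime_of_squarefree_mul hk
    have hcop2 : Nat.Coprime (e * k') r := by
      apply Nat.Coprime.mul_left
      · exact ((Nat.Prime.coprime_iff_not_dvd hr).2 hre).symm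
      · exact hcop1.symm
    have : Fact r.Prime := ⟨hr⟩
    obtain ⟨g, hg⟩ : ∃ g : ℕ, jacobiSym (g : ℤ) r = -1 := by
      have hchar : ringChar (ZMod r) ≠ 2 := by
        rw [ZMod.ringChar_zmod_n]; exact hr2
      obtain ⟨a, ha⟩ := quadraticChar_exists_neg_one hchar
      refine ⟨a.val, ?_⟩
      rw [← jacobiSym.legendreSym.to_jacobiSym, legendreSym]
      simpa using ha
    obtain ⟨a, ha1, ha2⟩ := Nat.chineseRemainder hcop2 1 g
    have e0 : e * k / r = e * k' := by
      rw [hk']
      have : e * (r * k') = r * (e * k') := by ring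
      rw [this, Nat.mul_div_cancel_left _ hr.pos]
    refine ⟨a, by rw [e0]; exact ha1, ?_⟩
    unfold f
    have h3 : (((a : ℕ) : ℤ) : ZMod e) = 1 := by
      rw [Int.cast_natCast]
      have h5 : a ≡ 1 [MOD e] := Nat.ModEq.of_dvd (Dvd.intro _ rfl) ha1
      have := (ZMod.natCast_eq_natCast_iff a 1 e).2 h5
      rw [this, Nat.cast_one]
    have h4 : jacobiSym ((a : ℕ) : ℤ) k' = 1 := by
      rw [jacobiSym.mod_left]
      have h2 : a ≡ 1 [MOD k'] := Nat.ModEq.of_dvd (Dvd.intro_left _ rfl) ha1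
      have h5 : ((a : ℤ) % k') = ((1 : ℤ) % k') := by exact_mod_cast h2
      rw [h5, ← jacobiSym.mod_left, jacobiSym.one_left]
    have h6 : jacobiSym ((a : ℕ) : ℤ) r = -1 := by
      rw [jacobiSym.mod_left]
      have h5 : ((a : ℤ) % r) = ((g : ℤ) % r) := by exact_mod_cast ha2
      rw [h5, ← jacobiSym.mod_left, hg]
    have : NeZero r := ⟨hr.ne_zero⟩
    have : NeZero k' := ⟨hk'0⟩
    rw [h3, map_one, hk', jacobiSym.mul_right, h4, h6]
    norm_num

end char

/-- Reciprocity. -/
theorem recip (m : ℤ) (hm : m % 2 = 1) (p : ℕ) (hp : Odd p) :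
    jacobiSym m p = (if m % 4 = 1 then 1 else ZMod.χ₄ (p : ZMod 4)) * jacobiSym (p : ℤ) m.natAbs := by
  have hpo := Nat.odd_iff.1 hp
  have r1 : ∀ k : ℕ, k % 4 = 1 → jacobiSym (k : ℤ) p = jacobiSym (p : ℤ) k := fun k hk =>
    jacobiSym.quadratic_reciprocity_one_mod_four hk hp
  have r3 : ∀ k : ℕ, k % 4 = 3 → jacobiSym (k : ℤ) p = ZMod.χ₄ p * jacobiSym (p : ℤ) k := by
    intro k h
    have hko : Odd k := Nat.odd_iff.2 (by omega)
    rcases (by omega : p % 4 = 1 ∨ p % 4 = 3) with h5 | h5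
    · rw [ZMod.χ₄_nat_one_mod_four h5, one_mul]
      exact (jacobiSym.quadratic_reciprocity_one_mod_four h5 hko).symm
    · rw [ZMod.χ₄_nat_three_mod_four h5]
      rw [jacobiSym.quadratic_reciprocity_three_mod_four h5 h]
      ring
  have hs : ZMod.χ₄ (p : ZMod 4) * ZMod.χ₄ (p : ZMod 4) = 1 := by
    rcases (by omega : p % 4 = 1 ∨ p % 4 = 3) with h5 | h5
    · rw [ZMod.χ₄_nat_one_mod_four h5]; norm_num
    · rw [ZMod.χ₄_nat_three_mod_four h5]; norm_num
  obtain ⟨k, hk⟩ : ∃ k : ℕ, m.natAbs = k := ⟨_, rfl⟩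
  rw [hk]
  rcases Int.natAbs_eq m with h | h
  · rw [hk] at h
    rw [h]
    split_ifs with h4
    · rw [one_mul]; exact r1 k (by omega)
    · exact r3 k (by omega)
  · rw [hk] at h
    rw [h, jacobiSym.neg _ hp]
    split_ifs with h4
    · rw [r3 k (by omega), ← mul_assoc, hs]
    · rw [r1 k (by omega)]

theorem t_QE : S_QE := by
  intro D hD
  rcases hD with ⟨hsq, h4⟩ | ⟨m, hDm, hsq, h4⟩
  · -- odd
    have hsq' : Squarefree D.natAbs := Int.squarefree_natAbs.2 hsq
    have hko : D.natAbs % 2 = 1 := by omega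
    have hne : NeZero D.natAbs := ⟨by omega⟩
    obtain ⟨k, hk⟩ : ∃ k : ℕ, D.natAbs = k := ⟨_, rfl⟩
    have hN : D.natAbs = 1 * k := by rw [hk, one_mul]
    rw [hk] at hsq' hko hne
    rw [hN]
    have hq1 : (1 : MulChar (ZMod 1) ℤ).IsQuadratic := fun a => Or.inr (Or.inl
      (MulChar.one_apply (isUnit_of_subsingleton a)))
    refine ⟨chi 1 k 1, ?_, chi_sq 1 k 1 hq1, fun p hp => ?_⟩
    · refine chi_prim 1 k 1 hsq' hko (Nat.coprime_one_left k) fun r hr h1 => ?_
      exact absurd (Nat.dvd_one.1 h1) hr.one_lt.ne'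
    · rw [chi_nat]
      congr 1
      unfold f
      rw [MulChar.one_apply (isUnit_of_subsingleton _), one_mul]
      unfold kr
      split_ifs with h2 h3 h5
      · omega
      · rw [h2]
        have hko' : Odd k := Nat.odd_iff.2 hko
        have h6 : k % 8 = 1 ∨ k % 8 = 7 := by omega
        rw [Nat.cast_ofNat, jacobiSym.at_two hko']
        rw [ZMod.χ₈_nat_eq_if_mod_eight, if_neg (by omega), if_pos h6]
      · rw [h2]
        have hko' : Odd k := Nat.odd_iff.2 hko
        rw [Nat.cast_ofNat, jacobiSym.at_two hko']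
        rw [ZMod.χ₈_nat_eq_if_mod_eight, if_neg (by omega), if_neg (by omega)]
      · have hpo : Odd p := hp.odd_of_ne_two h2
        rw [recip D (by omega) p hpo, if_pos h4, one_mul, hk]
  · rcases h4 with h4 | h4
    · -- `m` even
      obtain ⟨m', hm'⟩ : ∃ m' : ℤ, m = 2 * m' := ⟨m / 2, by omega⟩
      have hmo : m' % 2 = 1 := by omega
      have hsq1 : Squarefree m' := hsq.squarefree_of_dvd (Dvd.intro_left _ hm'.symm)
      have hsq' : Squarefree m'.natAbs := Int.squarefree_natAbs.2 hsq1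
      obtain ⟨k, hk⟩ : ∃ k : ℕ, m'.natAbs = k := ⟨_, rfl⟩
      have hne : NeZero k := ⟨by omega⟩
      rw [hk] at hsq'
      have hko : k % 2 = 1 := by omega
      have hN : D.natAbs = 8 * k := by omega
      have hcop : Nat.Coprime 8 k := by
        have h1 : Nat.Coprime 2 k := (Nat.coprime_two_left).2 (Nat.odd_iff.2 hko)
        exact Nat.Coprime.pow_left 3 h1
      rw [hN]
      have key : ∀ c : MulChar (ZMod 8) ℤ, c.IsQuadratic → c (5 : ZMod 8) = -1 →
          (∀ p : ℕ, Odd p → c (p : ZMod 8) * (if m' % 4 = 1 then 1 else ZMod.χ₄ (p : ZMod 4)) =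
            ZMod.χ₈ (p : ZMod 8)) → c (2 : ZMod 8) = 0 →
          ∃ ψ : DirichletCharacter ℂ (8 * k), ψ.IsPrimitive ∧ ψ ^ 2 = 1 ∧
            ∀ p : ℕ, p.Prime → ψ (p : ZMod (8 * k)) = (kr D p : ℂ) := by
        intro c hc h5 hp8 h20
        refine ⟨chi 8 k c, ?_, chi_sq 8 k c hc, fun p hp => ?_⟩
        · refine chi_prim 8 k c hsq' hko hcop fun r hr h1 => ?_
          have hr2 : r = 2 := by
            have h2 : r ∣ 2 ^ 3 := h1
            exact (Nat.prime_dvd_prime_iff_eq hr Nat.prime_two).1 (hr.dvd_of_dvd_pow h2)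
          subst hr2
          exact ⟨5, by decide, by exact_mod_cast h5⟩
        · rw [chi_nat]
          congr 1
          unfold f kr
          split_ifs with h2 h3 h6
          · rw [h2]
            have : (((2 : ℕ) : ℤ) : ZMod 8) = 2 := by norm_num
            rw [this, h20, zero_mul]
          · omega
          · omega
          · have hpo : Odd p := hp.odd_of_ne_two h2
            have hpo' := Nat.odd_iff.1 hpo
            have e1 : D = 2 * (2 * 2) * m' := by rw [hDm, hm']; ring
            have e2 : jacobiSym (2 * 2 : ℤ) p = 1 := by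
              rw [jacobiSym.mul_left, jacobiSym.at_two hpo]
              rw [ZMod.χ₈_nat_eq_if_mod_eight, if_neg (by omega)]
              split_ifs <;> norm_num
            rw [e1, jacobiSym.mul_left, jacobiSym.mul_left, e2, mul_one, jacobiSym.at_two hpo,
              recip m' hmo p hpo, hk, Int.cast_natCast, ← mul_assoc, ← hp8 p hpo]
            congr 1
            split_ifs
            · ring
            · have hs : ZMod.χ₄ (p : ZMod 4) * ZMod.χ₄ (p : ZMod 4) = 1 := by
                rcases (by omega : p % 4 = 1 ∨ p % 4 = 3) with h5 | h5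
                · rw [ZMod.χ₄_nat_one_mod_four h5]; norm_num
                · rw [ZMod.χ₄_nat_three_mod_four h5]; norm_num
              rw [mul_assoc, hs, mul_one]
      by_cases hm4 : m' % 4 = 1
      · refine key ZMod.χ₈ ZMod.isQuadratic_χ₈ (by decide) (fun p hp => ?_) (by decide)
        rw [if_pos hm4, mul_one]
      · refine key ZMod.χ₈' ZMod.isQuadratic_χ₈' (by decide) (fun p hp => ?_) (by decide)
        rw [if_neg hm4]
        have hpo' := Nat.odd_iff.1 hp
        have e8 := ZMod.χ₈_nat_eq_if_mod_eight p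
        have e8' := ZMod.χ₈'_nat_eq_if_mod_eight p
        rw [if_neg (by omega : ¬ p % 2 = 0)] at e8 e8'
        rcases (by omega : p % 8 = 1 ∨ p % 8 = 3 ∨ p % 8 = 5 ∨ p % 8 = 7) with h | h | h | h
        · rw [if_pos (by omega)] at e8 e8'
          rw [e8, e8', ZMod.χ₄_nat_one_mod_four (by omega)]; norm_num
        · rw [if_neg (by omega)] at e8
          rw [if_pos (by omega)] at e8'
          rw [e8, e8', ZMod.χ₄_nat_three_mod_four (by omega)]; norm_num
        · rw [if_neg (by omega)] at e8 e8'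
          rw [e8, e8', ZMod.χ₄_nat_one_mod_four (by omega)]; norm_num
        · rw [if_pos (by omega)] at e8
          rw [if_neg (by omega)] at e8'
          rw [e8, e8', ZMod.χ₄_nat_three_mod_four (by omega)]; norm_num
    · -- `m = 3 mod 4`
      have hsq' : Squarefree m.natAbs := Int.squarefree_natAbs.2 hsq
      obtain ⟨k, hk⟩ : ∃ k : ℕ, m.natAbs = k := ⟨_, rfl⟩
      have hne : NeZero k := ⟨by omega⟩
      rw [hk] at hsq'
      have hko : k % 2 = 1 := by omega
      have hN : D.natAbs = 4 * k := by omega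
      have hcop : Nat.Coprime 4 k := by
        have h1 : Nat.Coprime 2 k := (Nat.coprime_two_left).2 (Nat.odd_iff.2 hko)
        exact Nat.Coprime.pow_left 2 h1
      rw [hN]
      refine ⟨chi 4 k ZMod.χ₄, ?_, chi_sq 4 k _ ZMod.isQuadratic_χ₄, fun p hp => ?_⟩
      · refine chi_prim 4 k _ hsq' hko hcop fun r hr h1 => ?_
        have hr2 : r = 2 := by
          have h2 : r ∣ 2 ^ 2 := h1
          exact (Nat.prime_dvd_prime_iff_eq hr Nat.prime_two).1 (hr.dvd_of_dvd_pow h2)
        subst hr2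
        exact ⟨3, by decide, by decide⟩
      · rw [chi_nat]
        congr 1
        unfold f kr
        split_ifs with h2 h3 h6
        · rw [h2]
          have : ZMod.χ₄ (((2 : ℕ) : ℤ) : ZMod 4) = 0 := by decide
          rw [this, zero_mul]
        · omega
        · omega
        · have hpo : Odd p := hp.odd_of_ne_two h2
          have hpo' := Nat.odd_iff.1 hpo
          have e1 : D = (2 * 2) * m := by rw [hDm]; ring
          have e2 : jacobiSym (2 * 2 : ℤ) p = 1 := by
            rw [jacobiSym.mul_left, jacobiSym.at_two hpo]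
            rw [ZMod.χ₈_nat_eq_if_mod_eight, if_neg (by omega)]
            split_ifs <;> norm_num
          rw [e1, jacobiSym.mul_left, e2, one_mul, recip m (by omega) p hpo, hk,
            if_neg (by omega), Int.cast_natCast]

end Pool.Agent.H828.SN.QE
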