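import Pool.Agent.H743.SN.Stm

/-!
# Project SN (helper743), part QM: multiplicativity of the discriminants modulo squares
-/

set_option autoImplicit false

namespace Pool.Agent.H996.SN

open Pool.Agent.H743.SN

/-- there is an odd number with symbol `-1` -/
theorem exists_b {n : ℤ} (hn : Squarefree n) (h1 : n ≠ 1) :
    ∃ b : ℕ, Odd b ∧ b.Coprime (4 * n.natAbs) ∧ jacobiSym n b = -1 := by
  by_cases h : ∃ l : ℕ, l.Prime ∧ l ≠ 2 ∧ l ∣ n.natAbs
  · obtain ⟨l, hl, hl2, hln⟩ := h
    obtain ⟨m, hm⟩ : (l : ℤ) ∣ n := Int.natCast_dvd.2 hln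
    have hl2' := hl.two_le
    have hlm : ¬ l ∣ m.natAbs := by
      intro h2
      obtain ⟨t, ht⟩ := Int.natCast_dvd.2 h2
      have h3 := hn (l : ℤ) ⟨t, by rw [hm, ht]; ring⟩
      rw [Int.isUnit_iff] at h3
      omega
    have hm0 : m.natAbs ≠ 0 := by
      intro h2
      rw [h2] at hlm
      exact hlm (dvd_zero _)
    have : Fact l.Prime := ⟨hl⟩
    obtain ⟨u, hu⟩ : ∃ u : ℕ, jacobiSym (u : ℤ) l = -1 := by
      obtain ⟨a, ha⟩ := FiniteField.exists_nonsquare (F := ZMod l)
        (by rw [ZMod.ringChar_zmod_n]; exact hl2)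
      refine ⟨a.val, ?_⟩
      rw [← jacobiSym.legendreSym.to_jacobiSym, legendreSym.eq_neg_one_iff]
      push_cast
      rwa [ZMod.natCast_zmod_val]
    have hul : u.Coprime l := by
      by_contra h2
      have h3 : jacobiSym (u : ℤ) l = 0 := by
        rw [jacobiSym.eq_zero_iff_not_coprime]
        exact h2
      rw [hu] at h3
      omega
    have hc : (4 * m.natAbs).Coprime l := by
      rw [Nat.coprime_comm, hl.coprime_iff_not_dvd, hl.dvd_mul]
      rintro (h2 | h2)
      · have h3 : l ∣ 2 := hl.dvd_of_dvd_pow (show l ∣ 2 ^ 2 from h2)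
        exact hl2 ((Nat.prime_dvd_prime_iff_eq hl Nat.prime_two).1 h3)
      · exact hlm h2
    obtain ⟨b, hb1, hb2⟩ := Nat.chineseRemainder hc 1 u
    have hb4 : b % 4 = 1 := hb1.of_dvd (dvd_mul_right _ _)
    have hbo : Odd b := Nat.odd_iff.2 (by omega)
    have hbc : b.Coprime (4 * n.natAbs) := by
      have h2 : 4 * n.natAbs = 4 * m.natAbs * l := by
        rw [hm, Int.natAbs_mul, Int.natAbs_natCast]
        ring
      rw [h2]
      refine Nat.Coprime.mul_right ?_ ?_
      · rw [Nat.Coprime, hb1.gcd_eq]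
        exact Nat.gcd_one_left _
      · rw [Nat.Coprime, hb2.gcd_eq]
        exact hul
    refine ⟨b, hbo, hbc, ?_⟩
    have h2 : jacobiSym m b = 1 := by
      rw [jacobiSym.mod_right m hbo]
      have h3 : b % (4 * m.natAbs) = 1 := by
        have h4 : b % (4 * m.natAbs) = 1 % (4 * m.natAbs) := hb1
        rw [h4]
        exact Nat.mod_eq_of_lt (by omega)
      rw [h3, jacobiSym.one_right]
    have h3 : jacobiSym (l : ℤ) b = -1 := by
      rw [jacobiSym.quadratic_reciprocity_one_mod_four' (hl.odd_of_ne_two hl2) hb4, ← hu]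
      apply jacobiSym.mod_left'
      exact_mod_cast hb2
    rw [hm, jacobiSym.mul_left, h2, h3, mul_one]
  · push Not at h
    have hn0 : n.natAbs ≠ 0 := by
      intro h2
      exact hn.ne_zero (Int.natAbs_eq_zero.1 h2)
    have h2 : n.natAbs = 2 ^ n.natAbs.primeFactorsList.length :=
      Nat.eq_prime_pow_of_unique_prime_dvd hn0 fun {d} hd hdn => by
        by_contra h3
        exact h d hd h3 hdn
    have h3 : n.natAbs.primeFactorsList.length ≤ 1 := by
      by_contra h4
      have h5 : 2 * 2 ∣ n.natAbs := by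
        rw [h2]
        exact (pow_two 2) ▸ pow_dvd_pow 2 (by omega)
      have h6 := (Int.squarefree_natAbs.2 hn) 2 h5
      rw [Nat.isUnit_iff] at h6
      omega
    have h4 : n.natAbs = 1 ∨ n.natAbs = 2 := by
      generalize n.natAbs.primeFactorsList.length = k at h2 h3
      have h5 : k = 0 ∨ k = 1 := by omega
      rcases h5 with h5 | h5
      · left; rw [h2, h5, pow_zero]
      · right; rw [h2, h5, pow_one]
    have h5 : n = -1 ∨ n = 2 ∨ n = -2 := by omega
    rcases h5 with rfl | rfl | rfl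
    · exact ⟨3, by decide, by decide, by norm_num⟩
    · exact ⟨3, by decide, by decide, by norm_num⟩
    · exact ⟨5, by decide, by decide, by norm_num⟩

theorem Fund.ne_zero {D : ℤ} (h : Fund D) : D ≠ 0 := by
  rcases h with ⟨h1, -⟩ | ⟨m, h1, h2, -⟩
  · exact h1.ne_zero
  · rw [h1]
    exact mul_ne_zero (by norm_num) h2.ne_zero

/-- **QM.** -/
theorem t_QM : S_QM := by
  intro D D₁ D' hD hD₁ hD' ⟨M, hM, h⟩
  obtain ⟨N, hN⟩ : ∃ N : ℤ, N = D * D₁ * D' := ⟨_, rfl⟩
  have hN0 : N ≠ 0 := by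
    rw [hN]
    exact mul_ne_zero (mul_ne_zero (Fund.ne_zero hD) (Fund.ne_zero hD₁)) (Fund.ne_zero hD')
  rw [← hN]
  obtain ⟨a, b, hab, ha⟩ := Nat.sq_mul_squarefree N.natAbs
  obtain ⟨n, hn⟩ : ∃ n : ℤ, n = N.sign * a := ⟨_, rfl⟩
  have hNn : N = (b : ℤ) ^ 2 * n := by
    have h1 := Int.sign_mul_natAbs N
    rw [← hab] at h1
    rw [hn]
    push_cast at h1
    linarith
  have hna : n.natAbs = a := by
    rw [hn, Int.natAbs_mul, Int.natAbs_sign_of_ne_zero hN0, one_mul, Int.natAbs_natCast]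
  have hns : Squarefree n := by
    rw [← Int.squarefree_natAbs, hna]
    exact ha
  by_contra hsq
  have hn1 : n ≠ 1 := by
    intro h1
    apply hsq
    rw [hNn, h1, mul_one]
    exact ⟨(b : ℤ), pow_two _⟩
  obtain ⟨c, hc1, hc2, hc3⟩ := exists_b hns hn1
  have hn0 : n.natAbs ≠ 0 := fun h2 => hns.ne_zero (Int.natAbs_eq_zero.1 h2)
  obtain ⟨p, hpM, hp, hpc⟩ := Nat.forall_exists_prime_gt_and_modEq (M + N.natAbs + 2)
    (q := 4 * n.natAbs) (by omega) hc2
  have hp2 : p ≠ 2 := by omega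
  have hpo : Odd p := hp.odd_of_ne_two hp2
  have hpM' : ¬ p ∣ M := fun h1 => by
    have := Nat.le_of_dvd hM h1
    omega
  have hcop : ∀ x : ℤ, x ∣ N → x.gcd p = 1 := by
    intro x hx
    have h1 : ¬ p ∣ x.natAbs := by
      intro h2
      have h3 : p ∣ N.natAbs := h2.trans (Int.natAbs_dvd_natAbs.2 hx)
      have := Nat.le_of_dvd (Int.natAbs_pos.2 hN0) h3
      omega
    have h2 : x.natAbs.Coprime p := ((hp.coprime_iff_not_dvd).2 h1).symm
    exact h2
  have hJn : jacobiSym n p = -1 := by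
    rw [jacobiSym.mod_right n hpo, ← hc3, jacobiSym.mod_right n hc1]
    congr 1
  have hJN : jacobiSym N p = -1 := by
    rw [hNn, jacobiSym.mul_left, hJn, jacobiSym.sq_one', one_mul]
    exact hcop b ⟨(b : ℤ) * n, by rw [hNn]; ring⟩
  have hk := h p hp hpM'
  simp only [kr, if_neg hp2] at hk
  have h1 : jacobiSym N p = 1 := by
    rw [hN, jacobiSym.mul_left, jacobiSym.mul_left, ← hk, ← pow_two]
    exact jacobiSym.sq_one (hcop D' ⟨D * D₁, by rw [hN]; ring⟩)
  rw [hJN] at h1
  omega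

end Pool.Agent.H996.SN
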