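import Pool.Agent.H743.SN.Main
import Pool.Agent.H743.SN.QC
import Pool.Agent.H743.SN.QE
import Pool.Agent.H743.SN.QM

/-!
# SN: characters, squarefree integers and the values
-/

set_option autoImplicit false
set_option linter.all false

open scoped Classical

namespace Pool.Agent.H743.SN

open UpperHalfPlane MatrixGroups CongruenceSubgroup Filter Topology
open Pool.Agent.N809.M17 (f17 eigen17)
open Pool.Agent.H743.X17 (WM DD Kn dvd_Delta parts Rt Sys sqf_eq)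
open Pool.Agent.N919.BS (core NS)
open Pool.Agent.H743.JL (tw)
open Pool.Agent.N974.Gen (cf cf_euler cf_summable cf_mul cf_pow cf_one cf_prime E17 exists_L_all)

/-- `ψ` is the character of `ℚ(√m)` -/
def Of {q : ℕ} (ψ : DirichletCharacter ℂ q) (m : ℤ) : Prop :=
  Squarefree m ∧ (DD m).natAbs = q ∧ ∀ p : ℕ, p.Prime → ψ (p : ZMod q) = (kr (DD m) p : ℂ)

theorem cls {q : ℕ} [NeZero q] {ψ : DirichletCharacter ℂ q} (h1 : ψ.IsPrimitive)
    (h2 : ψ ^ 2 = 1) : ∃ m : ℤ, Of ψ m := by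
  obtain ⟨D, hD, hq, hp⟩ := Pool.Agent.H864.SNQC.t_QC q ψ h1 h2
  obtain ⟨h3, h4⟩ := core_spec hD
  exact ⟨core D, h3, by rw [h4]; exact hq, by rw [h4]; exact hp⟩

theorem ofx {m : ℤ} (hm : Squarefree m) : ∃ ψ : DirichletCharacter ℂ (DD m).natAbs,
    ψ.IsPrimitive ∧ ψ ^ 2 = 1 ∧ Of ψ m := by
  obtain ⟨ψ, h1, h2, h3⟩ := Pool.Agent.H828.SN.QE.t_QE (DD m) (fund_DD hm)
  exact ⟨ψ, h1, h2, hm, rfl, h3⟩

theorem DD_ne {m : ℤ} (hm : m ≠ 0) : DD m ≠ 0 := by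
  obtain ⟨c, hc, h, -⟩ := DD_sq m
  rw [h]
  exact mul_ne_zero (pow_ne_zero 2 hc) hm

theorem sq_cancel {x k : ℤ} (hk : k ≠ 0) (h : IsSquare (k ^ 2 * x)) : IsSquare x := by
  obtain ⟨y, hy⟩ := h
  have h1 : k ^ 2 ∣ y ^ 2 := ⟨x, by rw [sq y, ← hy]⟩
  have h2 : k ∣ y := (Int.pow_dvd_pow_iff two_ne_zero).1 h1
  obtain ⟨l, rfl⟩ := h2
  refine ⟨l, ?_⟩
  have : k ^ 2 * x = k ^ 2 * (l * l) := by linear_combination hy
  exact mul_left_cancel₀ (pow_ne_zero 2 hk) this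

theorem tw_mul {t m : ℤ} (ht : t ≠ 0) : ∃ g : ℤ, g ≠ 0 ∧ t * m = g ^ 2 * tw t m := by
  have hg0 : (Int.gcd t m : ℤ) ≠ 0 := by
    have := Int.gcd_pos_of_ne_zero_left m ht
    exact_mod_cast this.ne'
  refine ⟨(Int.gcd t m : ℤ), hg0, ?_⟩
  unfold tw
  have hg : (Int.gcd t m : ℤ) ^ 2 ∣ t * m := by
    rw [sq]
    exact mul_dvd_mul (Int.gcd_dvd_left t m) (Int.gcd_dvd_right t m)
  exact (Int.mul_ediv_cancel' hg).symm

theorem tw_sqf {t m : ℤ} (ht : Squarefree t) (hm : Squarefree m) : Squarefree (tw t m) :=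
  (Pool.Agent.H348.JL.t_TW t ht).1 m hm |>.1

theorem tw_sq {t m : ℤ} (ht : t ≠ 0) : IsSquare (t * m * tw t m) := by
  obtain ⟨g, hg, h⟩ := tw_mul (m := m) ht
  exact ⟨g * tw t m, by rw [h]; ring⟩

/-- the characterisation of the squarefree part -/
theorem tw_of {t m m' : ℤ} (ht : Squarefree t) (hm : Squarefree m) (hm' : Squarefree m')
    (h : IsSquare (t * m * m')) : m' = tw t m := by
  obtain ⟨g, hg, e⟩ := tw_mul (m := m) ht.ne_zero
  rw [e, mul_assoc] at h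
  exact sqf_eq (tw_sqf ht hm) hm' (sq_cancel hg h)

theorem tw_tw {e t m : ℤ} (he : Squarefree e) (ht : Squarefree t) (hm : Squarefree m) :
    tw e (tw t m) = tw (tw e t) m := by
  refine tw_of (tw_sqf he ht) hm (tw_sqf he (tw_sqf ht hm)) ?_
  obtain ⟨g1, h1, e1⟩ := tw_mul (m := t) he.ne_zero
  obtain ⟨g2, h2, e2⟩ := tw_mul (m := m) ht.ne_zero
  obtain ⟨g3, h3, e3⟩ := tw_mul (m := tw t m) he.ne_zero
  refine sq_cancel (k := g1 * g2 * g3) (mul_ne_zero (mul_ne_zero h1 h2) h3) ⟨e * t * m, ?_⟩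
  linear_combination (-(g2 ^ 2 * g3 ^ 2 * m * tw e (tw t m))) * e1 +
    (-(e * g2 ^ 2 * t * m)) * e3 + (-(e ^ 2 * t * m)) * e2

theorem kr_one {p : ℕ} (hp : p.Prime) : kr (DD 1) p = 1 := by
  have e : DD 1 = 1 := by
    unfold DD
    norm_num
  rw [e]
  unfold kr
  by_cases h2 : p = 2
  · rw [if_pos h2]
    norm_num
  · rw [if_neg h2, jacobiSym.one_left]

/-- the characters and the squarefree integers -/
theorem of_mul {t m m' : ℤ} (ht : Squarefree t) (hm : Squarefree m) (hm' : Squarefree m')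
    (h : ∃ M : ℕ, 0 < M ∧ ∀ p : ℕ, p.Prime → ¬ p ∣ M →
      kr (DD m') p = kr (DD t) p * kr (DD m) p) : m' = tw t m := by
  have h1 := Pool.Agent.H996.SN.t_QM (DD t) (DD m) (DD m') (fund_DD ht) (fund_DD hm) (fund_DD hm') h
  obtain ⟨c1, hc1, e1, -⟩ := DD_sq t
  obtain ⟨c2, hc2, e2, -⟩ := DD_sq m
  obtain ⟨c3, hc3, e3, -⟩ := DD_sq m'
  refine tw_of ht hm hm' (sq_cancel (k := c1 * c2 * c3) (mul_ne_zero (mul_ne_zero hc1 hc2) hc3) ?_)
  have e : (c1 * c2 * c3) ^ 2 * (t * m * m') = DD t * DD m * DD m' := by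
    rw [e1, e2, e3]
    ring
  rw [e]
  exact h1

/-- the squarefree integer is determined by the character -/
theorem of_inj {m m' : ℤ} (hm : Squarefree m) (hm' : Squarefree m')
    (h : ∀ p : ℕ, p.Prime → kr (DD m') p = kr (DD m) p) : m' = m := by
  have h1 := of_mul (t := 1) squarefree_one hm hm' ⟨1, one_pos, fun p hp _ => by
    rw [kr_one hp, one_mul, h p hp]⟩
  rw [h1]
  simp [tw]

theorem Of.unique {q : ℕ} {ψ : DirichletCharacter ℂ q} {m m' : ℤ} (h : Of ψ m) (h' : Of ψ m') :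
    m' = m := of_inj h.1 h'.1 fun p hp => by
  have h1 := h.2.2 p hp
  rw [h'.2.2 p hp] at h1
  exact_mod_cast h1

/-- two characters with the same values at the primes -/
theorem dc_ext {q : ℕ} [NeZero q] {ψ ψ' : DirichletCharacter ℂ q}
    (h : ∀ p : ℕ, p.Prime → ψ (p : ZMod q) = ψ' (p : ZMod q)) : ψ = ψ' := by
  refine MulChar.ext fun a => ?_
  obtain ⟨p, -, hp, hpm⟩ := Nat.forall_exists_prime_gt_and_eq_mod a.isUnit 2
  rw [← hpm]
  exact h p hp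

/-! ### the products -/

theorem prim_sq {q : ℕ} [NeZero q] {ξ : DirichletCharacter ℂ q} (h : ξ ^ 2 = 1) :
    ξ.primitiveCharacter ^ 2 = 1 := by
  apply DirichletCharacter.changeLevel_injective ξ.conductor_dvd_level
  rw [map_pow, DirichletCharacter.changeLevel_primitiveCharacter, h, map_one]

instance neLcm {k q : ℕ} [NeZero k] [NeZero q] : NeZero (Nat.lcm k q) :=
  ⟨Nat.lcm_ne_zero (NeZero.ne k) (NeZero.ne q)⟩

instance neCond {q : ℕ} [NeZero q] {ξ : DirichletCharacter ℂ q} : NeZero ξ.conductor :=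
  ⟨ξ.conductor_ne_zero⟩

theorem pm_sq {k q : ℕ} [NeZero k] [NeZero q] {χ : DirichletCharacter ℂ k}
    {ψ : DirichletCharacter ℂ q} (h : χ ^ 2 = 1) (h' : ψ ^ 2 = 1) : χ.primitive_mul ψ ^ 2 = 1 := by
  refine prim_sq ?_
  unfold DirichletCharacter.mul
  rw [mul_pow, ← map_pow, ← map_pow, h, h', map_one, map_one, mul_one]

theorem pm_prime {k q : ℕ} [NeZero k] [NeZero q] {χ : DirichletCharacter ℂ k}
    {ψ : DirichletCharacter ℂ q} {p : ℕ} (hp : p.Prime) (h : ¬ p ∣ k * q) :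
    χ.primitive_mul ψ (p : ZMod _) = χ (p : ZMod k) * ψ (p : ZMod q) := by
  have hc : Nat.Coprime p (Nat.lcm k q) := by
    refine (Nat.Prime.coprime_iff_not_dvd hp).2 fun h1 => h ?_
    exact h1.trans (Nat.lcm_dvd_mul k q)
  have hcz : IsCoprime (p : ℤ) ((Nat.lcm k q : ℕ) : ℤ) := Nat.isCoprime_iff_coprime.2 hc
  have h1 := (χ.mul ψ).primitiveCharacter_apply_of_isCoprime hcz
  rw [Int.cast_natCast, Int.cast_natCast] at h1
  rw [DirichletCharacter.mul_def, h1]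
  unfold DirichletCharacter.mul
  rw [MulChar.mul_apply]
  have h2 := DirichletCharacter.changeLevel_eq_cast_of_dvd' χ (Nat.dvd_lcm_left k q) hcz
  have h3 := DirichletCharacter.changeLevel_eq_cast_of_dvd' ψ (Nat.dvd_lcm_right k q) hcz
  rw [Int.cast_natCast, Int.cast_natCast] at h2 h3
  rw [h2, h3]

theorem pm_of {k q : ℕ} [NeZero k] [NeZero q] {χ : DirichletCharacter ℂ k}
    {ψ : DirichletCharacter ℂ q} (h : χ ^ 2 = 1) (h' : ψ ^ 2 = 1) {t m : ℤ} (hχ : Of χ t)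
    (hψ : Of ψ m) : Of (χ.primitive_mul ψ) (tw t m) := by
  haveI : NeZero (χ.mul ψ).conductor := neCond
  obtain ⟨m', h1⟩ := cls (χ.primitive_mul_isPrimitive ψ) (pm_sq h h')
  have h2 : m' = tw t m := by
    refine of_mul hχ.1 hψ.1 h1.1 ⟨k * q, Nat.mul_pos (NeZero.pos k) (NeZero.pos q), fun p hp hd => ?_⟩
    have h3 := pm_prime (χ := χ) (ψ := ψ) hp hd
    rw [h1.2.2 p hp, hχ.2.2 p hp, hψ.2.2 p hp] at h3
    exact_mod_cast h3
  rw [← h2]
  exact h1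

/-! ### the values -/

/-- the nonvanishing of the central value -/
def NV {q : ℕ} (ξ : DirichletCharacter ℂ q) : Prop := ∃ Λ : ℂ → ℂ, IsLf f17 ξ Λ ∧ Λ (1 / 2) ≠ 0

theorem nv_rt {q : ℕ} [NeZero q] {ξ : DirichletCharacter ℂ q} {m : ℤ} (hξ : Of ξ m) (h : NV ξ) :
    Rt m := by
  by_cases h1 : m = 1
  · subst h1
    exact Or.inl ⟨one_pos, by simp⟩
  by_contra hR
  obtain ⟨Λ, hL, h0⟩ := h
  obtain ⟨hO, F, y, hF, hy, hz, hv⟩ := Pool.Agent.H743.X17.main parts hξ.1 h1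
  have h2 := Lf_unique hL (Lf_of hξ.1 hξ.2.2 hF)
  rw [h2] at h0
  apply h0
  have e : (1 / 2 + 1 / 2 : ℂ) = 1 := by norm_num
  simp only [e]
  rw [hv, hz hR]
  simp

theorem nv_sys {q : ℕ} [NeZero q] {ξ : DirichletCharacter ℂ q} {m : ℤ} (hξ : Of ξ m) (h1 : m ≠ 1)
    (hS : Sys m) : NV ξ := by
  obtain ⟨hO, F, y, hF, hy, hz, hv⟩ := Pool.Agent.H743.X17.main parts hξ.1 h1
  refine ⟨_, Lf_of hξ.1 hξ.2.2 hF, ?_⟩
  have e : (1 / 2 + 1 / 2 : ℂ) = 1 := by norm_num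
  simp only [e]
  rw [hv]
  have hyo : Odd y := hy.2 ((Pool.Agent.H743.X17.finSha_iff parts hξ.1).2 hS)
  have hy0 : (y : ℝ) ≠ 0 := by
    have : y ≠ 0 := by
      rintro rfl
      exact absurd hyo (by decide)
    exact_mod_cast this
  have hT : (Pool.Agent.H743.X17.TamProd (Pool.Agent.H743.X17.WM m) : ℝ) ≠ 0 := by
    rw [Pool.Agent.H743.X17.tamProd_eq parts hξ.1]
    split_ifs <;> simp
  have hO' : Pool.Agent.Y700.Omega (Pool.Agent.H743.X17.WM m) ≠ 0 := hO.ne'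
  intro h2
  rw [Complex.ofReal_eq_zero] at h2
  have h3 : (y : ℝ) ^ 2 * (Pool.Agent.H743.X17.TamProd (Pool.Agent.H743.X17.WM m) : ℝ) / 16 *
      Pool.Agent.Y700.Omega (Pool.Agent.H743.X17.WM m) ≠ 0 := by positivity
  exact h3 h2

/-- the `L`-function of `f ⊗ ψ`, for every primitive character -/
theorem exists_Lf {q : ℕ} [NeZero q] {ψ : DirichletCharacter ℂ q} (hψ : ψ.IsPrimitive) :
    ∃ Λ : ℂ → ℂ, IsLf f17 ψ Λ := by
  obtain ⟨g, hg, hp, -⟩ := exists_L_all f17 eigen17 ψ hψ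
  refine ⟨fun s => g (s + 1 / 2), hg.comp (differentiable_id.add_const _), fun s hs => ?_⟩
  have hs' : (3 : ℝ) / 2 < (s + 1 / 2).re := by
    have : (s + 1 / 2).re = s.re + 1 / 2 := by simp
    rw [this]
    linarith
  have h1 := cf_euler eigen17 ψ (s + 1 / 2) hs'
  have h4 := h1.unique (hp (s + 1 / 2) hs')
  have h5 := (cf_summable eigen17 ψ (s + 1 / 2) hs').of_norm.hasSum
  rw [h4] at h5
  exact h5

end Pool.Agent.H743.SN
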