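import Pool.Agent.H743.SN.FI3

/-!
# SN: half of all the quadratic fields have root number one, for every twist
-/

set_option autoImplicit false
set_option linter.all false

open scoped Classical

namespace Pool.Agent.H743.SN

open Finset Filter Topology
open Pool.Agent.Y703.CQ (c2)
open Pool.Agent.H743.X17 (Sys Rt)
open Pool.Agent.N855.GF.Lc17 (Lc)
open Pool.Agent.N919.BS (NN NF HG core Root js17 root17)
open Pool.Agent.H743.JL

theorem tw_gcd {t d : ℤ} : t * d = (Int.gcd t d : ℤ) ^ 2 * tw t d := by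
  unfold tw
  rw [Int.mul_ediv_cancel' ]
  rw [sq]
  exact mul_dvd_mul (Int.gcd_dvd_left t d) (Int.gcd_dvd_right t d)

theorem p17i : Prime (17 : ℤ) := by norm_num

theorem jac_sq {g x : ℤ} (hg : ¬ (17 : ℤ) ∣ g) : jacobiSym (g ^ 2 * x) 17 = jacobiSym x 17 := by
  rw [jacobiSym.mul_left]
  have h1 : jacobiSym (g ^ 2) 17 = 1 := by
    refine jacobiSym.sq_one' ?_
    rw [Int.gcd_comm]
    exact Int.isCoprime_iff_gcd_eq_one.1 ((Int.prime_iff_natAbs_prime.1 p17i |> fun _ =>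
      (Prime.coprime_iff_not_dvd p17i).2 hg))
  rw [h1, one_mul]

/-- `17 ∤ t` -/
theorem jt1 {t d : ℤ} (h : ¬ (17 : ℤ) ∣ t) :
    jacobiSym (tw t d) 17 = jacobiSym t 17 * jacobiSym d 17 := by
  have hg : ¬ (17 : ℤ) ∣ (Int.gcd t d : ℤ) := fun h' => h (h'.trans (Int.gcd_dvd_left t d))
  rw [← jacobiSym.mul_left, tw_gcd (t := t) (d := d), jac_sq hg]

/-- `17 ∣ t`, `17 ∤ d` -/
theorem jt2 {t d : ℤ} (ht : (17 : ℤ) ∣ t) (h : ¬ (17 : ℤ) ∣ d) : jacobiSym (tw t d) 17 = 0 := by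
  have hg : ¬ (17 : ℤ) ∣ (Int.gcd t d : ℤ) := fun h' => h (h'.trans (Int.gcd_dvd_right t d))
  rw [jac17]
  have h1 : (17 : ℤ) ∣ (Int.gcd t d : ℤ) ^ 2 * tw t d := by
    rw [← tw_gcd]
    exact ht.mul_right d
  exact (p17i.dvd_or_dvd h1).resolve_left fun h2 => hg (p17i.dvd_of_dvd_pow h2)

/-- `17 ∣ t`, `17 ∣ d` -/
theorem jt3 {t d : ℤ} (ht : ¬ (17 : ℤ) ∣ t) :
    jacobiSym (tw (17 * t) (17 * d)) 17 = jacobiSym t 17 * jacobiSym d 17 := by
  have e : tw (17 * t) (17 * d) = tw t d := by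
    unfold tw
    rw [Int.gcd_mul_left]
    push_cast
    have e1 : (17 : ℤ) * t * (17 * d) = 289 * (t * d) := by ring
    have e2 : ((17 : ℤ) * (Int.gcd t d : ℤ)) ^ 2 = 289 * (Int.gcd t d : ℤ) ^ 2 := by ring
    have e3 : |(17 : ℤ)| = 17 := by norm_num
    try rw [e3]
    rw [e1, e2, Int.mul_ediv_mul_of_pos _ _ (by norm_num)]
  rw [e, jt1 ht]

theorem jac_sum {t : ℤ} (ht : Squarefree t) {s : ℤ} {M N : ℕ} (h : 289 ∣ M + N) :
    jacobiSym (tw t (s * M)) 17 = jacobiSym (tw t (s * N)) 17 := by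
  have h0 : (289 : ℤ) ∣ s * M + s * N := by
    rw [← mul_add]
    exact Dvd.dvd.mul_left (by exact_mod_cast h) s
  have h1 : (17 : ℤ) ∣ s * M + s * N := Dvd.dvd.trans (by norm_num) h0
  by_cases ht17 : (17 : ℤ) ∣ t
  · obtain ⟨t', rfl⟩ := ht17
    have ht' : ¬ (17 : ℤ) ∣ t' := by
      rintro ⟨k, rfl⟩
      have := ht 17 ⟨k, by ring⟩
      exact absurd this (by decide)
    by_cases hM : (17 : ℤ) ∣ s * M
    · have hN : (17 : ℤ) ∣ s * N := (dvd_add_right hM).1 h1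
      obtain ⟨a, ha⟩ := hM
      obtain ⟨b, hb⟩ := hN
      rw [ha, hb, jt3 ht', jt3 ht']
      rw [ha, hb] at h0
      have h2 : (17 : ℤ) ∣ a + b := by omega
      rw [js17 h2]
    · have hN : ¬ (17 : ℤ) ∣ s * N := fun hN => hM ((dvd_add_left hN).1 h1)
      rw [jt2 (Dvd.intro _ rfl) hM, jt2 (Dvd.intro _ rfl) hN]
  · rw [jt1 ht17, jt1 ht17, js17 h1]

theorem tw_negd (t d : ℤ) : tw t (-d) = -tw t d := by
  unfold tw
  rw [Int.gcd_neg, mul_neg, Int.neg_ediv_of_dvd]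
  rw [sq]
  exact mul_dvd_mul (Int.gcd_dvd_left t d) (Int.gcd_dvd_right t d)

theorem tw_ne {t d : ℤ} (ht : t ≠ 0) (hd : d ≠ 0) : tw t d ≠ 0 := by
  intro h
  have h1 := tw_gcd (t := t) (d := d)
  rw [h, mul_zero] at h1
  exact mul_ne_zero ht hd h1

theorem root_tw {t : ℤ} (ht : Squarefree t) : Root 289 (fun d => Rt (tw t d)) where
  pos := by norm_num
  odd := by norm_num
  sym := by
    intro s hs M N hM hN h
    have hs0 : s ≠ 0 := by rcases hs with rfl | rfl <;> norm_num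
    have hM' : (0 : ℤ) < M := by exact_mod_cast hM
    have hN' : (0 : ℤ) < N := by exact_mod_cast hN
    have e1 : tw t (s * M) < 0 ↔ tw t (s * N) < 0 := by
      rw [Pool.Agent.H225.JX.tw_lt ht.ne_zero, Pool.Agent.H225.JX.tw_lt ht.ne_zero, ← mul_assoc,
        ← mul_assoc]
      rcases lt_trichotomy (t * s) 0 with h1 | h1 | h1
      · exact ⟨fun _ => mul_neg_of_neg_of_pos h1 hN', fun _ => mul_neg_of_neg_of_pos h1 hM'⟩
      · exact absurd h1 (mul_ne_zero ht.ne_zero hs0)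
      · exact ⟨fun h2 => absurd (mul_pos h1 hM') (by omega), fun h2 =>
          absurd (mul_pos h1 hN') (by omega)⟩
    have n1 := tw_ne ht.ne_zero (mul_ne_zero hs0 hM'.ne')
    have n2 := tw_ne ht.ne_zero (mul_ne_zero hs0 hN'.ne')
    have e2 : 0 < tw t (s * M) ↔ 0 < tw t (s * N) := by omega
    show Rt (tw t (s * M)) ↔ Rt (tw t (s * N))
    unfold Rt
    rw [jac_sum ht h, e1, e2]
  one := by
    intro d hd
    show Rt (tw t d) ↔ ¬ Rt (tw t (-d))
    rw [tw_negd]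
    exact root17.one _ (tw_ne ht.ne_zero hd)

/-- the joint law for one twist -/
theorem hg_one {t : ℤ} (ht : Squarefree t) :
    HG (fun d => Rt (tw t d)) (fun d => Sys (tw t d)) c2 := by
  obtain ⟨m, hm⟩ : ∃ m : ℕ, m = 136 * t.natAbs := ⟨_, rfl⟩
  have hmpos : 0 < m := by
    rw [hm]
    exact Nat.mul_pos (by norm_num) (Int.natAbs_pos.2 ht.ne_zero)
  have h136 : 136 ∣ m := by
    rw [hm]
    exact Dvd.intro _ rfl
  have hdvd : 136 * t ∣ (m : ℤ) := by
    rw [hm]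
    push_cast
    exact mul_dvd_mul (by norm_num) ((dvd_abs t t).2 dvd_rfl)
  have hQ : Lc m (fun d => Rt (tw t d)) := by
    intro s k M N hs hk hM hN e1 e2 e3
    exact Pool.Agent.H721.JLLR.t_LR t m ht hdvd s k M N hs hk hM hN e1 e2 e3
  have hG := Pool.Agent.H743.JL.pt' Pool.Agent.H348.JL.t_SE {t} m _ h136 hmpos
    (fun t' ht' => by
      rw [mem_singleton] at ht'
      subst ht'
      exact ⟨ht, (Dvd.intro_left _ rfl).trans hdvd⟩) hQ
    (fun d _ hq t' ht' => by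
      rw [mem_singleton] at ht'
      subst ht'
      exact hq) {t} (Finset.Subset.refl _)
  rw [Finset.sdiff_self, Finset.card_empty, pow_zero, mul_one, card_singleton, pow_one] at hG
  have e : (fun d : ℤ => ∀ t' ∈ ({t} : Finset ℤ), (Sys (tw t' d) ↔ t' ∈ ({t} : Finset ℤ))) =
      fun d => Sys (tw t d) := by
    funext d
    simp
  rwa [e] at hG

/-- **half of all the quadratic fields, and the proportion `c / 2`** -/
theorem half_tw {t : ℤ} (ht : Squarefree t) :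
    Tendsto (fun X : ℕ => (NF (fun d => Rt (tw t d) ∧ Sys (tw t d)) X : ℝ) /
      (NF (fun _ => True) X : ℝ)) atTop (𝓝 (c2 / 2)) := by
  have hc : 0 ≤ c2 := by
    have := Pool.Agent.H743.X17.c2_bounds.1
    linarith
  exact Pool.Agent.N919.BS.t_NF (root_tw ht) hc (hg_one ht)

theorem half_rt {t : ℤ} (ht : Squarefree t) :
    Tendsto (fun X : ℕ => (NF (fun d => Rt (tw t d)) X : ℝ) /
      (NF (fun _ => True) X : ℝ)) atTop (𝓝 (1 / 2)) := by
  have hG : HG (fun d => Rt (tw t d)) (fun _ => True) 1 := by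
    intro s k r _ _ _ ε hε
    refine ⟨0, fun Y _ => ?_⟩
    simp only [and_true, one_mul, sub_self, abs_zero]
    positivity
  have := Pool.Agent.N919.BS.t_NF (root_tw ht) zero_le_one hG
  simpa using this

end Pool.Agent.H743.SN
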