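import Pool.Agent.H743.SN.Quant
import Pool.Agent.H743.JL.AllZ
import Pool.Graph.R_pool_sql_team_seeded_63374d34.N402.Dim.D21
import Pool.Graph.R_pool_sql_team_seeded_63374d34.N402.MF21.Asm

/-!
# SN: the newform of level 21 and its quadratic twists
-/

set_option autoImplicit false
set_option linter.all false

open scoped Classical

namespace Pool.Agent.H743.SN

open UpperHalfPlane MatrixGroups CongruenceSubgroup Filter Topology
open Pool.Agent.N974.Gen (cf cf_euler cf_summable cf_mul cf_pow cf_one cf_prime cf_int E21 Eigen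
  exists_L_all)
open Pool.Agent.W97.MT (ap)
open Pool.Agent.H743.X17 (DD)

/-- `L(s, f ⊗ ψ)`, centre `1/2` -/
def IsLg {N : ℕ} (f : CuspForm (Gamma0 N : Subgroup (GL (Fin 2) ℝ)) 2) {q : ℕ}
    (ψ : DirichletCharacter ℂ q) (Λ : ℂ → ℂ) : Prop :=
  Differentiable ℂ Λ ∧ ∀ s : ℂ, 1 < s.re →
    HasSum (fun n : ℕ => (qExpansion 1 f).coeff n * ψ n * (n : ℂ) ^ (-(s + 1 / 2))) (Λ s)

theorem Lg_unique {N : ℕ} {f : CuspForm (Gamma0 N : Subgroup (GL (Fin 2) ℝ)) 2} {q : ℕ}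
    {ψ : DirichletCharacter ℂ q} {F G : ℂ → ℂ} (hF : IsLg f ψ F) (hG : IsLg f ψ G) : F = G :=
  ent_unique hF.1 hG.1 fun s hs => (hF.2 s hs).unique (hG.2 s hs)

/-- the `L`-function of `f ⊗ ψ`, for every primitive character -/
theorem exists_Lg {N : ℕ} [NeZero N] {f : CuspForm (Gamma0 N : Subgroup (GL (Fin 2) ℝ)) 2}
    {a : ℕ → ℤ} (h : Eigen f a) {q : ℕ} [NeZero q] {ψ : DirichletCharacter ℂ q}
    (hψ : ψ.IsPrimitive) : ∃ Λ : ℂ → ℂ, IsLg f ψ Λ := by
  obtain ⟨g, hg, hp, -⟩ := exists_L_all f h ψ hψ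
  refine ⟨fun s => g (s + 1 / 2), hg.comp (differentiable_id.add_const _), fun s hs => ?_⟩
  have hs' : (3 : ℝ) / 2 < (s + 1 / 2).re := by
    have : (s + 1 / 2).re = s.re + 1 / 2 := by simp
    rw [this]
    linarith
  have h1 := cf_euler h ψ (s + 1 / 2) hs'
  have h4 := h1.unique (hp (s + 1 / 2) hs')
  have h5 := (cf_summable h ψ (s + 1 / 2) hs').of_norm.hasSum
  rw [h4] at h5
  exact h5

/-- the Dirichlet series of the twist and the L-function of the curve -/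
theorem Lg_of {N : ℕ} [NeZero N] {f : CuspForm (Gamma0 N : Subgroup (GL (Fin 2) ℝ)) 2}
    {E W : WeierstrassCurve ℤ} (h : Eigen f (fun p => ap E p)) {q : ℕ} [NeZero q]
    {ψ : DirichletCharacter ℂ q} {m : ℤ}
    (hψ : ∀ p : ℕ, p.Prime → ψ (p : ZMod q) = (kr (DD m) p : ℂ))
    (hap : ∀ p : ℕ, p.Prime → ap W p = ap E p *
      (if p = 2 then (if m % 8 = 1 then 1 else if m % 8 = 5 then -1 else 0) else jacobiSym m p))
    (hΔ : ∀ p : ℕ, p.Prime → ((p : ℤ) ∣ W.Δ ↔ p ∣ N ∨ p ∣ (DD m).natAbs)) {Λ : ℂ → ℂ}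
    (hL : Pool.Agent.Y700.IsL W Λ) : IsLg f ψ (fun s => Λ (s + 1 / 2)) := by
  refine ⟨hL.1.comp (differentiable_id.add_const _), fun s hs => ?_⟩
  have hs' : (3 : ℝ) / 2 < (s + 1 / 2).re := by
    have : (s + 1 / 2).re = s.re + 1 / 2 := by simp
    rw [this]
    linarith
  have h1 := cf_euler h ψ (s + 1 / 2) hs'
  have h2 := hL.2 (s + 1 / 2) hs'
  have h3 : (fun p : Nat.Primes => (1 - (ap W p : ℂ) * ((p : ℕ) : ℂ) ^ (-(s + 1 / 2)) +
      (if ((p : ℕ) : ℤ) ∣ W.Δ then 0 else ((p : ℕ) : ℂ) ^ (1 - 2 * (s + 1 / 2))))⁻¹) =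
      (fun p : Nat.Primes => (1 - (ap E p : ℂ) * ψ p * ((p : ℕ) : ℂ) ^ (-(s + 1 / 2)) +
        (if (p : ℕ) ∣ N then 0 else ((p : ℕ) : ℂ)) * (ψ p) ^ 2 *
          ((p : ℕ) : ℂ) ^ (-2 * (s + 1 / 2)))⁻¹) := by
    funext p
    have hp := p.2
    have hp0 : ((p : ℕ) : ℂ) ≠ 0 := by exact_mod_cast hp.ne_zero
    congr 1
    have e1 : (ap W p : ℂ) = (ap E p : ℂ) * ψ p := by
      have h4 := hap p hp
      rw [hψ p hp, kr_DD hp, h4]
      push_cast
      rfl
    rw [e1]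
    congr 1
    have e2 : ψ p = (kr (DD m) p : ℂ) := hψ p hp
    have e3 : ((p : ℕ) : ℤ) ∣ W.Δ ↔ (p : ℕ) ∣ N ∨ (p : ℕ) ∣ (DD m).natAbs := hΔ p hp
    by_cases hN : (p : ℕ) ∣ N
    · rw [if_pos (e3.2 (Or.inl hN)), if_pos hN, zero_mul, zero_mul]
    · by_cases hK : (p : ℕ) ∣ (DD m).natAbs
      · rw [if_pos (e3.2 (Or.inr hK)), e2]
        have hk : kr (DD m) p = 0 := by
          unfold kr
          have hd : ((p : ℕ) : ℤ) ∣ DD m := Int.natCast_dvd.2 hK
          by_cases hp2 : (p : ℕ) = 2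
          · rw [if_pos hp2, if_pos]
            rw [hp2] at hd
            exact Int.emod_eq_zero_of_dvd hd
          · rw [if_neg hp2, jacobiSym.eq_zero_iff]
            refine ⟨hp.ne_zero, fun hg => hp.one_lt.ne' ?_⟩
            have h9 : (p : ℕ) ∣ Int.gcd (DD m) p := Int.dvd_gcd hd (dvd_refl _)
            rw [hg] at h9
            exact Nat.dvd_one.1 h9
        rw [hk]
        norm_num
      · rw [if_neg (fun h => (e3.1 h).elim hN hK), if_neg hN]
        have hk : ((kr (DD m) p : ℤ) : ℂ) ^ 2 = 1 := by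
          have hk' : kr (DD m) p ^ 2 = 1 := by
            unfold kr
            have hd : ¬ ((p : ℕ) : ℤ) ∣ DD m := fun h => hK (Int.natCast_dvd.1 h)
            by_cases hp2 : (p : ℕ) = 2
            · rw [if_pos hp2]
              rw [hp2] at hd
              have hd' : ¬ DD m % 2 = 0 := fun h => hd (by
                push_cast
                exact Int.dvd_of_emod_eq_zero h)
              rw [if_neg hd']
              split_ifs <;> norm_num
            · rw [if_neg hp2]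
              refine jacobiSym.sq_one ?_
              rw [Int.gcd_comm]
              have := (Nat.prime_iff_prime_int.1 hp).coprime_iff_not_dvd.2 hd
              exact Int.isCoprime_iff_gcd_eq_one.1 this
          exact_mod_cast hk'
        rw [e2, hk, mul_one]
        rw [show (1 - 2 * (s + 1 / 2) : ℂ) = 1 + -2 * (s + 1 / 2) by ring, Complex.cpow_add _ _ hp0,
          Complex.cpow_one]
  rw [h3] at h2
  have h4 := h1.unique h2
  have h5 := (cf_summable h ψ (s + 1 / 2) hs').of_norm.hasSum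
  rw [h4] at h5
  exact h5

/-- the nonvanishing of the central value -/
def NVg {N : ℕ} (f : CuspForm (Gamma0 N : Subgroup (GL (Fin 2) ℝ)) 2) {q : ℕ}
    (ξ : DirichletCharacter ℂ q) : Prop := ∃ Λ : ℂ → ℂ, IsLg f ξ Λ ∧ Λ (1 / 2) ≠ 0

open Pool.Agent.N402.MF21 (f21 eigen21)

/-- **the nonvanishing for the newform of level 21** -/
theorem nv21 {q : ℕ} [NeZero q] {ξ : DirichletCharacter ℂ q} {m : ℤ} (hξ : Of ξ m)
    (hK : Pool.Agent.H114.X21.K21 m) (hG : Pool.Agent.H743.JL.H4 m) : NVg f21 ξ := by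
  obtain ⟨hO, F, y, hF, -, hy, hv⟩ := Pool.Agent.H114.X21.main Pool.Agent.H114.X21.parts hK
  have hGm : Pool.Agent.H114.X21.Gm m := (Pool.Agent.H743.JL.gm m hK.neg hK.ne_one hK.sqf).2 hG
  refine ⟨_, Lg_of eigen21 hξ.2.2 (fun p hp => Pool.Agent.H114.X21.parts.ap m hK.sqf p hp)
    (fun p hp => by
      have h1 := Pool.Agent.H114.X21.dvd_Delta (m := m) hp
      rw [Pool.Agent.H114.X21.Kn_eq] at h1
      exact h1) hF, ?_⟩
  have e : (1 / 2 + 1 / 2 : ℂ) = 1 := by norm_num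
  simp only [e]
  rw [hv]
  have hyo : Odd y := hy.2 hGm
  have h1 : (0 : ℝ) < y := by exact_mod_cast hyo.pos
  have h2 : (0 : ℝ) < (Pool.Agent.H743.X17.TamProd (Pool.Agent.H114.X21.WM m) : ℝ) := by
    exact_mod_cast Pool.Agent.H734.D21.tam_pos hK
  have h3 : (0 : ℝ) < (y : ℝ) ^ 2 * (Pool.Agent.H743.X17.TamProd (Pool.Agent.H114.X21.WM m) : ℝ) /
      16 * Pool.Agent.Y700.Omega (Pool.Agent.H114.X21.WM m) :=
    mul_pos (div_pos (mul_pos (pow_pos h1 2) h2) (by norm_num)) hO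
  exact_mod_cast h3.ne'

theorem f21_ne : ∃ z : ℍ, f21 z ≠ 0 := by
  by_contra h
  push Not at h
  have h0 : (⇑f21 : ℍ → ℂ) = 0 := funext h
  have h1 := cf_one eigen21
  unfold cf at h1
  rw [h0, UpperHalfPlane.qExpansion_zero] at h1
  simp at h1

end Pool.Agent.H743.SN
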