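import Pool.Agent.H743.JL.All
import Pool.Agent.H743.X17.Cond
import Pool.Agent.H743.SN.Stm
import Pool.Graph.R_pool_sql_team_seeded_63374d34.N809.M17.Mod17

/-!
# SN: the newform of level 17 and its quadratic twists
-/

set_option autoImplicit false
set_option linter.all false

open scoped Classical

namespace Pool.Agent.H743.SN

open UpperHalfPlane MatrixGroups CongruenceSubgroup Filter Topology
open Pool.Agent.N809.M17 (f17 eigen17)
open Pool.Agent.N974.Gen (cf cf_euler cf_summable cf_mul cf_pow cf_one cf_prime E17)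
open Pool.Agent.H743.X17 (WM DD Kn dvd_Delta parts)
open Pool.Agent.W97.MT (ap)

/-- `L(s, f ⊗ ψ)`, centre `1/2` -/
def IsLf (f : CuspForm (Gamma0 17 : Subgroup (GL (Fin 2) ℝ)) 2) {q : ℕ}
    (ψ : DirichletCharacter ℂ q) (Λ : ℂ → ℂ) : Prop :=
  Differentiable ℂ Λ ∧ ∀ s : ℂ, 1 < s.re →
    HasSum (fun n : ℕ => (qExpansion 1 f).coeff n * ψ n * (n : ℂ) ^ (-(s + 1 / 2))) (Λ s)

/-- entire functions which agree on a half plane -/
theorem ent_unique {F G : ℂ → ℂ} (hF : Differentiable ℂ F) (hG : Differentiable ℂ G)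
    (h : ∀ s : ℂ, 1 < s.re → F s = G s) : F = G := by
  have h1 : AnalyticOnNhd ℂ F Set.univ := fun z _ => hF.analyticAt z
  have h2 : AnalyticOnNhd ℂ G Set.univ := fun z _ => hG.analyticAt z
  refine h1.eq_of_eventuallyEq h2 (z₀ := 2) ?_
  have ho : IsOpen {s : ℂ | 1 < s.re} := isOpen_lt continuous_const Complex.continuous_re
  filter_upwards [ho.mem_nhds (show (2 : ℂ) ∈ {s : ℂ | 1 < s.re} by simp)] with s hs
  exact h s hs

theorem Lf_unique {f : CuspForm (Gamma0 17 : Subgroup (GL (Fin 2) ℝ)) 2} {q : ℕ}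
    {ψ : DirichletCharacter ℂ q} {F G : ℂ → ℂ} (hF : IsLf f ψ F) (hG : IsLf f ψ G) : F = G :=
  ent_unique hF.1 hG.1 fun s hs => (hF.2 s hs).unique (hG.2 s hs)

theorem kr_DD {m : ℤ} {p : ℕ} (hp : p.Prime) : kr (DD m) p =
    (if p = 2 then (if m % 8 = 1 then 1 else if m % 8 = 5 then -1 else 0) else jacobiSym m p) := by
  unfold kr DD
  by_cases h2 : p = 2
  · subst h2
    rw [if_pos rfl, if_pos rfl]
    by_cases h4 : m % 4 = 1
    · rw [if_pos h4, if_neg (by omega)]
      by_cases h8 : m % 8 = 1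
      · rw [if_pos h8, if_pos h8]
      · rw [if_neg h8, if_neg h8, if_pos (by omega)]
    · rw [if_neg h4, if_pos (by omega), if_neg (by omega), if_neg (by omega)]
  · rw [if_neg h2, if_neg h2]
    split_ifs with h4
    · rfl
    · rw [jacobiSym.mul_left]
      have h5 : jacobiSym 4 p = 1 := by
        have : (4 : ℤ) = 2 ^ 2 := by norm_num
        rw [this]
        refine jacobiSym.sq_one' ?_
        rw [Int.gcd_comm]
        have : Int.gcd (p : ℤ) 2 = Nat.gcd p 2 := by simp [Int.gcd]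
        rw [this]
        exact (Nat.coprime_primes hp Nat.prime_two).2 h2
      rw [h5, one_mul]

/-- the Dirichlet series of the twist and the L-function of the curve -/
theorem Lf_of {q : ℕ} [NeZero q] {ψ : DirichletCharacter ℂ q} {m : ℤ} (hm : Squarefree m)
    (hψ : ∀ p : ℕ, p.Prime → ψ (p : ZMod q) = (kr (DD m) p : ℂ)) {Λ : ℂ → ℂ}
    (hL : Pool.Agent.Y700.IsL (WM m) Λ) : IsLf f17 ψ (fun s => Λ (s + 1 / 2)) := by
  refine ⟨hL.1.comp (differentiable_id.add_const _), fun s hs => ?_⟩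
  have hs' : (3 : ℝ) / 2 < (s + 1 / 2).re := by
    have : (s + 1 / 2).re = s.re + 1 / 2 := by simp
    rw [this]
    linarith
  have h1 := cf_euler eigen17 ψ (s + 1 / 2) hs'
  have h2 := hL.2 (s + 1 / 2) hs'
  have h3 : (fun p : Nat.Primes => (1 - (ap (WM m) p : ℂ) * ((p : ℕ) : ℂ) ^ (-(s + 1 / 2)) +
      (if ((p : ℕ) : ℤ) ∣ (WM m).Δ then 0 else ((p : ℕ) : ℂ) ^ (1 - 2 * (s + 1 / 2))))⁻¹) =
      (fun p : Nat.Primes => (1 - (ap E17 p : ℂ) * ψ p * ((p : ℕ) : ℂ) ^ (-(s + 1 / 2)) +
        (if (p : ℕ) ∣ 17 then 0 else ((p : ℕ) : ℂ)) * (ψ p) ^ 2 *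
          ((p : ℕ) : ℂ) ^ (-2 * (s + 1 / 2)))⁻¹) := by
    funext p
    have hp := p.2
    have hp0 : ((p : ℕ) : ℂ) ≠ 0 := by exact_mod_cast hp.ne_zero
    congr 1
    have e1 : (ap (WM m) p : ℂ) = (ap E17 p : ℂ) * ψ p := by
      have h4 := parts.ap m hm p hp
      rw [hψ p hp, kr_DD hp, h4]
      push_cast
      rfl
    rw [e1]
    congr 1
    have e2 : ψ p = (kr (DD m) p : ℂ) := hψ p hp
    have e3 : ((p : ℕ) : ℤ) ∣ (WM m).Δ ↔ (p : ℕ) ∣ 17 ∨ (p : ℕ) ∣ Kn m := dvd_Delta hm.ne_zero hp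
    by_cases h17 : (p : ℕ) ∣ 17
    · rw [if_pos (e3.2 (Or.inl h17)), if_pos h17, zero_mul, zero_mul]
    · by_cases hK : (p : ℕ) ∣ Kn m
      · rw [if_pos (e3.2 (Or.inr hK)), e2]
        have hk : kr (DD m) p = 0 := by
          unfold kr
          have hd : ((p : ℕ) : ℤ) ∣ DD m := by
            rw [Pool.Agent.H743.X17.Kn_eq] at hK
            exact Int.natCast_dvd.2 hK
          by_cases hp2 : (p : ℕ) = 2
          · rw [if_pos hp2, if_pos]
            rw [hp2] at hd
            exact Int.emod_eq_zero_of_dvd hd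
          · rw [if_neg hp2, jacobiSym.eq_zero_iff]
            refine ⟨hp.ne_zero, fun hg => hp.one_lt.ne' ?_⟩
            have h9 : (p : ℕ) ∣ Int.gcd (DD m) p := Int.dvd_gcd hd (dvd_refl _)
            rw [hg] at h9
            exact Nat.dvd_one.1 h9
        rw [hk]
        norm_num
      · rw [if_neg (fun h => (e3.1 h).elim h17 hK), if_neg h17]
        have hk : ((kr (DD m) p : ℤ) : ℂ) ^ 2 = 1 := by
          have hk' : kr (DD m) p ^ 2 = 1 := by
            unfold kr
            have hd : ¬ ((p : ℕ) : ℤ) ∣ DD m := by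
              rw [Pool.Agent.H743.X17.Kn_eq] at hK
              exact fun h => hK (Int.natCast_dvd.1 h)
            by_cases hp2 : (p : ℕ) = 2
            · rw [if_pos hp2]
              rw [hp2] at hd
              have hd' : ¬ DD m % 2 = 0 := fun h => hd (by
                push_cast
                exact Int.dvd_of_emod_eq_zero h)
              rw [if_neg hd']
              split_ifs <;> norm_num
            · rw [if_neg hp2]
              refine jacobiSym.sq_one ?_
              rw [Int.gcd_comm]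
              have := (Nat.prime_iff_prime_int.1 hp).coprime_iff_not_dvd.2 hd
              exact Int.isCoprime_iff_gcd_eq_one.1 this
          exact_mod_cast hk'
        rw [e2, hk, mul_one]
        rw [show (1 - 2 * (s + 1 / 2) : ℂ) = 1 + -2 * (s + 1 / 2) by ring, Complex.cpow_add _ _ hp0,
          Complex.cpow_one]
  rw [h3] at h2
  have h4 := h1.unique h2
  have h5 := (cf_summable eigen17 ψ (s + 1 / 2) hs').of_norm.hasSum
  rw [h4] at h5
  exact h5

end Pool.Agent.H743.SN
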