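import Pool.Agent.H743.SN.Lib

/-!
# SN: root numbers, the obstruction and the positive proportion
-/

set_option autoImplicit false
set_option linter.all false

open scoped Classical

namespace Pool.Agent.H743.SN

open UpperHalfPlane MatrixGroups CongruenceSubgroup Filter Topology
open Pool.Agent.N809.M17 (f17 eigen17)
open Pool.Agent.H743.X17 (WM DD Kn dvd_Delta parts Rt Sys)
open Pool.Agent.N919.BS (core)
open Pool.Agent.H743.JL (tw)

theorem core_spec {D : ℤ} (hD : Fund D) : Squarefree (core D) ∧ DD (core D) = D := by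
  unfold core DD
  rcases hD with ⟨h5, h6⟩ | ⟨m, h5, h6, h7⟩
  · rw [if_pos (by omega), if_pos h6]
    exact ⟨h5, rfl⟩
  · rw [if_neg (by omega)]
    have e : D / 4 = m := by omega
    rw [e, if_neg (by omega)]
    exact ⟨h6, h5.symm⟩

theorem fund_DD {m : ℤ} (hm : Squarefree m) : Fund (DD m) := by
  unfold DD Fund
  split_ifs with h4
  · exact Or.inl ⟨hm, h4⟩
  · refine Or.inr ⟨m, rfl, hm, ?_⟩
    have h5 : m % 4 ≠ 0 := by
      intro h0
      have h6 : (2 : ℤ) * 2 ∣ m := by omega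
      have := hm 2 h6
      rw [Int.isUnit_iff] at this
      omega
    omega

theorem DD_sq (m : ℤ) : ∃ c : ℤ, c ≠ 0 ∧ DD m = c ^ 2 * m ∧ ¬ (17 : ℤ) ∣ c := by
  unfold DD
  split_ifs
  · exact ⟨1, one_ne_zero, by ring, by norm_num⟩
  · exact ⟨2, two_ne_zero, by ring, by norm_num⟩

/-! ### the sign -/

theorem jac_nat {a : ℕ} (ha : 0 < a) : jacobiSym (a : ℤ) (4 * a - 1) = 1 := by
  set n := 4 * a - 1 with hn
  have hn4 : n % 4 = 3 := by omega
  have hodd : Odd n := Nat.odd_iff.2 (by omega)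
  have h1 : jacobiSym ((4 * a : ℕ) : ℤ) n = 1 := by
    have e : (((4 * a : ℕ) : ℤ)) % n = 1 % n := by
      have : ((4 * a : ℕ) : ℤ) = n + 1 := by omega
      rw [this]
      simp
    rw [jacobiSym.mod_left, e, ← jacobiSym.mod_left, jacobiSym.one_left]
  push_cast at h1
  rw [jacobiSym.mul_left] at h1
  have h4 : jacobiSym 4 n = 1 := by
    have : (4 : ℤ) = 2 ^ 2 := by norm_num
    rw [this]
    refine jacobiSym.sq_one' ?_
    have : Int.gcd 2 (n : ℤ) = Nat.gcd 2 n := by simp [Int.gcd]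
    rw [this]
    exact Nat.coprime_two_left.2 hodd
  rwa [h4, one_mul] at h1

theorem kr_neg {D : ℤ} (hD : D ≠ 0) {p : ℕ} (hp : p.Prime) (hp2 : p ≠ 2)
    (h : p % (4 * D.natAbs) = 4 * D.natAbs - 1) : kr D p = if D < 0 then -1 else 1 := by
  have hn0 : 0 < D.natAbs := Int.natAbs_pos.2 hD
  have hodd : Odd p := hp.odd_of_ne_two hp2
  unfold kr
  rw [if_neg hp2, jacobiSym.mod_right _ hodd, h]
  have h1 := jac_nat hn0
  by_cases hneg : D < 0
  · rw [if_pos hneg]
    have e : D = -((D.natAbs : ℕ) : ℤ) := by omega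
    have ho : Odd (4 * D.natAbs - 1) := Nat.odd_iff.2 (by omega)
    nth_rw 1 [e]
    rw [jacobiSym.neg _ ho, h1, mul_one]
    exact ZMod.χ₄_nat_three_mod_four (by omega)
  · rw [if_neg hneg]
    have e : D = ((D.natAbs : ℕ) : ℤ) := by omega
    nth_rw 1 [e]
    exact h1

/-- the sign of the discriminant and the parity of the character -/
theorem odd_iff {q : ℕ} [NeZero q] {ψ : DirichletCharacter ℂ q} {D : ℤ} (hD : D ≠ 0)
    (hq : D.natAbs = q) (hψ : ∀ p : ℕ, p.Prime → ψ (p : ZMod q) = (kr D p : ℂ)) :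
    ψ (-1) = -1 ↔ D < 0 := by
  have hn0 : 0 < D.natAbs := Int.natAbs_pos.2 hD
  have hu : IsUnit ((-1 : ZMod (4 * D.natAbs))) := isUnit_one.neg
  haveI : NeZero (4 * D.natAbs) := ⟨by omega⟩
  obtain ⟨p, hp2, hp, hpm⟩ := Nat.forall_exists_prime_gt_and_eq_mod hu 2
  have h1 : p % (4 * D.natAbs) = 4 * D.natAbs - 1 := by
    have h2 : ((p : ℕ) : ZMod (4 * D.natAbs)) = ((4 * D.natAbs - 1 : ℕ) : ZMod (4 * D.natAbs)) := by
      rw [hpm, Nat.cast_sub (by omega)]
      simp
    have h3 := (ZMod.natCast_eq_natCast_iff' _ _ _).1 h2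
    rw [h3]
    exact Nat.mod_eq_of_lt (by omega)
  have h2 := kr_neg hD hp (by omega) h1
  have h3 : ((p : ℕ) : ZMod q) = -1 := by
    have h4 : q ∣ 4 * D.natAbs := by rw [hq]; exact Dvd.intro_left 4 rfl
    have h5 := congrArg (ZMod.castHom h4 (ZMod q)) hpm
    rw [map_natCast, map_neg, map_one] at h5
    exact h5
  rw [← h3, hψ p hp, h2]
  split_ifs with h
  · simp [h]
  · constructor
    · intro h6
      exfalso
      push_cast at h6
      norm_num at h6
    · intro h6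
      exact absurd h6 h

/-! ### the root numbers -/

theorem p17 : Nat.Prime 17 := by norm_num

theorem jac17 (a : ℤ) : jacobiSym a 17 = 0 ↔ (17 : ℤ) ∣ a := by
  rw [jacobiSym.eq_zero_iff]
  constructor
  · rintro ⟨-, h⟩
    by_contra h1
    exact h (Int.isCoprime_iff_gcd_eq_one.1
      ((Nat.prime_iff_prime_int.1 p17).coprime_iff_not_dvd.2 h1).symm)
  · intro h
    refine ⟨by norm_num, fun h1 => ?_⟩
    have h2 : 17 ∣ Int.gcd a 17 := Int.dvd_gcd h (dvd_refl _)
    rw [show ((17 : ℕ) : ℤ) = 17 from rfl] at h1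
    rw [h1] at h2
    norm_num at h2

theorem jac_cases (a : ℤ) : jacobiSym a 17 = 0 ∨ jacobiSym a 17 = 1 ∨ jacobiSym a 17 = -1 :=
  jacobiSym.trichotomy a 17

/-- one step of the obstruction -/
theorem obst1 {m m₁ m' : ℤ} (hm' : Squarefree m') (h1 : m₁ < 0)
    (h17 : jacobiSym m₁ 17 = 1) (hsq : IsSquare (m * m₁ * m')) (hm0 : 0 < m)
    (hJ : jacobiSym m 17 = 1) (hn : m' < 0) (hJ' : jacobiSym m' 17 ≠ 1) : False := by
  obtain ⟨k, hk⟩ := hsq
  have e : jacobiSym m 17 * jacobiSym m₁ 17 * jacobiSym m' 17 = jacobiSym k 17 ^ 2 := by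
    rw [← jacobiSym.mul_left, ← jacobiSym.mul_left, hk, jacobiSym.mul_left, sq]
  rw [hJ, h17, one_mul, one_mul] at e
  have h0 : jacobiSym m' 17 = 0 := by
    rcases jac_cases m' with h | h | h
    · exact h
    · exact absurd h hJ'
    · rw [h] at e
      nlinarith [sq_nonneg (jacobiSym k 17)]
  rw [h0] at e
  have hk0 : jacobiSym k 17 = 0 := by
    have := e.symm
    exact pow_eq_zero_iff two_ne_zero |>.1 this
  have d1 := (jac17 m').1 h0
  have d2 := (jac17 k).1 hk0
  have hp := Nat.prime_iff_prime_int.1 p17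
  have hp' : Prime (17 : ℤ) := hp
  have c1 : ¬ (17 : ℤ) ∣ m := fun h => by
    have := (jac17 m).2 h
    rw [hJ] at this
    norm_num at this
  have c2 : ¬ (17 : ℤ) ∣ m₁ := fun h => by
    have := (jac17 m₁).2 h
    rw [h17] at this
    norm_num at this
  obtain ⟨a, ha⟩ := d1
  obtain ⟨b, hb⟩ := d2
  have h3 : m * m₁ * a = 17 * (b * b) := by
    have : (17 : ℤ) * (m * m₁ * a) = 17 * (17 * (b * b)) := by
      rw [hb] at hk
      rw [ha] at hk
      linear_combination hk
    exact mul_left_cancel₀ (by norm_num) this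
  have h4 : (17 : ℤ) ∣ m * m₁ * a := ⟨_, h3⟩
  rcases hp'.dvd_or_dvd h4 with h5 | h5
  · rcases hp'.dvd_or_dvd h5 with h6 | h6
    · exact c1 h6
    · exact c2 h6
  · have h6 : (17 : ℤ) * 17 ∣ m' := by
      rw [ha]
      exact mul_dvd_mul_left 17 h5
    have := hm' 17 h6
    rw [Int.isUnit_iff] at this
    omega

/-- **the obstruction**: `17` splits in the imaginary quadratic field `ℚ(√m₁)` -/
theorem obst {m m₁ m' : ℤ} (hm : Squarefree m) (hm' : Squarefree m') (h1 : m₁ < 0)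
    (h17 : jacobiSym m₁ 17 = 1) (hsq : IsSquare (m * m₁ * m')) : ¬ (Rt m ∧ Rt m') := by
  have hm0 := hm.ne_zero
  have hm0' := hm'.ne_zero
  have hpos : 0 < m * m₁ * m' := by
    obtain ⟨k, hk⟩ := hsq
    have h0 : m * m₁ * m' ≠ 0 := mul_ne_zero (mul_ne_zero hm0 h1.ne) hm0'
    rw [hk] at h0 ⊢
    exact mul_self_pos.2 fun h => h0 (by rw [h, mul_zero])
  have hneg : m * m' < 0 := by
    by_contra h
    push Not at h
    nlinarith
  have hsq' : IsSquare (m' * m₁ * m) := by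
    have e : m' * m₁ * m = m * m₁ * m' := by ring
    rwa [e]
  rintro ⟨ha | ha, hb | hb⟩
  · nlinarith [ha.1, hb.1]
  · exact obst1 hm' h1 h17 hsq ha.1 ha.2 hb.1 hb.2
  · exact obst1 hm h1 h17 hsq' hb.1 hb.2 ha.1 ha.2
  · nlinarith [ha.1, hb.1]

/-- a twist with both root numbers `1` -/
theorem exists_rt {t : ℤ} (ht : Squarefree t) (h : ¬ (t < 0 ∧ jacobiSym t 17 = 1)) :
    ∃ d₀ : ℤ, Squarefree d₀ ∧ Rt d₀ ∧ Rt (tw t d₀) := by
  have ht0 := ht.ne_zero
  by_cases h1 : t < 0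
  · refine ⟨1, squarefree_one, Or.inl ⟨one_pos, by simp⟩, Or.inr ?_⟩
    have e : tw t 1 = t := by simp [tw]
    rw [e]
    exact ⟨h1, fun h2 => h ⟨h1, h2⟩⟩
  have hpos : 0 < t := by omega
  rcases jac_cases t with h2 | h2 | h2
  · -- `17 ∣ t`: `d₀ = -3`
    have hJ : jacobiSym (-3) 17 = -1 := by decide +kernel
    have hsq3 : Squarefree (-3 : ℤ) := by
      rw [← Int.squarefree_natAbs]
      exact (by norm_num : Nat.Prime 3).squarefree
    obtain ⟨hs, hd⟩ := Pool.Agent.H348.JL.t_TW t ht |>.1 (-3) hsq3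
    refine ⟨-3, hsq3, Or.inr ⟨by norm_num, by rw [hJ]; norm_num⟩, Or.inr ⟨?_, ?_⟩⟩
    · unfold tw
      have hg : 0 < (Int.gcd t (-3) : ℤ) := by
        have := Int.gcd_pos_of_ne_zero_left (-3) ht0
        exact_mod_cast this
      refine Int.ediv_neg_of_neg_of_pos ?_ (by positivity) |>.trans_le le_rfl
      nlinarith
    · intro h3
      have h4 : (17 : ℤ) ∣ tw t (-3) := by
        have h5 : (17 : ℤ) ∣ t := (jac17 t).1 h2
        unfold tw
        have hg : (Int.gcd t (-3) : ℤ) ^ 2 ∣ t * (-3) := by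
          rw [sq]
          exact mul_dvd_mul (Int.gcd_dvd_left t (-3)) (Int.gcd_dvd_right t (-3))
        obtain ⟨c, hc⟩ := hg
        have hg0 : (Int.gcd t (-3) : ℤ) ≠ 0 := by
          have := Int.gcd_pos_of_ne_zero_left (-3) ht0
          exact_mod_cast this.ne'
        rw [hc, Int.mul_ediv_cancel_left _ (pow_ne_zero 2 hg0)]
        have hp : Prime (17 : ℤ) := Nat.prime_iff_prime_int.1 p17
        have h6 : (17 : ℤ) ∣ (Int.gcd t (-3) : ℤ) ^ 2 * c := by
          rw [← hc]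
          exact Dvd.dvd.mul_right h5 _
        rcases hp.dvd_or_dvd h6 with h7 | h7
        · exfalso
          have h8 := hp.dvd_of_dvd_pow h7
          have h9 : (17 : ℤ) ∣ -3 := h8.trans (Int.gcd_dvd_right t (-3))
          norm_num at h9
        · exact h7
      have h5 := (jac17 _).2 h4
      rw [h3] at h5
      norm_num at h5
  · refine ⟨1, squarefree_one, Or.inl ⟨one_pos, by simp⟩, Or.inl ?_⟩
    have e : tw t 1 = t := by simp [tw]
    rw [e]
    exact ⟨hpos, h2⟩
  · -- `d₀ = -17`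
    have hsq17 : Squarefree (-17 : ℤ) := by
      rw [← Int.squarefree_natAbs]
      exact p17.squarefree
    have hJ : jacobiSym (-17) 17 = 0 := (jac17 _).2 ⟨-1, by norm_num⟩
    have h5 : ¬ (17 : ℤ) ∣ t := fun h3 => by
      have := (jac17 t).2 h3
      rw [h2] at this
      norm_num at this
    have hg : Int.gcd t (-17) = 1 := by
      rw [Int.gcd_neg]
      exact Int.isCoprime_iff_gcd_eq_one.1
        ((Nat.prime_iff_prime_int.1 p17).coprime_iff_not_dvd.2 h5).symm
    have e : tw t (-17) = t * (-17) := by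
      unfold tw
      rw [hg]
      norm_num
    refine ⟨-17, hsq17, Or.inr ⟨by norm_num, by rw [hJ]; norm_num⟩, Or.inr ⟨?_, ?_⟩⟩
    · rw [e]; nlinarith
    · rw [e, (jac17 _).2 ⟨-t, by ring⟩]
      norm_num

end Pool.Agent.H743.SN
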