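import Pool.Agent.H743.SN.Conv

/-!
# SN: a positive proportion for one twist, family given by residues and the sign
-/

set_option autoImplicit false
set_option linter.all false

open scoped Classical

namespace Pool.Agent.H743.SN

open Finset Filter Topology
open Pool.Agent.N916.GB (eta)
open Pool.Agent.N855.GF.Lc17 (Lc low_P close_NF)
open Pool.Agent.N919.BS (NF HG core)
open Pool.Agent.H743.JL
open Pool.Agent.H225.JX

theorem one_fam {K : ℤ → Prop} (hneg : ∀ m, K m → m < 0) {r : ℕ} (hr : 0 < r)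
    (hK : ∀ a b : ℤ, (r : ℤ) ∣ a - b → (a < 0 ↔ b < 0) → (K a ↔ K b)) {m₁ : ℤ}
    (hm₁ : Squarefree m₁) (h₁ : K m₁) {t : ℤ} (ht : Squarefree t) :
    ∃ (δ : ℝ) (X₀ : ℕ), 0 < δ ∧ ∀ X : ℕ, X₀ ≤ X →
      δ * X ≤ (NF (fun d => K (tw t d) ∧ H4 (tw t d)) X : ℝ) := by
  obtain ⟨m, hm⟩ : ∃ m : ℕ, m = 136 * (r * t.natAbs) := ⟨_, rfl⟩
  have hmpos : 0 < m := by
    rw [hm]
    exact Nat.mul_pos (by norm_num) (Nat.mul_pos hr (Int.natAbs_pos.2 ht.ne_zero))
  have h136 : 136 ∣ m := by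
    rw [hm]
    exact Dvd.intro _ rfl
  have hta : t ∣ ((t.natAbs : ℕ) : ℤ) := Int.dvd_natAbs.2 dvd_rfl
  have hrt : (r : ℤ) * t ∣ (m : ℤ) := by
    rw [hm]
    push_cast
    refine Dvd.dvd.mul_left (mul_dvd_mul dvd_rfl ?_) _
    simpa using hta
  have htm : t ∣ (m : ℤ) := (Dvd.intro_left _ rfl).trans hrt
  have hQ : Lc m (fun d => K (tw t d)) := by
    intro s k M N hs hk hM hN e1 e2 e3
    have h1 := lc_sign ht.ne_zero m s k M N hs hk hM hN e1 e2 e3
    have h2 : (m : ℤ) ∣ (M : ℤ) - N := by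
      have h3 : (M : ℤ) % m = (N : ℤ) % m := by exact_mod_cast e3
      exact Int.ModEq.dvd h3.symm
    have h4 : (r : ℤ) * t ∣ s * ((k * M : ℕ) : ℤ) - s * ((k * N : ℕ) : ℤ) := by
      have e : s * ((k * M : ℕ) : ℤ) - s * ((k * N : ℕ) : ℤ) = s * k * ((M : ℤ) - N) := by
        push_cast
        ring
      rw [e]
      exact Dvd.dvd.mul_left (hrt.trans h2) _
    exact hK _ _ (tw_mod ht.ne_zero h4) h1
  have hd : Squarefree (tw t m₁) := tw_sqf ht hm₁
  have hd₀ : K (tw t (tw t m₁)) := by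
    rw [tw_tw_self ht hm₁]
    exact h₁
  obtain ⟨c, X₀, hc, hlow⟩ := low_P (Dvd.dvd.trans (by norm_num) h136) hmpos hQ hd hd₀
  have hHJ := Pool.Agent.H628.JX.HJ2.t_HJ2 (Pool.Agent.H743.JL.lv2 Pool.Agent.H348.JL.t_SE)
    Pool.Agent.H955.JL.TT.t_TT
  have hG := base2 hHJ {Sum.inr t} m (fun d => K (tw t d)) h136 hmpos (by
      intro x hx
      rw [mem_singleton] at hx
      subst hx
      exact ⟨ht, htm⟩) hQ (by
      intro d _ hq x hx
      rw [mem_singleton] at hx
      subst hx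
      rw [Ro_inr]
      exact hneg _ hq)
  rw [prod_singleton, ck_inr] at hG
  have he : 0 < eta := by
    have := Pool.Agent.N916.GB.eta_bounds.1
    have h2 : (0.2887 : ℝ) < eta := this
    linarith
  obtain ⟨X₁, h5⟩ := close_NF hG (eta * c / 2) (by positivity)
  refine ⟨eta * c / 2, max X₀ X₁, by positivity, fun X hX => ?_⟩
  have b1 := (hlow X ((le_max_left _ _).trans hX)).1
  have b2 := (abs_le.1 (h5 X ((le_max_right _ _).trans hX))).1
  have b3 : NF (fun d => K (tw t d) ∧ Pt2 {Sum.inr t} ∅ d) X =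
      NF (fun d => K (tw t d) ∧ H4 (tw t d)) X := by
    refine NF_congr' (fun d _ => and_congr_right fun _ => ?_) X
    constructor
    · intro h
      have := h.1 (Sum.inr t) (mem_singleton_self _)
      rwa [Kd_inr] at this
    · intro h
      refine ⟨fun x hx => ?_, fun x hx => absurd hx (notMem_empty x)⟩
      rw [mem_singleton] at hx
      subst hx
      rwa [Kd_inr]
  rw [b3] at b2
  have b4 : eta * (c * X) ≤ eta * (NF (fun d => K (tw t d)) X : ℝ) :=
    mul_le_mul_of_nonneg_left b1 he.le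
  nlinarith

end Pool.Agent.H743.SN
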