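import Pool.Agent.H743.SN.Cnt

/-!
# SN: the proportion of the quadratic characters, ordered by the conductor
-/

set_option autoImplicit false
set_option linter.all false

open scoped Classical

namespace Pool.Agent.H743.SN

open Filter Topology
open Pool.Agent.H743.X17 (DD Rt Sys)
open Pool.Agent.N919.BS (core NF Fund HG)
open Pool.Agent.H743.JL (tw)
open Pool.Agent.Y703.CQ (c2)
open Pool.Agent.N855.GF.Lc17 (Lc low_P close_NF)

theorem core_DD {m : ℤ} (hm : Squarefree m) : core (DD m) = m := by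
  obtain ⟨h1, h2⟩ := core_spec (fund_DD hm)
  exact DD_inj h1 hm h2

/-- the joint law for the fundamental discriminants -/
theorem joint_NF (T : Finset ℤ) (hT : ∀ t ∈ T, Squarefree t) {d₀ : ℤ} (hd : Squarefree d₀)
    (hR : ∀ t ∈ T, Rt (tw t d₀)) :
    (∃ (δ : ℝ) (X₀ : ℕ), 0 < δ ∧ ∀ X : ℕ, X₀ ≤ X →
      δ * X ≤ (NF (fun d => ∀ t ∈ T, Rt (tw t d)) X : ℝ)) ∧
    ∀ ε : ℝ, 0 < ε → ∃ X₀ : ℕ, ∀ X : ℕ, X₀ ≤ X →
      |(NF (fun d => (∀ t ∈ T, Rt (tw t d)) ∧ ∀ t ∈ T, Sys (tw t d)) X : ℝ) -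
        c2 ^ T.card * (NF (fun d => ∀ t ∈ T, Rt (tw t d)) X : ℝ)| ≤ ε * X := by
  obtain ⟨m, hm⟩ : ∃ m : ℕ, m = 136 * ∏ t ∈ T, t.natAbs := ⟨_, rfl⟩
  have hmpos : 0 < m := by
    rw [hm]
    refine Nat.mul_pos (by norm_num) (Finset.prod_pos fun t ht => ?_)
    exact Int.natAbs_pos.2 (hT t ht).ne_zero
  have h136 : 136 ∣ m := by
    rw [hm]
    exact Dvd.intro _ rfl
  have hdvd : ∀ t ∈ T, 136 * t ∣ (m : ℤ) := by
    intro t ht
    rw [hm]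
    push_cast
    refine mul_dvd_mul (by norm_num) ?_
    have h3 : t ∣ ((t.natAbs : ℕ) : ℤ) := Int.dvd_natAbs.2 dvd_rfl
    have h4 : ((t.natAbs : ℕ) : ℤ) ∣ ∏ t ∈ T, ((t.natAbs : ℕ) : ℤ) := Finset.dvd_prod_of_mem _ ht
    have h5 := h3.trans h4
    simpa using h5
  have hQ : Lc m (fun d => ∀ t ∈ T, Rt (tw t d)) := by
    intro s k M N hs hk hM hN e1 e2 e3
    refine forall_congr' fun t => forall_congr' fun ht => ?_
    exact Pool.Agent.H721.JLLR.t_LR t m (hT t ht) (hdvd t ht) s k M N hs hk hM hN e1 e2 e3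
  obtain ⟨c, X₀, hc, hlow⟩ := low_P (Dvd.dvd.trans (by norm_num) h136) hmpos hQ hd hR
  refine ⟨⟨c, X₀, hc, fun X hX => (hlow X hX).1⟩, ?_⟩
  have hG := Pool.Agent.H743.JL.pt' Pool.Agent.H348.JL.t_SE T m _ h136 hmpos
    (fun t ht => ⟨hT t ht, (Dvd.intro_left _ rfl).trans (hdvd t ht)⟩) hQ
    (fun d _ hq => hq) T (Finset.Subset.refl T)
  rw [Finset.sdiff_self, Finset.card_empty, pow_zero, mul_one] at hG
  have e : (fun d : ℤ => ∀ t ∈ T, (Sys (tw t d) ↔ t ∈ T)) = fun d => ∀ t ∈ T, Sys (tw t d) := by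
    funext d
    exact propext ⟨fun h t ht => (h t ht).2 ht, fun h t ht => ⟨fun _ => ht, fun _ => h t ht⟩⟩
  rw [e] at hG
  exact close_NF hG

/-- the upper bound -/
theorem Cnt_le_NF {P : ∀ q : ℕ, DirichletCharacter ℂ q → Prop} {Q : ℤ → Prop}
    (h : ∀ (q : ℕ) [NeZero q] (ψ : DirichletCharacter ℂ q) (m : ℤ), IsQd ψ → Of ψ m → P q ψ → Q m)
    (X : ℕ) : Cnt P X ≤ NF Q X := by
  unfold NF
  rw [← Set.ncard_coe_finset]
  refine Set.ncard_le_ncard_of_injOn dsc ?_ (injo X P) (Finset.finite_toSet _)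
  rintro ⟨q, ψ⟩ ⟨h1, h2, h3, h4⟩
  have h1' : 1 ≤ q := h1
  have h2' : q ≤ X := h2
  haveI : NeZero q := ⟨by omega⟩
  obtain ⟨m, hm⟩ := cls h3.1 (qd_sq h3)
  have h5 := hm.2.1
  rw [dsc_spec hm, Finset.mem_coe, Finset.mem_filter, Finset.mem_Icc, core_DD hm.1]
  exact ⟨⟨by omega, by omega⟩, fund_DD hm.1, h q ψ m h3 hm h4⟩

/-- the lower bound -/
theorem NF_le_Cnt {P : ∀ q : ℕ, DirichletCharacter ℂ q → Prop} {Q : ℤ → Prop} (F : Finset ℤ)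
    (h : ∀ m : ℤ, Squarefree m → m ≠ 1 → m ∉ F → Q m → ∀ ψ : DirichletCharacter ℂ (DD m).natAbs,
      ψ.IsPrimitive → ψ ^ 2 = 1 → Of ψ m → P _ ψ) (X : ℕ) :
    NF Q X ≤ Cnt P X + (F.card + 1) := by
  have hch : ∀ m : ℤ, ∃ ψ : DirichletCharacter ℂ (DD m).natAbs, Squarefree m →
      (ψ.IsPrimitive ∧ ψ ^ 2 = 1 ∧ Of ψ m) := by
    intro m
    by_cases hm : Squarefree m
    · obtain ⟨ψ, h⟩ := ofx hm
      exact ⟨ψ, fun _ => h⟩
    · exact ⟨1, fun h => absurd h hm⟩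
  choose ψ hψ using hch
  set N : Finset ℤ := (Finset.Icc (-(X : ℤ)) X).filter fun D => Fund D ∧ Q (core D) with hN
  set G : Finset ℤ := (insert 1 F).image DD with hG
  have hGc : G.card ≤ F.card + 1 :=
    Finset.card_image_le.trans (Finset.card_insert_le _ _)
  have h1 : N.card - G.card ≤ (N \ G).card := Finset.le_card_sdiff G N
  have e : NF Q X = N.card := rfl
  have h2 : (N \ G).card ≤ Cnt P X := by
    rw [← Set.ncard_coe_finset]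
    refine Set.ncard_le_ncard_of_injOn (fun D : ℤ => (⟨(DD (core D)).natAbs, ψ (core D)⟩ :
      Σ q : ℕ, DirichletCharacter ℂ q)) ?_ ?_ (fin_set X P)
    · intro D hD
      rw [Finset.mem_coe, Finset.mem_sdiff, hN, Finset.mem_filter, Finset.mem_Icc] at hD
      obtain ⟨⟨h3, h4, h5⟩, h6⟩ := hD
      obtain ⟨h7, h8⟩ := core_spec h4
      obtain ⟨a1, a2, a3⟩ := hψ (core D) h7
      have h9 := DD_ne h7.ne_zero
      haveI : NeZero (DD (core D)).natAbs := ⟨by omega⟩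
      have h10 : core D ∉ insert 1 F := fun h' => h6 (by
        rw [hG, ← h8]
        exact Finset.mem_image_of_mem _ h')
      rw [Finset.mem_insert, not_or] at h10
      refine ⟨?_, ?_, qd_of a1 a2 fun h' => h10.1 ((of_one a1 a3).1 h'),
        h (core D) h7 h10.1 h10.2 h5 _ a1 a2 a3⟩
      · show 1 ≤ (DD (core D)).natAbs
        omega
      · show (DD (core D)).natAbs ≤ X
        rw [h8]
        omega
    · intro D hD D' hD' h'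
      rw [Finset.mem_coe, Finset.mem_sdiff, hN, Finset.mem_filter] at hD hD'
      obtain ⟨h7, h8⟩ := core_spec hD.1.2.1
      obtain ⟨h7', h8'⟩ := core_spec hD'.1.2.1
      have e1 := congrArg dsc h'
      simp only at e1
      rw [dsc_spec (hψ (core D) h7).2.2, dsc_spec (hψ (core D') h7').2.2, h8, h8'] at e1
      exact e1
  omega

/-- **the proportion** -/
theorem quant_T (T : Finset ℤ) (hTs : ∀ t ∈ T, Squarefree t) {d₀ : ℤ} (hd : Squarefree d₀)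
    (hTR : ∀ t ∈ T, Rt (tw t d₀)) (P A : ∀ q : ℕ, DirichletCharacter ℂ q → Prop)
    (hP : ∀ m : ℤ, Squarefree m → m ≠ 1 → m ∉ T → (∀ t ∈ T, Sys (tw t m)) →
      ∀ ψ : DirichletCharacter ℂ (DD m).natAbs, ψ.IsPrimitive → ψ ^ 2 = 1 → Of ψ m → P _ ψ)
    (hA : ∀ m : ℤ, Squarefree m → m ≠ 1 → (∀ t ∈ T, Rt (tw t m)) →
      ∀ ψ : DirichletCharacter ℂ (DD m).natAbs, ψ.IsPrimitive → ψ ^ 2 = 1 → Of ψ m → A _ ψ)
    (hA' : ∀ (q : ℕ) [NeZero q] (ψ : DirichletCharacter ℂ q) (m : ℤ), IsQd ψ → Of ψ m → A q ψ →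
      ∀ t ∈ T, Rt (tw t m)) :
    (∃ (δ : ℝ) (X₀ : ℕ), 0 < δ ∧ ∀ X : ℕ, X₀ ≤ X → δ * X ≤ (Cnt A X : ℝ)) ∧
    ∀ n : ℕ, T.card ≤ n → ∀ ε : ℝ, 0 < ε → ∃ X₀ : ℕ, ∀ X : ℕ, X₀ ≤ X →
      (c2 ^ n - ε) * (Cnt A X : ℝ) ≤ (Cnt P X : ℝ) := by
  obtain ⟨⟨c, X₁, hc, h1⟩, h2⟩ := joint_NF T hTs hd hTR
  have hlow : ∀ X : ℕ, NF (fun d => ∀ t ∈ T, Rt (tw t d)) X ≤ Cnt A X + 1 := by
    intro X
    have := NF_le_Cnt (P := A) (Q := fun d => ∀ t ∈ T, Rt (tw t d)) ∅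
      (fun m hm hm1 _ hQ ψ a1 a2 a3 => hA m hm hm1 hQ ψ a1 a2 a3) X
    simpa using this
  have hup : ∀ X : ℕ, Cnt A X ≤ NF (fun d => ∀ t ∈ T, Rt (tw t d)) X := fun X =>
    Cnt_le_NF hA' X
  have hgood : ∀ X : ℕ, NF (fun d => (∀ t ∈ T, Rt (tw t d)) ∧ ∀ t ∈ T, Sys (tw t d)) X ≤
      Cnt P X + (T.card + 1) := fun X =>
    NF_le_Cnt T (fun m hm hm1 hmT hQ ψ a1 a2 a3 => hP m hm hm1 hmT hQ.2 ψ a1 a2 a3) X
  have hAlow : ∃ (δ : ℝ) (X₀ : ℕ), 0 < δ ∧ ∀ X : ℕ, X₀ ≤ X → δ * X ≤ (Cnt A X : ℝ) := by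
    refine ⟨c / 2, max X₁ ⌈2 / c⌉₊, by positivity, fun X hX => ?_⟩
    have a1 := h1 X ((le_max_left _ _).trans hX)
    have a2 : 2 / c ≤ X := (Nat.le_ceil _).trans (by exact_mod_cast (le_max_right _ _).trans hX)
    rw [div_le_iff₀ hc] at a2
    have a3 : (NF (fun d => ∀ t ∈ T, Rt (tw t d)) X : ℝ) ≤ (Cnt A X : ℝ) + 1 := by
      exact_mod_cast hlow X
    nlinarith
  refine ⟨hAlow, fun n hn ε hε => ?_⟩
  obtain ⟨δ, X₂, hδ, h3⟩ := hAlow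
  obtain ⟨X₃, h4⟩ := h2 (ε * δ / 2) (by positivity)
  have hc0 : (0 : ℝ) < c2 := by
    have := Pool.Agent.H743.X17.c2_bounds.1
    linarith
  have hc1 : c2 ≤ 1 := by
    have := Pool.Agent.H743.X17.c2_bounds.2
    linarith
  refine ⟨max (max X₂ X₃) ⌈2 * ((T.card : ℝ) + 1) / (ε * δ)⌉₊, fun X hX => ?_⟩
  have b1 := h3 X ((le_max_left _ _).trans ((le_max_left _ _).trans hX))
  have b2 := h4 X ((le_max_right _ _).trans ((le_max_left _ _).trans hX))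
  have b3 : 2 * ((T.card : ℝ) + 1) / (ε * δ) ≤ X :=
    (Nat.le_ceil _).trans (by exact_mod_cast (le_max_right _ _).trans hX)
  rw [div_le_iff₀ (by positivity)] at b3
  have b4 : (Cnt A X : ℝ) ≤ (NF (fun d => ∀ t ∈ T, Rt (tw t d)) X : ℝ) := by exact_mod_cast hup X
  have b5 : (NF (fun d => (∀ t ∈ T, Rt (tw t d)) ∧ ∀ t ∈ T, Sys (tw t d)) X : ℝ) ≤
      (Cnt P X : ℝ) + (T.card + 1) := by exact_mod_cast hgood X
  have b6 : c2 ^ n ≤ c2 ^ T.card := pow_le_pow_of_le_one hc0.le hc1 hn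
  have b7 : c2 ^ n * (Cnt A X : ℝ) ≤ c2 ^ T.card * (NF (fun d => ∀ t ∈ T, Rt (tw t d)) X : ℝ) :=
    mul_le_mul b6 b4 (Nat.cast_nonneg _) (pow_nonneg hc0.le _)
  have b8 := (abs_le.1 b2).1
  have b9 : ε * δ * X ≤ ε * (Cnt A X : ℝ) := by
    rw [mul_assoc]
    exact mul_le_mul_of_nonneg_left b1 hε.le
  linarith

/-- **any number of factors** -/
theorem quant_chars (Ro : ∀ q : ℕ, DirichletCharacter ℂ q → Prop)
    (hRo : ∀ (q : ℕ) [NeZero q] (ψ : DirichletCharacter ℂ q) (m : ℤ), Of ψ m → (Ro q ψ ↔ Rt m))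
    {n : ℕ} {k : Fin n → ℕ} [∀ i, NeZero (k i)]
    (χ : ∀ i, DirichletCharacter ℂ (k i)) (hχ : ∀ i, (χ i).IsPrimitive ∧ (χ i) ^ 2 = 1)
    {e : ℕ} [NeZero e] (ψ₀ : DirichletCharacter ℂ e) (h1 : ψ₀.IsPrimitive) (h2 : ψ₀ ^ 2 = 1)
    (hR : ∀ i, Ro _ ((χ i).primitive_mul ψ₀)) :
    (∃ (δ : ℝ) (X₀ : ℕ), 0 < δ ∧ ∀ X : ℕ, X₀ ≤ X →
      δ * X ≤ (Cnt (fun _ ψ => ∀ i, Ro _ ((χ i).primitive_mul ψ)) X : ℝ)) ∧
    ∀ ε : ℝ, 0 < ε → ∃ X₀ : ℕ, ∀ X : ℕ, X₀ ≤ X →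
      (c2 ^ n - ε) * (Cnt (fun _ ψ => ∀ i, Ro _ ((χ i).primitive_mul ψ)) X : ℝ) ≤
        (Cnt (fun _ ψ => ∀ i, NV ((χ i).primitive_mul ψ)) X : ℝ) := by
  have hch : ∀ i, ∃ t : ℤ, Of (χ i) t := fun i => cls (hχ i).1 (hχ i).2
  choose t ht using hch
  obtain ⟨d₀, hd₀⟩ := cls h1 h2
  set T : Finset ℤ := Finset.univ.image t with hT
  have hTs : ∀ a ∈ T, Squarefree a := by
    intro a ha
    obtain ⟨i, -, rfl⟩ := Finset.mem_image.1 ha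
    exact (ht i).1
  have hTR : ∀ a ∈ T, Rt (tw a d₀) := by
    intro a ha
    obtain ⟨i, -, rfl⟩ := Finset.mem_image.1 ha
    haveI : NeZero ((χ i).mul ψ₀).conductor := neCond
    exact (hRo _ _ _ (pm_of (hχ i).2 h2 (ht i) hd₀)).1 (hR i)
  have hcard : T.card ≤ n := by
    have := Finset.card_image_le (s := (Finset.univ : Finset (Fin n))) (f := t)
    rwa [Finset.card_univ, Fintype.card_fin] at this
  have key := quant_T T hTs hd₀.1 hTR (fun _ ψ => ∀ i, NV ((χ i).primitive_mul ψ))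
    (fun _ ψ => ∀ i, Ro _ ((χ i).primitive_mul ψ))
    (fun m hm hm1 hmT hS ψ a1 a2 a3 i => by
      haveI : NeZero (DD m).natAbs := ⟨fun h => DD_ne hm.ne_zero (Int.natAbs_eq_zero.1 h)⟩
      haveI : NeZero ((χ i).mul ψ).conductor := neCond
      have hi : t i ∈ T := Finset.mem_image_of_mem _ (Finset.mem_univ i)
      refine nv_sys (pm_of (hχ i).2 a2 (ht i) a3) (fun h => hmT ?_) (hS _ hi)
      rw [tw_one_iff (ht i).1 hm h]
      exact hi)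
    (fun m hm hm1 hS ψ a1 a2 a3 i => by
      haveI : NeZero (DD m).natAbs := ⟨fun h => DD_ne hm.ne_zero (Int.natAbs_eq_zero.1 h)⟩
      haveI : NeZero ((χ i).mul ψ).conductor := neCond
      exact (hRo _ _ _ (pm_of (hχ i).2 a2 (ht i) a3)).2
        (hS _ (Finset.mem_image_of_mem _ (Finset.mem_univ i))))
    (fun q _ ψ m hψ hm hAll a ha => by
      obtain ⟨i, -, rfl⟩ := Finset.mem_image.1 ha
      haveI : NeZero ((χ i).mul ψ).conductor := neCond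
      exact (hRo _ _ _ (pm_of (hχ i).2 (qd_sq hψ) (ht i) hm)).1 (hAll i))
  exact ⟨key.1, key.2 n hcard⟩

end Pool.Agent.H743.SN
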