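import Pool.Agent.H743.SN.L21

/-!
# SN: the proportion of the quadratic characters for the levels 17 and 21
-/

set_option autoImplicit false
set_option linter.all false

open scoped Classical

namespace Pool.Agent.H743.SN

open Filter Topology
open Pool.Agent.H743.X17 (DD Rt Sys)
open Pool.Agent.N919.BS (core NF Fund HG)
open Pool.Agent.H743.JL (tw H4)
open Pool.Agent.Y703.CQ (c2)
open Pool.Agent.N916.GB (eta)
open Pool.Agent.N855.GF.Lc17 (Lc low_P close_NF)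

/-- the class for the level 21 -/
def K' (m : ℤ) : Prop := m < 0 ∧ m % 3 ≠ 1 ∧ (m % 7 = 0 ∨ m % 7 = 1 ∨ m % 7 = 2 ∨ m % 7 = 4)

theorem K'.k21 {m : ℤ} (h : K' m) (hm : Squarefree m) : Pool.Agent.H114.X21.K21 m :=
  ⟨h.1, hm, h.2.1, h.2.2⟩

/-- the residues of a twist -/
theorem tw_mod {t d d' : ℤ} {r : ℤ} (ht : t ≠ 0) (h : r * t ∣ d - d') :
    r ∣ tw t d - tw t d' := by
  have h1 : t ∣ d - d' := (Dvd.intro_left r rfl).trans h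
  have hg : Int.gcd t d = Int.gcd t d' := by
    obtain ⟨k, hk⟩ := h1
    have : d = d' + t * k := by linarith
    rw [this]
    exact Int.gcd_add_mul_left_right t d' k
  obtain ⟨g, hgd⟩ : ∃ g : ℤ, g = (Int.gcd t d : ℤ) := ⟨_, rfl⟩
  have hg0 : g ≠ 0 := by
    rw [hgd]
    have := Int.gcd_pos_of_ne_zero_left d ht
    exact_mod_cast this.ne'
  obtain ⟨t', ht'⟩ : g ∣ t := by rw [hgd]; exact Int.gcd_dvd_left t d
  obtain ⟨e, he⟩ : g ∣ d := by rw [hgd]; exact Int.gcd_dvd_right t d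
  obtain ⟨e', he'⟩ : g ∣ d' := by rw [hgd, hg]; exact Int.gcd_dvd_right t d'
  have hg2 : g ^ 2 ≠ 0 := pow_ne_zero 2 hg0
  have a1 : tw t d = t' * e := by
    unfold tw
    rw [← hgd]
    refine Int.ediv_eq_of_eq_mul_right hg2 ?_
    calc t * d = (g * t') * (g * e) := by rw [← ht', ← he]
      _ = g ^ 2 * (t' * e) := by ring
  have a2 : tw t d' = t' * e' := by
    unfold tw
    rw [← hg, ← hgd]
    refine Int.ediv_eq_of_eq_mul_right hg2 ?_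
    calc t * d' = (g * t') * (g * e') := by rw [← ht', ← he']
      _ = g ^ 2 * (t' * e') := by ring
  rw [a1, a2, ← mul_sub]
  have h2 : g * (r * t') ∣ g * (e - e') := by
    have e1 : g * (r * t') = r * t := by
      calc g * (r * t') = r * (g * t') := by ring
        _ = r * t := by rw [← ht']
    have e2 : g * (e - e') = d - d' := by
      calc g * (e - e') = g * e - g * e' := by ring
        _ = d - d' := by rw [← he, ← he']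
    rw [e1, e2]
    exact h
  have h3 := (mul_dvd_mul_iff_left hg0).1 h2
  exact Dvd.dvd.mul_left ((Dvd.intro _ rfl).trans h3) t'

theorem lc_K {t : ℤ} {m : ℕ} (ht : t ≠ 0) (hm : 21 * t ∣ (m : ℤ)) :
    Lc m (fun d => K' (tw t d)) := by
  intro s k M N hs hk hM hN e1 e2 e3
  have h1 := Pool.Agent.H225.JX.lc_sign ht m s k M N hs hk hM hN e1 e2 e3
  have h2 : (m : ℤ) ∣ (M : ℤ) - N := by
    have h3 : (M : ℤ) % m = (N : ℤ) % m := by exact_mod_cast e3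
    exact Int.ModEq.dvd h3.symm
  have h4 : 21 * t ∣ s * ((k * M : ℕ) : ℤ) - s * ((k * N : ℕ) : ℤ) := by
    have e : s * ((k * M : ℕ) : ℤ) - s * ((k * N : ℕ) : ℤ) = s * k * ((M : ℤ) - N) := by
      push_cast
      ring
    rw [e]
    exact Dvd.dvd.mul_left (hm.trans h2) _
  have h5 := tw_mod (r := 21) ht h4
  simp only at h1
  unfold K'
  refine and_congr h1 ?_
  obtain ⟨c, hc⟩ := h5
  generalize tw t (s * ((k * M : ℕ) : ℤ)) = A at *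
  generalize tw t (s * ((k * N : ℕ) : ℤ)) = B at *
  refine and_congr ?_ ?_ <;> omega

/-- the joint law for the fundamental discriminants -/
theorem joint2 (T T' : Finset ℤ) (hT : ∀ t ∈ T, Squarefree t) (hT' : ∀ t ∈ T', Squarefree t)
    {d₀ : ℤ} (hd : Squarefree d₀) (hR : ∀ t ∈ T, Rt (tw t d₀)) (hR' : ∀ t ∈ T', K' (tw t d₀)) :
    (∃ (δ : ℝ) (X₀ : ℕ), 0 < δ ∧ ∀ X : ℕ, X₀ ≤ X →
      δ * X ≤ (NF (fun d => (∀ t ∈ T, Rt (tw t d)) ∧ ∀ t ∈ T', K' (tw t d)) X : ℝ)) ∧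
    ∀ ε : ℝ, 0 < ε → ∃ X₀ : ℕ, ∀ X : ℕ, X₀ ≤ X →
      |(NF (fun d => ((∀ t ∈ T, Rt (tw t d)) ∧ ∀ t ∈ T', K' (tw t d)) ∧
          ((∀ t ∈ T, Sys (tw t d)) ∧ ∀ t ∈ T', H4 (tw t d))) X : ℝ) -
        c2 ^ T.card * eta ^ T'.card *
          (NF (fun d => (∀ t ∈ T, Rt (tw t d)) ∧ ∀ t ∈ T', K' (tw t d)) X : ℝ)| ≤ ε * X := by
  obtain ⟨m, hm⟩ : ∃ m : ℕ, m = 136 * 21 * ((∏ t ∈ T, t.natAbs) * ∏ t ∈ T', t.natAbs) := ⟨_, rfl⟩
  have hmpos : 0 < m := by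
    rw [hm]
    refine Nat.mul_pos (by norm_num) (Nat.mul_pos (Finset.prod_pos fun t ht => ?_)
      (Finset.prod_pos fun t ht => ?_))
    · exact Int.natAbs_pos.2 (hT t ht).ne_zero
    · exact Int.natAbs_pos.2 (hT' t ht).ne_zero
  have h136 : 136 ∣ m := by
    rw [hm, mul_assoc]
    exact Dvd.intro _ rfl
  have hda : ∀ t ∈ T, (136 * 21) * t ∣ (m : ℤ) := by
    intro t ht
    rw [hm]
    push_cast
    refine mul_dvd_mul (by norm_num) (Dvd.dvd.mul_right ?_ _)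
    have h3 : t ∣ ((t.natAbs : ℕ) : ℤ) := Int.dvd_natAbs.2 dvd_rfl
    have h4 : ((t.natAbs : ℕ) : ℤ) ∣ ∏ t ∈ T, ((t.natAbs : ℕ) : ℤ) := Finset.dvd_prod_of_mem _ ht
    simpa using h3.trans h4
  have hdb : ∀ t ∈ T', (136 * 21) * t ∣ (m : ℤ) := by
    intro t ht
    rw [hm]
    push_cast
    refine mul_dvd_mul (by norm_num) (Dvd.dvd.mul_left ?_ _)
    have h3 : t ∣ ((t.natAbs : ℕ) : ℤ) := Int.dvd_natAbs.2 dvd_rfl
    have h4 : ((t.natAbs : ℕ) : ℤ) ∣ ∏ t ∈ T', ((t.natAbs : ℕ) : ℤ) := Finset.dvd_prod_of_mem _ ht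
    simpa using h3.trans h4
  have hQ : Lc m (fun d => (∀ t ∈ T, Rt (tw t d)) ∧ ∀ t ∈ T', K' (tw t d)) := by
    intro s k M N hs hk hM hN e1 e2 e3
    refine and_congr ?_ ?_
    · refine forall_congr' fun t => forall_congr' fun ht => ?_
      refine Pool.Agent.H721.JLLR.t_LR t m (hT t ht) (Dvd.dvd.trans ⟨21, by ring⟩ (hda t ht))
        s k M N hs hk hM hN e1 e2 e3
    · refine forall_congr' fun t => forall_congr' fun ht => ?_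
      exact lc_K (hT' t ht).ne_zero (Dvd.dvd.trans ⟨136, by ring⟩ (hdb t ht)) s k M N hs hk hM hN
        e1 e2 e3
  obtain ⟨c, X₀, hc, hlow⟩ := low_P (Dvd.dvd.trans (by norm_num) h136) hmpos hQ hd ⟨hR, hR'⟩
  refine ⟨⟨c, X₀, hc, fun X hX => (hlow X hX).1⟩, ?_⟩
  have hHJ := Pool.Agent.H628.JX.HJ2.t_HJ2 (Pool.Agent.H743.JL.lv2 Pool.Agent.H348.JL.t_SE)
    Pool.Agent.H955.JL.TT.t_TT
  have hG := Pool.Agent.H225.JX.base2 hHJ (T.disjSum T') m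
    (fun d => (∀ t ∈ T, Rt (tw t d)) ∧ ∀ t ∈ T', K' (tw t d)) h136 hmpos (by
      intro x hx
      rw [Finset.mem_disjSum] at hx
      rcases hx with ⟨t, ht, rfl⟩ | ⟨t, ht, rfl⟩
      · exact ⟨hT t ht, (Dvd.intro_left _ rfl).trans (hda t ht)⟩
      · exact ⟨hT' t ht, (Dvd.intro_left _ rfl).trans (hdb t ht)⟩) hQ (by
      intro d _ hq x hx
      rw [Finset.mem_disjSum] at hx
      rcases hx with ⟨t, ht, rfl⟩ | ⟨t, ht, rfl⟩
      · exact (Pool.Agent.H225.JX.Ro_inl t _).2 (hq.1 t ht)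
      · exact (Pool.Agent.H225.JX.Ro_inr t _).2 (hq.2 t ht).1)
  have e : Pool.Agent.H225.JX.Pt2 (T.disjSum T') ∅ =
      fun d => (∀ t ∈ T, Sys (tw t d)) ∧ ∀ t ∈ T', H4 (tw t d) := by
    funext d
    refine propext ⟨fun h => ⟨fun t ht => ?_, fun t ht => ?_⟩, fun h => ⟨fun x hx => ?_, ?_⟩⟩
    · exact (Pool.Agent.H225.JX.Kd_inl t _).1 (h.1 _ (Finset.inl_mem_disjSum.2 ht))
    · exact (Pool.Agent.H225.JX.Kd_inr t _).1 (h.1 _ (Finset.inr_mem_disjSum.2 ht))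
    · rw [Finset.mem_disjSum] at hx
      rcases hx with ⟨t, ht, rfl⟩ | ⟨t, ht, rfl⟩
      · exact (Pool.Agent.H225.JX.Kd_inl t _).2 (h.1 t ht)
      · exact (Pool.Agent.H225.JX.Kd_inr t _).2 (h.2 t ht)
    · intro x hx
      exact absurd hx (Finset.notMem_empty x)
  have e2 : ∏ x ∈ T.disjSum T', Pool.Agent.H743.JL.ck (Pool.Agent.H225.JX.kd x) =
      c2 ^ T.card * eta ^ T'.card := by
    rw [Finset.prod_disjSum]
    congr 1
    · rw [Finset.prod_congr rfl fun t _ => Pool.Agent.H225.JX.ck_inl t, Finset.prod_const]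
    · rw [Finset.prod_congr rfl fun t _ => Pool.Agent.H225.JX.ck_inr t, Finset.prod_const]
  rw [e, e2] at hG
  exact close_NF hG

/-- **the proportion** -/
theorem quant2_T (T T' : Finset ℤ) (hTs : ∀ t ∈ T, Squarefree t) (hTs' : ∀ t ∈ T', Squarefree t)
    {d₀ : ℤ} (hd : Squarefree d₀) (hTR : ∀ t ∈ T, Rt (tw t d₀)) (hTR' : ∀ t ∈ T', K' (tw t d₀))
    (P A : ∀ q : ℕ, DirichletCharacter ℂ q → Prop)
    (hP : ∀ m : ℤ, Squarefree m → m ≠ 1 → m ∉ T → (∀ t ∈ T, Sys (tw t m)) →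
      (∀ t ∈ T', K' (tw t m) ∧ H4 (tw t m)) →
      ∀ ψ : DirichletCharacter ℂ (DD m).natAbs, ψ.IsPrimitive → ψ ^ 2 = 1 → Of ψ m → P _ ψ)
    (hA : ∀ m : ℤ, Squarefree m → m ≠ 1 → (∀ t ∈ T, Rt (tw t m)) → (∀ t ∈ T', K' (tw t m)) →
      ∀ ψ : DirichletCharacter ℂ (DD m).natAbs, ψ.IsPrimitive → ψ ^ 2 = 1 → Of ψ m → A _ ψ)
    (hA' : ∀ (q : ℕ) [NeZero q] (ψ : DirichletCharacter ℂ q) (m : ℤ), IsQd ψ → Of ψ m → A q ψ →
      (∀ t ∈ T, Rt (tw t m)) ∧ ∀ t ∈ T', K' (tw t m)) :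
    (∃ (δ : ℝ) (X₀ : ℕ), 0 < δ ∧ ∀ X : ℕ, X₀ ≤ X → δ * X ≤ (Cnt A X : ℝ)) ∧
    ∀ n n' : ℕ, T.card ≤ n → T'.card ≤ n' → ∀ ε : ℝ, 0 < ε → ∃ X₀ : ℕ, ∀ X : ℕ, X₀ ≤ X →
      (c2 ^ n * eta ^ n' - ε) * (Cnt A X : ℝ) ≤ (Cnt (fun q ψ => A q ψ ∧ P q ψ) X : ℝ) := by
  obtain ⟨⟨c, X₁, hc, h1⟩, h2⟩ := joint2 T T' hTs hTs' hd hTR hTR'
  set Q : ℤ → Prop := fun d => (∀ t ∈ T, Rt (tw t d)) ∧ ∀ t ∈ T', K' (tw t d) with hQd
  have hlow : ∀ X : ℕ, NF Q X ≤ Cnt A X + 1 := by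
    intro X
    have := NF_le_Cnt (P := A) (Q := Q) ∅
      (fun m hm hm1 _ hQ ψ a1 a2 a3 => hA m hm hm1 hQ.1 hQ.2 ψ a1 a2 a3) X
    simpa using this
  have hup : ∀ X : ℕ, Cnt A X ≤ NF Q X := fun X => Cnt_le_NF hA' X
  have hgood : ∀ X : ℕ, NF (fun d => Q d ∧ ((∀ t ∈ T, Sys (tw t d)) ∧ ∀ t ∈ T', H4 (tw t d))) X ≤
      Cnt (fun q ψ => A q ψ ∧ P q ψ) X + (T.card + 1) := fun X =>
    NF_le_Cnt T (fun m hm hm1 hmT hQ ψ a1 a2 a3 => ⟨hA m hm hm1 hQ.1.1 hQ.1.2 ψ a1 a2 a3,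
      hP m hm hm1 hmT hQ.2.1 (fun t ht => ⟨hQ.1.2 t ht, hQ.2.2 t ht⟩) ψ a1 a2 a3⟩) X
  have hAlow : ∃ (δ : ℝ) (X₀ : ℕ), 0 < δ ∧ ∀ X : ℕ, X₀ ≤ X → δ * X ≤ (Cnt A X : ℝ) := by
    refine ⟨c / 2, max X₁ ⌈2 / c⌉₊, by positivity, fun X hX => ?_⟩
    have a1 := h1 X ((le_max_left _ _).trans hX)
    have a2 : 2 / c ≤ X := (Nat.le_ceil _).trans (by exact_mod_cast (le_max_right _ _).trans hX)
    rw [div_le_iff₀ hc] at a2
    have a3 : (NF Q X : ℝ) ≤ (Cnt A X : ℝ) + 1 := by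
      exact_mod_cast hlow X
    nlinarith
  refine ⟨hAlow, fun n n' hn hn' ε hε => ?_⟩
  obtain ⟨δ, X₂, hδ, h3⟩ := hAlow
  obtain ⟨X₃, h4⟩ := h2 (ε * δ / 2) (by positivity)
  have hc0 : (0 : ℝ) < c2 := by
    have := Pool.Agent.H743.X17.c2_bounds.1
    linarith
  have hc1 : c2 ≤ 1 := by
    have := Pool.Agent.H743.X17.c2_bounds.2
    linarith
  have he0 : (0 : ℝ) < eta := by
    have := Pool.Agent.N916.GB.eta_bounds.1
    linarith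
  have he1 : eta ≤ 1 := by
    have := Pool.Agent.N916.GB.eta_bounds.2
    linarith
  refine ⟨max (max X₂ X₃) ⌈2 * ((T.card : ℝ) + 1) / (ε * δ)⌉₊, fun X hX => ?_⟩
  have b1 := h3 X ((le_max_left _ _).trans ((le_max_left _ _).trans hX))
  have b2 := h4 X ((le_max_right _ _).trans ((le_max_left _ _).trans hX))
  have b3 : 2 * ((T.card : ℝ) + 1) / (ε * δ) ≤ X :=
    (Nat.le_ceil _).trans (by exact_mod_cast (le_max_right _ _).trans hX)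
  rw [div_le_iff₀ (by positivity)] at b3
  have b4 : (Cnt A X : ℝ) ≤ (NF Q X : ℝ) := by exact_mod_cast hup X
  have b5 : (NF (fun d => Q d ∧ ((∀ t ∈ T, Sys (tw t d)) ∧ ∀ t ∈ T', H4 (tw t d))) X : ℝ) ≤
      (Cnt (fun q ψ => A q ψ ∧ P q ψ) X : ℝ) + (T.card + 1) := by exact_mod_cast hgood X
  have b6 : c2 ^ n * eta ^ n' ≤ c2 ^ T.card * eta ^ T'.card :=
    mul_le_mul (pow_le_pow_of_le_one hc0.le hc1 hn) (pow_le_pow_of_le_one he0.le he1 hn')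
      (pow_nonneg he0.le _) (pow_nonneg hc0.le _)
  have b7 : c2 ^ n * eta ^ n' * (Cnt A X : ℝ) ≤ c2 ^ T.card * eta ^ T'.card * (NF Q X : ℝ) :=
    mul_le_mul b6 b4 (Nat.cast_nonneg _) (by positivity)
  have b8 := (abs_le.1 b2).1
  have b9 : ε * δ * X ≤ ε * (Cnt A X : ℝ) := by
    rw [mul_assoc]
    exact mul_le_mul_of_nonneg_left b1 hε.le
  linarith

end Pool.Agent.H743.SN
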