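import Pool.Agent.H743.SN.Quant2

/-!
# SN: the characters, levels 17 and 21
-/

set_option autoImplicit false
set_option linter.all false

open scoped Classical

namespace Pool.Agent.H743.SN

open Filter Topology
open Pool.Agent.H743.X17 (DD Rt Sys)
open Pool.Agent.H743.JL (tw H4)
open Pool.Agent.Y703.CQ (c2)
open Pool.Agent.N916.GB (eta)
open Pool.Agent.N402.MF21 (f21)

theorem DD_neg_iff (m : ℤ) : DD m < 0 ↔ m < 0 := by
  obtain ⟨c, hc, e, -⟩ := DD_sq m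
  have h2 : 0 < c ^ 2 := by positivity
  rw [e]
  constructor
  · intro h3
    by_contra h4
    push Not at h4
    have := mul_nonneg h2.le h4
    omega
  · intro h3
    exact mul_neg_of_pos_of_neg h2 h3

theorem neg_iff {q : ℕ} [NeZero q] {ψ : DirichletCharacter ℂ q} {m : ℤ} (h : Of ψ m) :
    ψ (-1) = -1 ↔ m < 0 := by
  rw [odd_iff (DD_ne h.1.ne_zero) h.2.1 h.2.2, DD_neg_iff]

theorem val_odd {q : ℕ} [NeZero q] {ψ : DirichletCharacter ℂ q} {m : ℤ} (h : Of ψ m) {p : ℕ}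
    (hp : p.Prime) (h2 : p ≠ 2) : ψ (p : ZMod q) = (jacobiSym m p : ℂ) := by
  have h3 := h.2.2 p hp
  rw [kr_DD hp, if_neg h2] at h3
  exact h3

/-- the condition for the level 21 -/
def Ad21 {q : ℕ} (ψ : DirichletCharacter ℂ q) : Prop := ψ (-1) = -1 ∧ ψ 3 ≠ 1 ∧ ψ 7 ≠ -1

theorem js3 (m : ℤ) : jacobiSym m 3 = 1 ↔ m % 3 = 1 := by
  have h1 : jacobiSym m 3 = jacobiSym (m % 3) 3 := jacobiSym.mod_left m 3
  rw [h1]
  have h2 : m % 3 = 0 ∨ m % 3 = 1 ∨ m % 3 = 2 := by omega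
  rcases h2 with h | h | h <;> rw [h] <;> decide +kernel

theorem js7 (m : ℤ) : jacobiSym m 7 ≠ -1 ↔ (m % 7 = 0 ∨ m % 7 = 1 ∨ m % 7 = 2 ∨ m % 7 = 4) := by
  have h1 : jacobiSym m 7 = jacobiSym (m % 7) 7 := jacobiSym.mod_left m 7
  rw [h1]
  have h2 : m % 7 = 0 ∨ m % 7 = 1 ∨ m % 7 = 2 ∨ m % 7 = 3 ∨ m % 7 = 4 ∨ m % 7 = 5 ∨ m % 7 = 6 := by
    omega
  rcases h2 with h | h | h | h | h | h | h <;> rw [h] <;> decide +kernel

theorem ad21_iff {q : ℕ} [NeZero q] {ψ : DirichletCharacter ℂ q} {m : ℤ} (h : Of ψ m) :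
    Ad21 ψ ↔ K' m := by
  have h3 : ψ 3 = (jacobiSym m 3 : ℂ) := by
    have := val_odd h Nat.prime_three (by norm_num)
    exact_mod_cast this
  have h7 : ψ 7 = (jacobiSym m 7 : ℂ) := by
    have := val_odd h (by norm_num : Nat.Prime 7) (by norm_num)
    exact_mod_cast this
  unfold Ad21 K'
  rw [neg_iff h, h3, h7]
  refine and_congr_right fun _ => and_congr ?_ ?_
  · rw [ne_eq, ne_eq, ← js3 m]
    exact not_congr (by exact_mod_cast Iff.rfl)
  · rw [← js7 m, ne_eq, ne_eq]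
    refine not_congr ?_
    have e : (-1 : ℂ) = ((-1 : ℤ) : ℂ) := by norm_num
    rw [e, Int.cast_inj]

/-- **any number of factors of both levels** -/
theorem quant_chars2 (Ro : ∀ q : ℕ, DirichletCharacter ℂ q → Prop)
    (hRo : ∀ (q : ℕ) [NeZero q] (ψ : DirichletCharacter ℂ q) (m : ℤ), Of ψ m → (Ro q ψ ↔ Rt m))
    {n n' : ℕ} {k : Fin n → ℕ} [∀ i, NeZero (k i)] {k' : Fin n' → ℕ} [∀ i, NeZero (k' i)]
    (χ : ∀ i, DirichletCharacter ℂ (k i)) (hχ : ∀ i, (χ i).IsPrimitive ∧ (χ i) ^ 2 = 1)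
    (χ' : ∀ i, DirichletCharacter ℂ (k' i)) (hχ' : ∀ i, (χ' i).IsPrimitive ∧ (χ' i) ^ 2 = 1)
    {e : ℕ} [NeZero e] (ψ₀ : DirichletCharacter ℂ e) (h1 : ψ₀.IsPrimitive) (h2 : ψ₀ ^ 2 = 1)
    (hR : ∀ i, Ro _ ((χ i).primitive_mul ψ₀)) (hR' : ∀ i, Ad21 ((χ' i).primitive_mul ψ₀)) :
    (∃ (δ : ℝ) (X₀ : ℕ), 0 < δ ∧ ∀ X : ℕ, X₀ ≤ X →
      δ * X ≤ (Cnt (fun _ ψ => (∀ i, Ro _ ((χ i).primitive_mul ψ)) ∧
        ∀ i, Ad21 ((χ' i).primitive_mul ψ)) X : ℝ)) ∧
    ∀ ε : ℝ, 0 < ε → ∃ X₀ : ℕ, ∀ X : ℕ, X₀ ≤ X →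
      (c2 ^ n * eta ^ n' - ε) * (Cnt (fun _ ψ => (∀ i, Ro _ ((χ i).primitive_mul ψ)) ∧
        ∀ i, Ad21 ((χ' i).primitive_mul ψ)) X : ℝ) ≤
        (Cnt (fun _ ψ => ((∀ i, Ro _ ((χ i).primitive_mul ψ)) ∧
            ∀ i, Ad21 ((χ' i).primitive_mul ψ)) ∧ ((∀ i, NV ((χ i).primitive_mul ψ)) ∧
          ∀ i, NVg f21 ((χ' i).primitive_mul ψ))) X : ℝ) := by
  have hch : ∀ i, ∃ t : ℤ, Of (χ i) t := fun i => cls (hχ i).1 (hχ i).2
  choose t ht using hch
  have hch' : ∀ i, ∃ t : ℤ, Of (χ' i) t := fun i => cls (hχ' i).1 (hχ' i).2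
  choose t' ht' using hch'
  obtain ⟨d₀, hd₀⟩ := cls h1 h2
  set T : Finset ℤ := Finset.univ.image t with hT
  set T' : Finset ℤ := Finset.univ.image t' with hT'
  have hTs : ∀ a ∈ T, Squarefree a := by
    intro a ha
    obtain ⟨i, -, rfl⟩ := Finset.mem_image.1 ha
    exact (ht i).1
  have hTs' : ∀ a ∈ T', Squarefree a := by
    intro a ha
    obtain ⟨i, -, rfl⟩ := Finset.mem_image.1 ha
    exact (ht' i).1
  have hTR : ∀ a ∈ T, Rt (tw a d₀) := by
    intro a ha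
    obtain ⟨i, -, rfl⟩ := Finset.mem_image.1 ha
    haveI : NeZero ((χ i).mul ψ₀).conductor := neCond
    exact (hRo _ _ _ (pm_of (hχ i).2 h2 (ht i) hd₀)).1 (hR i)
  have hTR' : ∀ a ∈ T', K' (tw a d₀) := by
    intro a ha
    obtain ⟨i, -, rfl⟩ := Finset.mem_image.1 ha
    haveI : NeZero ((χ' i).mul ψ₀).conductor := neCond
    exact (ad21_iff (pm_of (hχ' i).2 h2 (ht' i) hd₀)).1 (hR' i)
  have hcard : T.card ≤ n := by
    have := Finset.card_image_le (s := (Finset.univ : Finset (Fin n))) (f := t)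
    rwa [Finset.card_univ, Fintype.card_fin] at this
  have hcard' : T'.card ≤ n' := by
    have := Finset.card_image_le (s := (Finset.univ : Finset (Fin n'))) (f := t')
    rwa [Finset.card_univ, Fintype.card_fin] at this
  have key := quant2_T T T' hTs hTs' hd₀.1 hTR hTR'
    (fun _ ψ => (∀ i, NV ((χ i).primitive_mul ψ)) ∧ ∀ i, NVg f21 ((χ' i).primitive_mul ψ))
    (fun _ ψ => (∀ i, Ro _ ((χ i).primitive_mul ψ)) ∧ ∀ i, Ad21 ((χ' i).primitive_mul ψ))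
    (fun m hm hm1 hmT hS hS' ψ a1 a2 a3 => by
      haveI : NeZero (DD m).natAbs := ⟨fun h => DD_ne hm.ne_zero (Int.natAbs_eq_zero.1 h)⟩
      refine ⟨fun i => ?_, fun i => ?_⟩
      · haveI : NeZero ((χ i).mul ψ).conductor := neCond
        have hi : t i ∈ T := Finset.mem_image_of_mem _ (Finset.mem_univ i)
        refine nv_sys (pm_of (hχ i).2 a2 (ht i) a3) (fun h => hmT ?_) (hS _ hi)
        rw [tw_one_iff (ht i).1 hm h]
        exact hi
      · haveI : NeZero ((χ' i).mul ψ).conductor := neCond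
        have hi : t' i ∈ T' := Finset.mem_image_of_mem _ (Finset.mem_univ i)
        have h3 := hS' _ hi
        exact nv21 (pm_of (hχ' i).2 a2 (ht' i) a3) (h3.1.k21 (tw_sqf (ht' i).1 hm)) h3.2)
    (fun m hm hm1 hS hS' ψ a1 a2 a3 => by
      haveI : NeZero (DD m).natAbs := ⟨fun h => DD_ne hm.ne_zero (Int.natAbs_eq_zero.1 h)⟩
      refine ⟨fun i => ?_, fun i => ?_⟩
      · haveI : NeZero ((χ i).mul ψ).conductor := neCond
        exact (hRo _ _ _ (pm_of (hχ i).2 a2 (ht i) a3)).2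
          (hS _ (Finset.mem_image_of_mem _ (Finset.mem_univ i)))
      · haveI : NeZero ((χ' i).mul ψ).conductor := neCond
        exact (ad21_iff (pm_of (hχ' i).2 a2 (ht' i) a3)).2
          (hS' _ (Finset.mem_image_of_mem _ (Finset.mem_univ i))))
    (fun q _ ψ m hψ hm hAll => by
      refine ⟨fun a ha => ?_, fun a ha => ?_⟩
      · obtain ⟨i, -, rfl⟩ := Finset.mem_image.1 ha
        haveI : NeZero ((χ i).mul ψ).conductor := neCond
        exact (hRo _ _ _ (pm_of (hχ i).2 (qd_sq hψ) (ht i) hm)).1 (hAll.1 i)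
      · obtain ⟨i, -, rfl⟩ := Finset.mem_image.1 ha
        haveI : NeZero ((χ' i).mul ψ).conductor := neCond
        exact (ad21_iff (pm_of (hχ' i).2 (qd_sq hψ) (ht' i) hm)).1 (hAll.2 i))
  exact ⟨key.1, key.2 n n' hcard hcard'⟩

/-! ### two factors -/

theorem tw_self {s : ℤ} (h : Squarefree s) : tw s s = 1 :=
  (tw_of h h squarefree_one ⟨s, by ring⟩).symm

theorem tw_tw_self {s d : ℤ} (hs : Squarefree s) (hd : Squarefree d) : tw s (tw s d) = d := by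
  rw [tw_tw hs hs hd, tw_self hs]
  simp [tw]

theorem tw_tw_mix {s t d : ℤ} (hs : Squarefree s) (ht : Squarefree t) (hd : Squarefree d) :
    tw (tw s t) (tw s d) = tw t d := by
  have e1 : tw s t = tw t s := by
    unfold tw
    rw [mul_comm, Int.gcd_comm]
  rw [e1, ← tw_tw ht hs (tw_sqf hs hd), tw_tw_self hs hd]

/-- two factors, level 17 -/
theorem pair17 (Ro : ∀ q : ℕ, DirichletCharacter ℂ q → Prop)
    (hRo : ∀ (q : ℕ) [NeZero q] (ψ : DirichletCharacter ℂ q) (m : ℤ), Of ψ m → (Ro q ψ ↔ Rt m))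
    {e k : ℕ} [NeZero e] [NeZero k] {η : DirichletCharacter ℂ e}
    {χ : DirichletCharacter ℂ k} (hη : η ^ 2 = 1) (hχ : χ ^ 2 = 1) {s t : ℤ} (h1 : Of η s)
    (h2 : Of χ t) (h : ¬ (t < 0 ∧ jacobiSym t 17 = 1)) :
    (∃ (δ : ℝ) (X₀ : ℕ), 0 < δ ∧ ∀ X : ℕ, X₀ ≤ X → δ * X ≤ (Cnt (fun _ ψ =>
      Ro _ (η.primitive_mul ψ) ∧ Ro _ (η.primitive_mul (χ.primitive_mul ψ))) X : ℝ)) ∧
    ∀ ε : ℝ, 0 < ε → ∃ X₀ : ℕ, ∀ X : ℕ, X₀ ≤ X → (c2 ^ 2 - ε) * (Cnt (fun _ ψ =>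
      Ro _ (η.primitive_mul ψ) ∧ Ro _ (η.primitive_mul (χ.primitive_mul ψ))) X : ℝ) ≤
      (Cnt (fun _ ψ => (Ro _ (η.primitive_mul ψ) ∧ Ro _ (η.primitive_mul (χ.primitive_mul ψ))) ∧
        (NV (η.primitive_mul ψ) ∧ NV (η.primitive_mul (χ.primitive_mul ψ)))) X : ℝ) := by
  obtain ⟨d₁, hd, r1, r2⟩ := exists_rt h2.1 h
  have hst := tw_sqf h1.1 h2.1
  have key := quant2_T {s, tw s t} ∅ (d₀ := tw s d₁)
    (fun a ha => by
      rw [Finset.mem_insert, Finset.mem_singleton] at ha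
      rcases ha with rfl | rfl
      · exact h1.1
      · exact hst)
    (fun a ha => absurd ha (Finset.notMem_empty a)) (tw_sqf h1.1 hd)
    (fun a ha => by
      rw [Finset.mem_insert, Finset.mem_singleton] at ha
      rcases ha with rfl | rfl
      · rw [tw_tw_self h1.1 hd]; exact r1
      · rw [tw_tw_mix h1.1 h2.1 hd]; exact r2)
    (fun a ha => absurd ha (Finset.notMem_empty a))
    (fun _ ψ => NV (η.primitive_mul ψ) ∧ NV (η.primitive_mul (χ.primitive_mul ψ)))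
    (fun _ ψ => Ro _ (η.primitive_mul ψ) ∧ Ro _ (η.primitive_mul (χ.primitive_mul ψ)))
    (fun m hm hm1 hmT hS _ ψ a1 a2 a3 => by
      haveI : NeZero (DD m).natAbs := ⟨fun h => DD_ne hm.ne_zero (Int.natAbs_eq_zero.1 h)⟩
      haveI : NeZero (χ.mul ψ).conductor := neCond
      haveI : NeZero (η.mul ψ).conductor := neCond
      haveI : NeZero (η.mul (χ.primitive_mul ψ)).conductor := neCond
      rw [Finset.mem_insert, Finset.mem_singleton, not_or] at hmT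
      refine ⟨nv_sys (pm_of hη a2 h1 a3) (fun h => hmT.1 (tw_one_iff h1.1 hm h))
        (hS s (by simp)), ?_⟩
      have o2 := pm_of hη (pm_sq hχ a2) h1 (pm_of hχ a2 h2 a3)
      rw [tw_tw h1.1 h2.1 hm] at o2
      exact nv_sys o2 (fun h => hmT.2 (tw_one_iff hst hm h)) (hS (tw s t) (by simp)))
    (fun m hm hm1 hS _ ψ a1 a2 a3 => by
      haveI : NeZero (DD m).natAbs := ⟨fun h => DD_ne hm.ne_zero (Int.natAbs_eq_zero.1 h)⟩
      haveI : NeZero (χ.mul ψ).conductor := neCond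
      haveI : NeZero (η.mul ψ).conductor := neCond
      haveI : NeZero (η.mul (χ.primitive_mul ψ)).conductor := neCond
      have o2 := pm_of hη (pm_sq hχ a2) h1 (pm_of hχ a2 h2 a3)
      rw [tw_tw h1.1 h2.1 hm] at o2
      exact ⟨(hRo _ _ _ (pm_of hη a2 h1 a3)).2 (hS s (by simp)),
        (hRo _ _ _ o2).2 (hS (tw s t) (by simp))⟩)
    (fun q _ ψ m hψ hm hAll => by
      haveI : NeZero (χ.mul ψ).conductor := neCond
      haveI : NeZero (η.mul ψ).conductor := neCond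
      haveI : NeZero (η.mul (χ.primitive_mul ψ)).conductor := neCond
      refine ⟨fun a ha => ?_, fun a ha => absurd ha (Finset.notMem_empty a)⟩
      rw [Finset.mem_insert, Finset.mem_singleton] at ha
      rcases ha with rfl | rfl
      · exact (hRo _ _ _ (pm_of hη (qd_sq hψ) h1 hm)).1 hAll.1
      · have o2 := pm_of hη (pm_sq hχ (qd_sq hψ)) h1 (pm_of hχ (qd_sq hψ) h2 hm)
        rw [tw_tw h1.1 h2.1 hm.1] at o2
        exact (hRo _ _ _ o2).1 hAll.2)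
  refine ⟨key.1, ?_⟩
  have k2 := key.2 2 0 Finset.card_le_two (by simp)
  rw [pow_zero, mul_one] at k2
  exact k2

theorem tw_dvd {t d p : ℤ} (hp : Prime p) (ht : Squarefree t) (hd : Squarefree d)
    (h : ¬ (p ∣ t ↔ p ∣ d)) : p ∣ tw t d := by
  obtain ⟨g, hg, e⟩ := tw_mul (t := t) (m := d) ht.ne_zero
  by_contra hn
  have h1 : p ∣ t * d := by
    by_cases h2 : p ∣ t
    · exact Dvd.dvd.mul_right h2 d
    · exact Dvd.dvd.mul_left (by tauto) t
  rw [e] at h1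
  have h2 : p ∣ g := hp.dvd_of_dvd_pow ((hp.dvd_or_dvd h1).resolve_right hn)
  have h3 : p ^ 2 ∣ t * d := by
    rw [e]
    exact Dvd.dvd.mul_right (pow_dvd_pow_of_dvd h2 2) _
  by_cases h4 : p ∣ t
  · have h5 : ¬ p ∣ d := fun h6 => h ⟨fun _ => h6, fun _ => h4⟩
    have h6 := hp.pow_dvd_of_dvd_mul_right 2 h5 h3
    rw [sq] at h6
    exact hp.not_unit (ht p h6)
  · have h6 := hp.pow_dvd_of_dvd_mul_left 2 h4 h3
    rw [sq] at h6
    exact hp.not_unit (hd p h6)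

theorem sqf_of {n : ℤ} {k : ℕ} (h : n.natAbs = k) (hk : Squarefree k) : Squarefree n :=
  Int.squarefree_natAbs.1 (h ▸ hk)

/-- the class for the level 21 and a positive `t` -/
theorem exists_K {t : ℤ} (ht : Squarefree t) (h0 : 0 < t) :
    ∃ d : ℤ, Squarefree d ∧ K' d ∧ K' (tw t d) := by
  have p3 : Prime (3 : ℤ) := Nat.prime_iff_prime_int.1 Nat.prime_three
  have p7 : Prime (7 : ℤ) := Nat.prime_iff_prime_int.1 (by norm_num : Nat.Prime 7)
  have key : ∀ d : ℤ, Squarefree d → K' d → ¬ ((3 : ℤ) ∣ t ↔ (3 : ℤ) ∣ d) →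
      ¬ ((7 : ℤ) ∣ t ↔ (7 : ℤ) ∣ d) → K' (tw t d) := by
    intro d hd hK a b
    have a1 := tw_dvd p3 ht hd a
    have b1 := tw_dvd p7 ht hd b
    refine ⟨(Pool.Agent.H225.JX.tw_lt ht.ne_zero).2 (mul_neg_of_pos_of_neg h0 hK.1), ?_, ?_⟩
    · omega
    · omega
  by_cases h3 : (3 : ℤ) ∣ t
  · by_cases h7 : (7 : ℤ) ∣ t
    · have hs : Squarefree (-10 : ℤ) := sqf_of (k := 10) rfl (by decide +kernel)
      have hK : K' (-10) := by unfold K'; norm_num
      exact ⟨-10, hs, hK, key _ hs hK (by norm_num [h3]) (by norm_num [h7])⟩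
    · have hs : Squarefree (-7 : ℤ) := sqf_of (k := 7) rfl (by decide +kernel)
      have hK : K' (-7) := by unfold K'; norm_num
      exact ⟨-7, hs, hK, key _ hs hK (by norm_num [h3]) (by norm_num [h7])⟩
  · by_cases h7 : (7 : ℤ) ∣ t
    · have hs : Squarefree (-3 : ℤ) := sqf_of (k := 3) rfl (by decide +kernel)
      have hK : K' (-3) := by unfold K'; norm_num
      exact ⟨-3, hs, hK, key _ hs hK (by norm_num [h3]) (by norm_num [h7])⟩
    · have hs : Squarefree (-21 : ℤ) := sqf_of (k := 21) rfl (by decide +kernel)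
      have hK : K' (-21) := by unfold K'; norm_num
      exact ⟨-21, hs, hK, key _ hs hK (by norm_num [h3]) (by norm_num [h7])⟩

/-- two factors, level 21 -/
theorem pair21 {e k : ℕ} [NeZero e] [NeZero k] {η : DirichletCharacter ℂ e}
    {χ : DirichletCharacter ℂ k} (hη : η ^ 2 = 1) (hχ : χ ^ 2 = 1) {s t : ℤ} (h1 : Of η s)
    (h2 : Of χ t) (h : 0 < t) :
    (∃ (δ : ℝ) (X₀ : ℕ), 0 < δ ∧ ∀ X : ℕ, X₀ ≤ X → δ * X ≤ (Cnt (fun _ ψ =>
      Ad21 (η.primitive_mul ψ) ∧ Ad21 (η.primitive_mul (χ.primitive_mul ψ))) X : ℝ)) ∧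
    ∀ ε : ℝ, 0 < ε → ∃ X₀ : ℕ, ∀ X : ℕ, X₀ ≤ X → (eta ^ 2 - ε) * (Cnt (fun _ ψ =>
      Ad21 (η.primitive_mul ψ) ∧ Ad21 (η.primitive_mul (χ.primitive_mul ψ))) X : ℝ) ≤
      (Cnt (fun _ ψ => (Ad21 (η.primitive_mul ψ) ∧ Ad21 (η.primitive_mul (χ.primitive_mul ψ))) ∧
        (NVg f21 (η.primitive_mul ψ) ∧ NVg f21 (η.primitive_mul (χ.primitive_mul ψ)))) X : ℝ) := by
  obtain ⟨d₁, hd, r1, r2⟩ := exists_K h2.1 h
  have hst := tw_sqf h1.1 h2.1
  have key := quant2_T ∅ {s, tw s t} (d₀ := tw s d₁)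
    (fun a ha => absurd ha (Finset.notMem_empty a))
    (fun a ha => by
      rw [Finset.mem_insert, Finset.mem_singleton] at ha
      rcases ha with rfl | rfl
      · exact h1.1
      · exact hst) (tw_sqf h1.1 hd)
    (fun a ha => absurd ha (Finset.notMem_empty a))
    (fun a ha => by
      rw [Finset.mem_insert, Finset.mem_singleton] at ha
      rcases ha with rfl | rfl
      · rw [tw_tw_self h1.1 hd]; exact r1
      · rw [tw_tw_mix h1.1 h2.1 hd]; exact r2)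
    (fun _ ψ => NVg f21 (η.primitive_mul ψ) ∧ NVg f21 (η.primitive_mul (χ.primitive_mul ψ)))
    (fun _ ψ => Ad21 (η.primitive_mul ψ) ∧ Ad21 (η.primitive_mul (χ.primitive_mul ψ)))
    (fun m hm hm1 _ _ hS ψ a1 a2 a3 => by
      haveI : NeZero (DD m).natAbs := ⟨fun h => DD_ne hm.ne_zero (Int.natAbs_eq_zero.1 h)⟩
      haveI : NeZero (χ.mul ψ).conductor := neCond
      haveI : NeZero (η.mul ψ).conductor := neCond
      haveI : NeZero (η.mul (χ.primitive_mul ψ)).conductor := neCond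
      have s1 := hS s (by simp)
      have s2 := hS (tw s t) (by simp)
      have o2 := pm_of hη (pm_sq hχ a2) h1 (pm_of hχ a2 h2 a3)
      rw [tw_tw h1.1 h2.1 hm] at o2
      exact ⟨nv21 (pm_of hη a2 h1 a3) (s1.1.k21 (tw_sqf h1.1 hm)) s1.2,
        nv21 o2 (s2.1.k21 (tw_sqf hst hm)) s2.2⟩)
    (fun m hm hm1 _ hS ψ a1 a2 a3 => by
      haveI : NeZero (DD m).natAbs := ⟨fun h => DD_ne hm.ne_zero (Int.natAbs_eq_zero.1 h)⟩
      haveI : NeZero (χ.mul ψ).conductor := neCond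
      haveI : NeZero (η.mul ψ).conductor := neCond
      haveI : NeZero (η.mul (χ.primitive_mul ψ)).conductor := neCond
      have o2 := pm_of hη (pm_sq hχ a2) h1 (pm_of hχ a2 h2 a3)
      rw [tw_tw h1.1 h2.1 hm] at o2
      exact ⟨(ad21_iff (pm_of hη a2 h1 a3)).2 (hS s (by simp)),
        (ad21_iff o2).2 (hS (tw s t) (by simp))⟩)
    (fun q _ ψ m hψ hm hAll => by
      haveI : NeZero (χ.mul ψ).conductor := neCond
      haveI : NeZero (η.mul ψ).conductor := neCond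
      haveI : NeZero (η.mul (χ.primitive_mul ψ)).conductor := neCond
      refine ⟨fun a ha => absurd ha (Finset.notMem_empty a), fun a ha => ?_⟩
      rw [Finset.mem_insert, Finset.mem_singleton] at ha
      rcases ha with rfl | rfl
      · exact (ad21_iff (pm_of hη (qd_sq hψ) h1 hm)).1 hAll.1
      · have o2 := pm_of hη (pm_sq hχ (qd_sq hψ)) h1 (pm_of hχ (qd_sq hψ) h2 hm)
        rw [tw_tw h1.1 h2.1 hm.1] at o2
        exact (ad21_iff o2).1 hAll.2)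
  refine ⟨key.1, ?_⟩
  have k2 := key.2 0 2 (by simp) Finset.card_le_two
  rw [pow_zero, one_mul] at k2
  exact k2

end Pool.Agent.H743.SN
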